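import Pool.Agent.Y843.AC.Fix
import Pool.Agent.Y843.QD.Lin

/-!
# Classes of dimension one
-/

set_option autoImplicit false

namespace Pool.Agent.Y843.AC

open Finset Filter
open Pool.Agent.Y843.HS (Pr VV Pr_mem Pr_prime)

theorem FC_lin {Z : ℕ → Finset ℕ} (h : Pool.Agent.Y843.QD.Lin Z) : FC 2 1 Z := by
  refine ⟨fun p hp => ⟨h.two p hp, h.lt p hp, h.cl p⟩, ?_⟩
  obtain ⟨c, C, hc, hC, hV⟩ := h.prd
  have hl2 : 0 < Real.log 2 := Real.log_pos (by norm_num)
  have h2 : (1 : ℝ) / 2 ≤ VV Z 0 2 ∧ VV Z 0 2 ≤ 1 := by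
    have e : Pr 0 2 = {2} := by
      ext p
      rw [Pr_mem, mem_singleton]
      constructor
      · rintro ⟨⟨_, h2⟩, h3⟩
        have := h3.two_le
        omega
      · rintro rfl
        exact ⟨⟨by norm_num, le_rfl⟩, Nat.prime_two⟩
    unfold VV
    rw [e, prod_singleton]
    have h3 := h.lt 2 Nat.prime_two
    have h4 : ((Z 2).card : ℝ) ≤ 1 := by exact_mod_cast Nat.lt_succ_iff.1 h3
    have h5 : (0 : ℝ) ≤ (Z 2).card := Nat.cast_nonneg _
    constructor
    · push_cast
      linarith
    · push_cast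
      linarith
  refine ⟨min c (1 / 2 * Real.log 2), max C (Real.log 2), lt_min hc (by positivity), lt_max_of_lt_left hC, ?_⟩
  intro y hy
  rw [pow_one]
  rcases Nat.lt_or_ge y 3 with hy3 | hy3
  · have hy2 : y = 2 := by omega
    subst hy2
    push_cast
    constructor
    · rw [div_le_iff₀ hl2]
      refine (min_le_right _ _).trans ?_
      exact mul_le_mul_of_nonneg_right h2.1 hl2.le
    · rw [le_div_iff₀ hl2]
      refine le_trans ?_ (le_max_right _ _)
      calc VV Z 0 2 * Real.log 2 ≤ 1 * Real.log 2 := mul_le_mul_of_nonneg_right h2.2 hl2.le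
        _ = _ := one_mul _
  · have hl : 0 < Real.log y := Real.log_pos (by exact_mod_cast (show 1 < y by omega))
    obtain ⟨v1, v2⟩ := hV y hy3
    constructor
    · exact (div_le_div_of_nonneg_right (min_le_left _ _) hl.le).trans v1
    · exact v2.trans (div_le_div_of_nonneg_right (le_max_left _ _) hl.le)

end Pool.Agent.Y843.AC
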