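import Pool.Agent.Y843.AC.GoldPr
import Pool.Agent.Y843.CH.Use
import Pool.Agent.Y840.CI.Top

/-!
# Chen's theorem for an even number, in windows of length `θ n`
-/

set_option autoImplicit false

namespace Pool.Agent.Y843.AC

open Finset Filter
open Pool.Agent.Y843.HS (Pr VV Pr_mem Pr_prime)
open Pool.Agent.Y843.HG
open Pool.Agent.Y843.CH

open Classical in
/-- the primes `p > n ^ (1 / 9)` of `(y₁, y₂]` such that `n - p` is a product of one or two primes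
`> n ^ (1 / 9)` -/
noncomputable def ChW (n y₁ y₂ : ℕ) : Finset ℕ :=
  (Ioc y₁ y₂).filter (fun p => p.Prime ∧ (n : ℝ) ^ (1 / 9 : ℝ) < p ∧
    1 ≤ (n - p).primeFactorsList.length ∧ (n - p).primeFactorsList.length ≤ 2 ∧
    ∀ q : ℕ, q.Prime → q ∣ n - p → (n : ℝ) ^ (1 / 9 : ℝ) < q)

theorem chw : ∃ c : ℝ, 0 < c ∧ ∀ θ : ℝ, 0 < θ → ∃ n₀ : ℕ, ∀ n : ℕ, n₀ ≤ n → Even n → ∀ y₁ y₂ : ℕ,
    y₂ ≤ n → θ * n ≤ (y₂ : ℝ) - y₁ → c * (((y₂ : ℝ) - y₁) * dg n) ≤ (ChW n y₁ y₂).card := by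
  classical
  obtain ⟨t, ht, c, hc, hch⟩ := Pool.Agent.Y840.CI.chenI 1
  obtain ⟨c', hc', n₁, h'⟩ := V_dn t ht
  refine ⟨c * c' / 2, by positivity, fun θ hθ => ?_⟩
  obtain ⟨X₀, h0⟩ := hch θ hθ
  obtain ⟨n₂, h2⟩ := Pool.Agent.Y843.HS.log_pow_le (2 * 2) ((8 / (c * c' * θ)) ^ 2)
  refine ⟨max (max X₀ n₁) (max n₂ (2 ^ 18)), ?_⟩
  intro n hn hne A B hBn hAB
  have e1 : X₀ ≤ n := ((le_max_left _ _).trans (le_max_left _ _)).trans hn
  have e2 : n₁ ≤ n := ((le_max_right _ _).trans (le_max_left _ _)).trans hn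
  have e3 : n₂ ≤ n := ((le_max_left _ _).trans (le_max_right _ _)).trans hn
  have e4 : 2 ^ 18 ≤ n := ((le_max_right _ _).trans (le_max_right _ _)).trans hn
  have hnr : (2 : ℝ) ^ 18 ≤ n := by exact_mod_cast e4
  have hn1 : (1 : ℝ) < n := lt_of_lt_of_le (by norm_num) hnr
  have hn3 : 3 ≤ n := le_trans (by norm_num) e4
  have hlog : 0 < Real.log n := Real.log_pos hn1
  have hdat : ∀ Y : ℕ, Dat 1 Y (n : ℤ) (fun q => (ZG n q).erase 0) := by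
    intro Y
    refine ⟨ZG_adm hne Y, ?_⟩
    intro q hq
    rw [Z0_erase, hr_nat n (Pr_prime hq).pos]
    unfold ZG
    exact mem_insert_of_mem (mem_singleton_self _)
  have h3 := h0 n e1 (n : ℤ) (by exact_mod_cast (show n ≠ 0 by omega)) (by simp) _ (hdat _) A B hBn hAB
  have h4 := h' n e2 hne
  have h5 : VV (Z0 (fun q => (ZG n q).erase 0)) 0 ⌊(n : ℝ) ^ (1 / (t : ℝ))⌋₊ =
      VV (ZG n) 0 ⌊(n : ℝ) ^ (1 / (t : ℝ))⌋₊ := by
    unfold VV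
    apply prod_congr rfl
    intro p _
    rw [Z0_erase]
  rw [h5] at h3
  have hdg := dg_ge hn3
  have hdg0 := dg_pos hn3
  -- the inclusion
  have hsub : Pool.Agent.Y840.CI.GI A B (Nat.sqrt n) n ⌊(n : ℝ) ^ (1 / (t : ℝ))⌋₊ (n : ℤ)
      (fun q => (ZG n q).erase 0) ⊆ ChW n A B ∪ (Ioc 0 ⌊(n : ℝ) ^ (1 / 9 : ℝ)⌋₊ ∪
      {((n : ℤ) - 1).toNat, ((n : ℤ) + 1).toNat, ((n : ℤ) / 2).toNat}) := by
    intro p hp
    unfold Pool.Agent.Y840.CI.GI at hp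
    rw [mem_filter] at hp
    obtain ⟨hp1, hp2, hp3⟩ := hp
    have h6 := gd_sub n _ (n : ℤ) (fun q => (ZG n q).erase 0) hnr hp1
    rw [mem_union] at h6 ⊢
    rcases h6 with h6 | h6
    · left
      unfold GE at h6
      rw [mem_filter] at h6
      obtain ⟨h7, h8, _, h9, h10, h11⟩ := h6
      have hpp : p.Prime := by
        unfold SP at h7
        exact (mem_filter.1 h7).2.1
      have e : ((n : ℤ) - p).natAbs = n - p := by omega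
      rw [e] at h9 h10 h11
      unfold ChW
      rw [mem_filter, mem_Ioc]
      exact ⟨⟨hp2, hp3⟩, hpp, h8, h9, h10, h11⟩
    · exact Or.inr h6
  have hcard : ((Pool.Agent.Y840.CI.GI A B (Nat.sqrt n) n ⌊(n : ℝ) ^ (1 / (t : ℝ))⌋₊ (n : ℤ)
      (fun q => (ZG n q).erase 0)).card : ℝ) ≤ (ChW n A B).card + (n : ℝ) ^ (1 / 9 : ℝ) + 3 := by
    have h6 := (card_le_card hsub).trans (card_union_le _ _)
    have h7 := card_union_le (Ioc 0 ⌊(n : ℝ) ^ (1 / 9 : ℝ)⌋₊)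
      ({((n : ℤ) - 1).toNat, ((n : ℤ) + 1).toNat, ((n : ℤ) / 2).toNat} : Finset ℕ)
    have h8 : ({((n : ℤ) - 1).toNat, ((n : ℤ) + 1).toNat, ((n : ℤ) / 2).toNat} : Finset ℕ).card ≤ 3 :=
      card_le_three
    rw [Nat.card_Ioc] at h7
    have h9 : (Pool.Agent.Y840.CI.GI A B (Nat.sqrt n) n ⌊(n : ℝ) ^ (1 / (t : ℝ))⌋₊ (n : ℤ)
      (fun q => (ZG n q).erase 0)).card ≤ (ChW n A B).card + ⌊(n : ℝ) ^ (1 / 9 : ℝ)⌋₊ + 3 := by
      omega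
    have h10 : ((⌊(n : ℝ) ^ (1 / 9 : ℝ)⌋₊ : ℕ) : ℝ) ≤ (n : ℝ) ^ (1 / 9 : ℝ) :=
      Nat.floor_le (by positivity)
    have h11 : ((Pool.Agent.Y840.CI.GI A B (Nat.sqrt n) n ⌊(n : ℝ) ^ (1 / (t : ℝ))⌋₊ (n : ℤ)
      (fun q => (ZG n q).erase 0)).card : ℝ) ≤
        (ChW n A B).card + (⌊(n : ℝ) ^ (1 / 9 : ℝ)⌋₊ : ℕ) + 3 := by exact_mod_cast h9
    linarith
  -- the error
  have g1 : (n : ℝ) ^ (1 / 9 : ℝ) ≤ (n : ℝ) ^ (1 / 2 : ℝ) :=
    Real.rpow_le_rpow_of_exponent_le hn1.le (by norm_num)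
  have g2 : (1 : ℝ) ≤ (n : ℝ) ^ (1 / 2 : ℝ) := Real.one_le_rpow hn1.le (by norm_num)
  have g3 : 8 / (c * c' * θ) * Real.log n ^ 2 ≤ (n : ℝ) ^ (1 / 2 : ℝ) := by
    rw [← Real.sqrt_eq_rpow]
    apply Real.le_sqrt_of_sq_le
    refine le_trans (le_of_eq ?_) (h2 n e3)
    rw [mul_pow, ← pow_mul]
  have g4 : (n : ℝ) ^ (1 / 2 : ℝ) * (n : ℝ) ^ (1 / 2 : ℝ) = n := by
    rw [← Real.rpow_add (by linarith)]
    norm_num
  have g5 : 4 * (n : ℝ) ^ (1 / 2 : ℝ) ≤ c * c' / 2 * (((B : ℝ) - A) * dg n) := by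
    have g6 : c * c' / 2 * (θ * n * (1 / Real.log n ^ 2)) ≤ c * c' / 2 * (((B : ℝ) - A) * dg n) := by
      apply mul_le_mul_of_nonneg_left _ (by positivity)
      exact mul_le_mul hAB hdg (by positivity) (le_trans (by positivity) hAB)
    refine le_trans ?_ g6
    have g7 : c * c' / 2 * (θ * n * (1 / Real.log n ^ 2)) = (c * c' * θ / 2 * n) / Real.log n ^ 2 := by
      ring
    rw [g7, le_div_iff₀ (by positivity)]
    have g8 : 4 * (n : ℝ) ^ (1 / 2 : ℝ) * Real.log n ^ 2 =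
        c * c' * θ / 2 * ((n : ℝ) ^ (1 / 2 : ℝ) * (8 / (c * c' * θ) * Real.log n ^ 2)) := by
      field_simp
      ring
    rw [g8]
    calc c * c' * θ / 2 * ((n : ℝ) ^ (1 / 2 : ℝ) * (8 / (c * c' * θ) * Real.log n ^ 2))
        ≤ c * c' * θ / 2 * ((n : ℝ) ^ (1 / 2 : ℝ) * (n : ℝ) ^ (1 / 2 : ℝ)) := by gcongr
      _ = c * c' * θ / 2 * n := by rw [g4]
  have hBA0 : 0 ≤ (B : ℝ) - A := le_trans (by positivity) hAB
  have g6 : c * c' * (((B : ℝ) - A) * dg n) ≤ c * ((B : ℝ) - A) * VV (ZG n) 0 ⌊(n : ℝ) ^ (1 / (t : ℝ))⌋₊ := by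
    calc c * c' * (((B : ℝ) - A) * dg n) = c * ((B : ℝ) - A) * (c' * dg n) := by ring
      _ ≤ _ := mul_le_mul_of_nonneg_left h4 (by positivity)
  linarith

/-- the elements of the set -/
theorem ChW_rep {n y₁ y₂ m : ℕ} (hy : y₂ ≤ n) (hm : m ∈ ChW n y₁ y₂) : Rep 9 n m := by
  classical
  unfold ChW at hm
  rw [mem_filter, mem_Ioc] at hm
  obtain ⟨h1, h2, h3, h4, h5, h6⟩ := hm
  right
  intro q hq hqn
  constructor
  · intro hqp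
    have := (Nat.prime_dvd_prime_iff_eq hq h2).1 hqp
    rw [this] at hqn
    push_cast at hqn
    linarith
  · intro hmod
    have h7 : q ∣ n - m := (Nat.modEq_iff_dvd' (by omega)).1 hmod.symm
    have := h6 q hq h7
    push_cast at hqn
    linarith

end Pool.Agent.Y843.AC
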