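import Pool.Agent.Y843.AC.Stm
import Pool.Agent.Y843.HS.PartA

/-!
# The number of progressions: sets sifted by the primes of `(s, Y]`
-/

set_option autoImplicit false

namespace Pool.Agent.Y843.AC

open Finset
open Pool.Agent.H602R3.DHJ (av av_const av_mono av_nonneg)
open Pool.Agent.Y727.PSP
open Pool.Agent.Y79.PSP.MK (rp_mem rp_inj)
open Pool.Agent.Y843.HS

/-- the sum of the densities in the windows, with a condition on the beginning of `T` -/
theorem sum_av_fX' {T : Finset ℕ} {A X N : ℕ} [NeZero N] (hT : T ⊆ Ioc A (A + X)) {w : ℝ} (hw : 0 ≤ w)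
    (hN : 3 ≤ N) (hb : 2 * (T.filter (fun t => t ≤ A + N)).card ≤ T.card) :
    w * T.card / 8 ≤ ∑ x ∈ Ioc A (A + X), av (fX T w N x) := by
  classical
  have hN0 : (0 : ℝ) < N := by exact_mod_cast Nat.pos_of_ne_zero (NeZero.ne N)
  unfold av
  rw [← sum_div, ZMod.card, le_div_iff₀ hN0, sum_comm]
  have h1 : ∀ a ∈ (univ : Finset (ZMod N)).filter (fun a => 2 * rp a < N),
      w * (T.card / 2) ≤ ∑ x ∈ Ioc A (A + X), fX T w N x a := by
    intro a ha
    rw [mem_filter] at ha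
    have h2 : ∑ x ∈ Ioc A (A + X), fX T w N x a =
        (((Ioc A (A + X)).filter (fun x => x + rp a ∈ T)).card : ℝ) * w := by
      rw [← nsmul_eq_mul, ← sum_const, sum_filter]
      apply sum_congr rfl
      intro x _
      unfold fX
      simp [ha.2]
    rw [h2]
    have h3 : T.card ≤ ((Ioc A (A + X)).filter (fun x => x + rp a ∈ T)).card +
        (T.filter (fun t => t ≤ A + N)).card := by
      have h4 : T ⊆ (T.filter (fun t => t ≤ A + N)) ∪
          ((Ioc A (A + X)).filter (fun x => x + rp a ∈ T)).image (fun x => x + rp a) := by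
        intro t ht
        have h5 := mem_Ioc.1 (hT ht)
        rw [mem_union, mem_filter, mem_image]
        rcases le_or_gt t (A + rp a) with h6 | h6
        · exact Or.inl ⟨ht, by omega⟩
        · refine Or.inr ⟨t - rp a, ?_, by omega⟩
          rw [mem_filter, mem_Ioc]
          refine ⟨⟨by omega, by omega⟩, ?_⟩
          rwa [show t - rp a + rp a = t by omega]
      refine (card_le_card h4).trans ((card_union_le _ _).trans ?_)
      have := card_image_le (s := (Ioc A (A + X)).filter (fun x => x + rp a ∈ T))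
        (f := fun x => x + rp a)
      omega
    have h6 : (T.card : ℝ) / 2 ≤ (((Ioc A (A + X)).filter (fun x => x + rp a ∈ T)).card : ℝ) := by
      have : T.card ≤ 2 * ((Ioc A (A + X)).filter (fun x => x + rp a ∈ T)).card := by omega
      have : (T.card : ℝ) ≤ 2 * (((Ioc A (A + X)).filter (fun x => x + rp a ∈ T)).card : ℝ) := by
        exact_mod_cast this
      linarith
    rw [mul_comm w]
    exact mul_le_mul_of_nonneg_right h6 hw
  have h2 : ∑ a ∈ (univ : Finset (ZMod N)).filter (fun a => 2 * rp a < N),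
      ∑ x ∈ Ioc A (A + X), fX T w N x a ≤ ∑ a : ZMod N, ∑ x ∈ Ioc A (A + X), fX T w N x a := by
    apply sum_le_sum_of_subset_of_nonneg (filter_subset _ _)
    intro a _ _
    apply sum_nonneg
    intro x _
    unfold fX
    split_ifs
    · exact hw
    · exact le_rfl
  refine le_trans ?_ h2
  refine le_trans ?_ (sum_le_sum h1)
  rw [sum_const, nsmul_eq_mul]
  have h3 := card_half (N := N)
  have h4 : (N : ℝ) / 4 ≤ (((univ : Finset (ZMod N)).filter (fun a => 2 * rp a < N)).card : ℝ) := by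
    have h5 : N ≤ 4 * ((univ : Finset (ZMod N)).filter (fun a => 2 * rp a < N)).card := by omega
    have h6 : (N : ℝ) ≤ 4 * (((univ : Finset (ZMod N)).filter (fun a => 2 * rp a < N)).card : ℝ) := by
      exact_mod_cast h5
    linarith
  calc w * T.card / 8 * N = (N : ℝ) / 4 * (w * (T.card / 2)) := by ring
    _ ≤ _ := mul_le_mul_of_nonneg_right h4 (by positivity)

open Classical in
/-- many good windows -/
theorem many_windows {k : ℕ} {ν : ℕ → ℝ} {A X N : ℕ} [NeZero N] {η δ : ℝ} {F : ℕ → ZMod N → ℝ}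
    (hX : 1 ≤ X) (hF : ∀ x a, 0 ≤ F x a ∧ F x a ≤ nuX ν N x a)
    (h1 : ∑ x ∈ Ioc A (A + X), |av (nuX ν N x) - 1| ≤ η * X)
    (h2 : (((Ioc A (A + X)).filter (fun x => ¬ LFk k N (nuX ν N x) η)).card : ℝ) ≤ η * X)
    (h3 : δ * X ≤ ∑ x ∈ Ioc A (A + X), av (F x)) (hη : 8 * η ≤ δ) (hδ : 0 < δ) :
    δ / 4 * X ≤
      (((Ioc A (A + X)).filter (fun x => LFk k N (nuX ν N x) η ∧ δ / 2 ≤ av (F x))).card : ℝ) := by
  have hX' : (0 : ℝ) < X := by exact_mod_cast hX
  have hcard : (Ioc A (A + X)).card = X := by rw [Nat.card_Ioc]; omega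
  have h4 : ∀ x ∈ Ioc A (A + X), av (F x) ≤ (δ / 2 +
      ((if ¬ LFk k N (nuX ν N x) η then 1 else 0) + |av (nuX ν N x) - 1|)) +
      (if LFk k N (nuX ν N x) η ∧ δ / 2 ≤ av (F x) then 1 else 0) := by
    intro x _
    have h6 : av (F x) ≤ av (nuX ν N x) := av_mono fun a => (hF x a).2
    have h7 := le_abs_self (av (nuX ν N x) - 1)
    have h8 := abs_nonneg (av (nuX ν N x) - 1)
    by_cases h5 : LFk k N (nuX ν N x) η
    · by_cases h9 : δ / 2 ≤ av (F x)
      · rw [if_neg (not_not.2 h5), if_pos ⟨h5, h9⟩]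
        linarith
      · rw [if_neg (not_not.2 h5), if_neg (fun h => h9 h.2)]
        linarith
    · rw [if_pos h5, if_neg (fun h => h5 h.1)]
      linarith
  have h5 := h3.trans (sum_le_sum h4)
  rw [sum_add_distrib, sum_add_distrib, sum_add_distrib, sum_const, hcard, nsmul_eq_mul] at h5
  have h6 : ∑ x ∈ Ioc A (A + X), (if ¬ LFk k N (nuX ν N x) η then (1 : ℝ) else 0) =
      (((Ioc A (A + X)).filter (fun x => ¬ LFk k N (nuX ν N x) η)).card : ℝ) := by
    rw [card_filter]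
    push_cast
    rfl
  have h7 : ∑ x ∈ Ioc A (A + X), (if LFk k N (nuX ν N x) η ∧ δ / 2 ≤ av (F x) then (1 : ℝ) else 0) =
      (((Ioc A (A + X)).filter (fun x => LFk k N (nuX ν N x) η ∧ δ / 2 ≤ av (F x))).card : ℝ) := by
    rw [card_filter]
    push_cast
    rfl
  rw [h6, h7] at h5
  have h8 : 8 * η * X ≤ δ * X := mul_le_mul_of_nonneg_right hη hX'.le
  nlinarith

/-- (CNT, PART A) -/
theorem cntA (hTH : S_TH) (hCOR : S_COR) (hGAV : S_GAV) (hDEN : S_DEN) (hRS : S_RS) (hWIN : S_WIN) {k : ℕ}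
    (hk : 2 ≤ k) (r L : ℕ) {δ : ℝ} (hδ : 0 < δ) :
    ∃ s₀ : ℕ, ∃ c₀ : ℝ, 0 < c₀ ∧ ∀ s : ℕ, s₀ ≤ s → ∃ B X₀ : ℕ, ∀ X Y A D : ℕ, X₀ ≤ X → X ≤ Y ^ L →
      Y ≤ X ^ L → Real.log X ^ B ≤ D → D ≤ X →
      ∀ Z : ℕ → Finset ℕ, Sv r s Y Z → ∀ T : Finset ℕ, T ⊆ Ioc A (A + X) →
      (∀ t ∈ T, ∀ p ∈ Pr s Y, t % p ∉ Z p) → δ * X * VV Z s Y ≤ T.card →
      c₀ * X * D * VV Z s Y ^ k ≤ ((APs k D T).card : ℝ) := by
  classical
  set M := 2 * (k * 2 ^ k) with hM
  obtain ⟨C, hC1, hC⟩ := hTH r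
  obtain ⟨C1, hC1'⟩ := hCOR r M C
  set C2 := C1 + L + 1 with hC2
  obtain ⟨cD, hcD, R₀, hR₀⟩ := hDEN r (2 * C2 * L)
  have hC0 : (0 : ℝ) < C := by exact_mod_cast hC1
  set δ₁ := δ * cD / (8 * C) with hδ₁
  have hδ₁0 : 0 < δ₁ := by positivity
  obtain ⟨c, ηR, hc0, hηR, hRSk⟩ := hRS k hk (δ₁ / 2) (by positivity)
  set η := min ηR (min (δ₁ / 8) 1) with hη
  have hη0 : 0 < η := lt_min hηR (lt_min (by positivity) one_pos)
  have hη1 : η ≤ ηR := min_le_left _ _
  have hη2 : η ≤ δ₁ / 8 := (min_le_right _ _).trans (min_le_left _ _)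
  have hη3 : η ≤ 1 := (min_le_right _ _).trans (min_le_right _ _)
  have hM1 : 1 ≤ M := by
    have : 0 < k * 2 ^ k := by positivity
    omega
  set E := min (η ^ 2 / 3) (η ^ 3 / (3 * 2 ^ (k * 2 ^ k))) with hE
  have hE0 : 0 < E := lt_min (by positivity) (by positivity)
  have hE1 : 3 * E ≤ η ^ 2 := by
    have := min_le_left (η ^ 2 / 3) (η ^ 3 / (3 * 2 ^ (k * 2 ^ k)))
    rw [← hE] at this
    linarith
  have hE2 : 2 ^ (k * 2 ^ k) * (3 * E) ≤ η ^ 3 := by
    have := min_le_right (η ^ 2 / 3) (η ^ 3 / (3 * 2 ^ (k * 2 ^ k)))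
    rw [← hE, le_div_iff₀ (by positivity)] at this
    linarith
  obtain ⟨g, K, s₁, hs₁⟩ := hC1' (E / 2) (by positivity)
  set E' := E / (2 * (K * M ^ 2 + 1)) with hE'
  have hE'0 : 0 < E' := by positivity
  obtain ⟨s₂, B₀, X₁, hX₁⟩ := hGAV r (M ^ 2 * K * (1 + K) ^ M ^ 2) E' hE'0
  set m₁ := min 1 δ₁ with hm₁
  have hm₁0 : 0 < m₁ := lt_min one_pos hδ₁0
  have hm₁1 : m₁ ≤ 1 := min_le_left _ _
  have hm₁2 : m₁ ≤ δ₁ := min_le_right _ _
  refine ⟨max (max s₁ s₂) (2 * r + 3), c * δ₁ * m₁ / 32, by positivity, ?_⟩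
  intro s hs
  have hs1 : s₁ ≤ s := (le_max_left _ _).trans ((le_max_left _ _).trans hs)
  have hs2 : s₂ ≤ s := (le_max_right _ _).trans ((le_max_left _ _).trans hs)
  have hs3 : 2 * r + 3 ≤ s := (le_max_right _ _).trans hs
  obtain ⟨J₁, hJ₁⟩ := hs₁ s hs1
  obtain ⟨cM, hcM1, hcM⟩ := EE_log
  set B' := B₀ + 2 * r * k + 1 with hB'
  set J₂ := J₁ + C + g + s + R₀ + ⌈2 / δ₁⌉₊ + 1 with hJ₂
  obtain ⟨X₂, hX₂⟩ := log_ge (max 4 (max (k + 1) (8 * cM ^ (2 * r * k) / (c * δ₁) + 2)))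
  obtain ⟨X₃, hX₃⟩ := log_pow_le (B' + 1) (2 / m₁)
  refine ⟨B' + 1, max (max X₁ X₂) (max X₃ ((2 ^ 2 ^ J₂) ^ C2)), ?_⟩
  intro X Y A D hX hXY hYX hBD hDX Z hZ T hT hTZ hTc
  have hXX₁ : X₁ ≤ X := (le_max_left _ _).trans ((le_max_left _ _).trans hX)
  have hXX₂ := hX₂ X ((le_max_right _ _).trans ((le_max_left _ _).trans hX))
  have hXX₃ := hX₃ X ((le_max_left _ _).trans ((le_max_right _ _).trans hX))
  have hXX₄ : (2 ^ 2 ^ J₂) ^ C2 ≤ X := (le_max_right _ _).trans ((le_max_right _ _).trans hX)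
  have hlog4 : 4 ≤ Real.log X := (le_max_left _ _).trans hXX₂
  have hlogk : (k : ℝ) + 1 ≤ Real.log X := (le_max_left _ _).trans ((le_max_right _ _).trans hXX₂)
  have hlogc : 8 * cM ^ (2 * r * k) / (c * δ₁) + 2 ≤ Real.log X :=
    (le_max_right _ _).trans ((le_max_right _ _).trans hXX₂)
  -- the level
  obtain ⟨J, hJ2, hJX, hJX'⟩ := exists_cross (P := fun J => (2 ^ 2 ^ J) ^ C2 ≤ X)
    (a := J₂) (b := J₂ + X) (Nat.le_add_right _ _) hXX₄ (by
      rw [not_le]
      calc X < 2 ^ X := Nat.lt_two_pow_self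
        _ ≤ 2 ^ 2 ^ (J₂ + X) := Nat.pow_le_pow_right (by norm_num)
            ((Nat.le_add_left _ _).trans Nat.lt_two_pow_self.le)
        _ = (2 ^ 2 ^ (J₂ + X)) ^ 1 := (pow_one _).symm
        _ ≤ (2 ^ 2 ^ (J₂ + X)) ^ C2 := Nat.pow_le_pow_right (by positivity) (by omega))
  rw [not_le] at hJX'
  set R := 2 ^ 2 ^ J with hR
  set z := 2 ^ 2 ^ (J - g) with hz
  have hR1 : 1 ≤ R := Nat.one_le_two_pow
  have hXR : X < R ^ (2 * C2) := by
    have : 2 ^ 2 ^ (J + 1) = R ^ 2 := by rw [hR, ← pow_mul, pow_succ]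
    rw [this, ← pow_mul] at hJX'
    exact hJX'
  have hX1 : 1 ≤ X := (Nat.one_le_pow _ _ hR1).trans hJX
  have hX0 : (0 : ℝ) < X := by exact_mod_cast hX1
  have hRX : R ≤ X := by
    refine le_trans ?_ hJX
    calc R = R ^ 1 := (pow_one R).symm
      _ ≤ R ^ C2 := Nat.pow_le_pow_right hR1 (by omega)
  have hRY : R ≤ Y := by
    by_contra hcon
    rw [not_le] at hcon
    have hL : L ≠ 0 := by
      intro h0
      rw [h0, pow_zero] at hXY
      have : X = 1 := by omega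
      rw [this] at hlog4
      simp at hlog4
      linarith
    have h1 : Y ^ L < R ^ L := Nat.pow_lt_pow_left hcon hL
    have h2 : R ^ L ≤ R ^ C2 := Nat.pow_le_pow_right hR1 (by omega)
    omega
  have hYR : Y ≤ R ^ (2 * C2 * L) := by
    rw [pow_mul]
    exact hYX.trans (Nat.pow_le_pow_left hXR.le L)
  have hsz : s ≤ z := by
    rw [hz]
    exact (show s ≤ J - g by omega).trans (tower_ge _)
  have hzR : z ≤ R := by
    rw [hz, hR]
    exact Nat.pow_le_pow_right (by norm_num) (Nat.pow_le_pow_right (by norm_num) (Nat.sub_le _ _))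
  have hR₀R : R₀ ≤ R := (show R₀ ≤ J by omega).trans (tower_ge J)
  obtain ⟨θ, hθ⟩ := hC (J - g) J (by omega) (Nat.sub_le _ _) Z
    (Sv_mono hZ hsz hRY)
  rw [← hz, ← hR] at hθ
  have hZR : Sv r s R Z := Sv_mono hZ le_rfl hRY
  set V := VV Z s z with hV
  set q := qq Z z R θ with hq
  have hVR : 1 / EE s R ^ (2 * r) ≤ VV Z s R := VV_ge (by omega) hZR
  have hEE : EE s R ≤ cM * Real.log X := by
    refine (hcM s R (by omega) (hsz.trans hzR)).trans ?_
    apply mul_le_mul_of_nonneg_left _ (by linarith)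
    exact Real.log_le_log (by exact_mod_cast hR1) (by exact_mod_cast hRX)
  have hEE1 := one_le_EE s R
  have hV0 : 0 < V := by
    have := VV_ge (a := s) (b := z) (r := r) (Z := Z) (by omega) (Sv_mono hZR le_rfl hzR)
    have h1 := one_le_EE s z
    exact lt_of_lt_of_le (by positivity) this
  have hVzR0 : 0 < VV Z z R := by
    have := VV_ge (a := z) (b := R) (r := r) (Z := Z) (by omega) (Sv_mono hZR hsz le_rfl)
    have h1 := one_le_EE z R
    exact lt_of_lt_of_le (by positivity) this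
  have hq0 : 0 < q := lt_of_lt_of_le hVzR0 hθ.lo
  have hsplit : V * VV Z z R = VV Z s R := VV_split Z hsz hzR
  have hVR0 : 0 < VV Z s R := by rw [← hsplit]; positivity
  set w := 1 / (V * q) with hw
  have hw0 : 0 < w := by positivity
  have hVq : V * q ≤ C * VV Z s R := by
    rw [← hsplit]
    calc V * q ≤ V * (C * VV Z z R) := mul_le_mul_of_nonneg_left hθ.hi hV0.le
      _ = C * (V * VV Z z R) := by ring
  have hwup : w ≤ (cM * Real.log X) ^ (2 * r) := by
    have h1 : VV Z s R ≤ V * q := by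
      rw [← hsplit]
      exact mul_le_mul_of_nonneg_left hθ.lo hV0.le
    calc w ≤ 1 / VV Z s R := one_div_le_one_div_of_le hVR0 h1
      _ ≤ EE s R ^ (2 * r) := by
          rw [div_le_iff₀ hVR0]
          rw [div_le_iff₀ (by positivity)] at hVR
          linarith
      _ ≤ _ := pow_le_pow_left₀ (by positivity) hEE _
  -- the size of `T`
  have hden : cD ≤ VV Z R Y := hR₀ R Y hR₀R hYR Z (Sv_mono hZ (hsz.trans hzR) le_rfl)
  have hTc' : δ * cD * X * VV Z s R ≤ T.card := by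
    refine le_trans ?_ hTc
    rw [← VV_split Z (hsz.trans hzR) hRY]
    have := mul_le_mul_of_nonneg_left hden (show 0 ≤ δ * X * VV Z s R by positivity)
    linarith
  have hwT : 8 * δ₁ * X ≤ w * T.card := by
    calc 8 * δ₁ * X = (δ * cD * X * VV Z s R) / (C * VV Z s R) := by
          rw [hδ₁]
          field_simp
      _ ≤ (δ * cD * X * VV Z s R) / (V * q) :=
          div_le_div_of_nonneg_left (by positivity) (by positivity) hVq
      _ = w * (δ * cD * X * VV Z s R) := by rw [hw]; ring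
      _ ≤ w * T.card := mul_le_mul_of_nonneg_left hTc' hw0.le
  -- the weight
  set ν := nu Z s z R θ with hν
  have hν0 : ∀ n, 0 ≤ ν n := by
    intro n
    rw [hν]
    unfold nu
    apply div_nonneg _ (by positivity)
    apply mul_nonneg _ (hθ.nonneg n)
    split_ifs
    · exact zero_le_one
    · exact le_rfl
  have hνT : ∀ t ∈ T, ν t = w := by
    intro t ht
    rw [hν]
    unfold nu
    have h1 : ∀ p ∈ Pr s z, t % p ∉ Z p := fun p hp => hTZ t ht p (by
      rw [Pr_mem] at hp ⊢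
      exact ⟨⟨hp.1.1, by omega⟩, hp.2⟩)
    have h2 : ∀ p ∈ Pr z R, t % p ∉ Z p := fun p hp => hTZ t ht p (by
      rw [Pr_mem] at hp ⊢
      exact ⟨⟨by omega, by omega⟩, hp.2⟩)
    rw [if_pos h1, Th_one hθ.one h2, one_mul]
  have hJX1 : R ^ C1 ≤ X := (Nat.pow_le_pow_right hR1 (by omega)).trans hJX
  -- the beginning of `T`
  set y₀ := ⌊2 * δ₁ * X⌋₊ with hy₀
  have hy₀le : (y₀ : ℝ) ≤ 2 * δ₁ * X := Nat.floor_le (by positivity)
  have hRδ : 2 / δ₁ ≤ R := by
    have h1 : (2 / δ₁ : ℝ) ≤ (⌈2 / δ₁⌉₊ : ℕ) := Nat.le_ceil _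
    have h2 : ⌈2 / δ₁⌉₊ ≤ R := (show ⌈2 / δ₁⌉₊ ≤ J by omega).trans (tower_ge J)
    exact h1.trans (by exact_mod_cast h2)
  have hXδ : 1 ≤ δ₁ * X := by
    have h1 : (R : ℝ) ≤ X := by exact_mod_cast hRX
    rw [div_le_iff₀ hδ₁0] at hRδ
    nlinarith
  have hy₀ge : δ₁ * X ≤ y₀ := by
    have h1 := (Nat.sub_one_lt_floor (2 * δ₁ * X)).le
    linarith
  have hRy₀ : R ^ C1 ≤ y₀ := by
    have h1 : R ^ C1 * R ≤ X := by
      rw [← pow_succ]
      exact (Nat.pow_le_pow_right hR1 (by omega)).trans hJX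
    have h2 : ((R ^ C1 : ℕ) : ℝ) * R ≤ X := by exact_mod_cast h1
    have h3 : ((R ^ C1 : ℕ) : ℝ) ≤ δ₁ * X := by
      have h4 : 0 ≤ ((R ^ C1 : ℕ) : ℝ) := Nat.cast_nonneg _
      have h5 : ((R ^ C1 : ℕ) : ℝ) * (2 / δ₁) ≤ X := (mul_le_mul_of_nonneg_left hRδ h4).trans h2
      rw [← mul_div_assoc, div_le_iff₀ hδ₁0] at h5
      linarith
    exact_mod_cast h3.trans hy₀ge
  have hbeg : 2 * (T.filter (fun t => t ≤ A + y₀)).card ≤ T.card := by
    have h1 := hJ₁ J A y₀ (by omega) hRy₀ Z hZR θ hθ 1 hM1 (fun _ => 0)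
    have h2 : Coll K Z s R (fun _ : Fin 1 => 0) = 1 := by
      unfold Coll
      rw [filter_false_of_mem]
      · exact prod_empty
      · rintro p _ ⟨i, j, hij, _⟩
        exact hij (Subsingleton.elim i j)
    have hy₀0 : (0 : ℝ) < y₀ := lt_of_lt_of_le (by linarith) hy₀ge
    rw [h2, sub_self, mul_zero, add_zero] at h1
    have h3 := (abs_le.1 h1).2
    have h4 : (∑ x ∈ Ioc A (A + y₀), ν x) ≤ 2 * y₀ := by
      have h5 : (∑ x ∈ Ioc A (A + y₀), ∏ _i : Fin 1, nu Z s (2 ^ 2 ^ (J - g)) (2 ^ 2 ^ J) θ (x + 0)) / (y₀ : ℝ)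
          ≤ 2 := by
        have h6 : E ≤ 1 := by
          nlinarith
        linarith
      rw [div_le_iff₀ hy₀0] at h5
      simpa using h5
    have h6 : w * ((T.filter (fun t => t ≤ A + y₀)).card : ℝ) ≤ 2 * y₀ := by
      refine le_trans ?_ h4
      rw [mul_comm, ← nsmul_eq_mul, ← sum_const]
      calc ∑ _t ∈ T.filter (fun t => t ≤ A + y₀), w = ∑ t ∈ T.filter (fun t => t ≤ A + y₀), ν t :=
            sum_congr rfl fun t ht => (hνT t (mem_filter.1 ht).1).symm
        _ ≤ ∑ x ∈ Ioc A (A + y₀), ν x := by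
            apply sum_le_sum_of_subset_of_nonneg
            · intro t ht
              rw [mem_filter] at ht
              exact mem_Ioc.2 ⟨(mem_Ioc.1 (hT ht.1)).1, ht.2⟩
            · intro x _ _
              exact hν0 x
    have h7 : w * ((T.filter (fun t => t ≤ A + y₀)).card : ℝ) ≤ w * T.card / 2 := by linarith
    have h8 : ((T.filter (fun t => t ≤ A + y₀)).card : ℝ) ≤ T.card / 2 := by
      have h9 : w * ((T.filter (fun t => t ≤ A + y₀)).card : ℝ) ≤ w * (T.card / 2) := by linarith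
      exact le_of_mul_le_mul_left h9 hw0
    have h9 : 2 * ((T.filter (fun t => t ≤ A + y₀)).card : ℝ) ≤ T.card := by linarith
    exact_mod_cast h9
  -- the prime `N`
  set y := Real.log X ^ B' with hy
  have hy1 : Real.log X ≤ y := by
    rw [hy]
    calc Real.log X = Real.log X ^ 1 := (pow_one _).symm
      _ ≤ Real.log X ^ B' := pow_le_pow_right₀ (by linarith) (by omega)
  have hylog : 4 * y ≤ Real.log X ^ (B' + 1) := by
    rw [pow_succ, mul_comm]
    exact mul_le_mul_of_nonneg_left hlog4 (by linarith)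
  set D₁ := min D y₀ with hD₁
  have hD₁D : D₁ ≤ D := min_le_left _ _
  have hD₁y : D₁ ≤ y₀ := min_le_right _ _
  have hm₁D : m₁ * D ≤ D₁ := by
    have hD0 : (0 : ℝ) ≤ D := Nat.cast_nonneg D
    rcases min_choice D y₀ with h1 | h1
    · rw [hD₁, h1]
      nlinarith
    · rw [hD₁, h1]
      have h2 : (D : ℝ) ≤ X := by exact_mod_cast hDX
      calc m₁ * D ≤ δ₁ * X := mul_le_mul hm₁2 h2 hD0 hδ₁0.le
        _ ≤ y₀ := hy₀ge
  have hD₁big : 2 * y + 2 ≤ D₁ := by
    have h0 : 2 * y + 2 ≤ Real.log X ^ (B' + 1) := by linarith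
    rcases min_choice D y₀ with h1 | h1
    · rw [hD₁, h1]
      linarith
    · rw [hD₁, h1]
      have h2 : 2 / m₁ * Real.log X ^ (B' + 1) ≤ X := hXX₃
      have h3 : 0 < Real.log X ^ (B' + 1) := by positivity
      rw [div_mul_eq_mul_div, div_le_iff₀ hm₁0] at h2
      have h4 : X * m₁ ≤ X * δ₁ := mul_le_mul_of_nonneg_left hm₁2 hX0.le
      linarith
  obtain ⟨N, hNp, hN1, hN2⟩ := Nat.exists_prime_lt_and_le_two_mul (D₁ / 2) (by
    have h1 : (2 : ℝ) ≤ D₁ := by linarith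
    have h2 : 2 ≤ D₁ := by exact_mod_cast h1
    omega)
  have hND : N ≤ D₁ := by omega
  have hND2 : (D₁ : ℝ) ≤ 2 * N := by
    have : D₁ ≤ 2 * N := by omega
    exact_mod_cast this
  have hyN : y < N := by linarith
  have : Fact N.Prime := ⟨hNp⟩
  have : NeZero N := ⟨hNp.ne_zero⟩
  have hkN : k < N := by
    have : (k : ℝ) < N := by linarith
    exact_mod_cast this
  have hN0 : (0 : ℝ) < N := by linarith
  have hTN : 2 * (T.filter (fun t => t ≤ A + N)).card ≤ T.card := by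
    refine le_trans ?_ hbeg
    apply Nat.mul_le_mul_left
    apply card_le_card
    intro t ht
    rw [mem_filter] at ht ⊢
    exact ⟨ht.1, by omega⟩
  have hcorr := hJ₁ J A X (by omega) hJX1 Z hZR θ hθ
  have hgav := hX₁ s R X N hs2 hXX₁ hRX (by
    refine le_trans ?_ hyN.le
    rw [hy]
    exact pow_le_pow_right₀ (by linarith) (by omega)) Z hZR
  have hcor := cor_of (Z := Z) (s := s) (R := R) (ν := ν) (M := M) (K := K) (A := A) (X := X) (N := N)
    (ε := E / 2) (E := E') hX1 hcorr (by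
      intro m hm
      refine le_trans ?_ hgav
      apply div_le_div_of_nonneg_right _ hN0.le
      apply sum_le_sum
      intro h _
      apply sub_le_sub_right
      apply Gd_mono
      have h1 : m ^ 2 ≤ M ^ 2 := Nat.pow_le_pow_left hm 2
      exact Nat.mul_le_mul (Nat.mul_le_mul_right K h1) (Nat.pow_le_pow_right (by omega) h1)) hE'0.le
  have hEE' : E / 2 + K * (M ^ 2 * E') ≤ E := by
    have h1 : (K : ℝ) * (M ^ 2 * E') ≤ E / 2 := by
      rw [hE']
      have h2 : (K : ℝ) * (M ^ 2 * (E / (2 * (K * M ^ 2 + 1)))) =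
          (E / 2) * ((K * M ^ 2) / (K * M ^ 2 + 1)) := by
        field_simp
      rw [h2]
      apply mul_le_of_le_one_right (by positivity)
      rw [div_le_one (by positivity)]
      linarith
    linarith
  have hcor' : Cor ν M E A X N := by
    intro Y' _ _ I _ hI f hf
    exact (hcor Y' I hI f hf).trans hEE'
  obtain ⟨hl1, hl2⟩ := lfm hk hkN.le hcor' hX1 (le_of_eq hM.symm) hη0 hE1 hE2
  have hF : ∀ x (a : ZMod N), 0 ≤ fX T w N x a ∧ fX T w N x a ≤ nuX ν N x a := by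
    intro x a
    unfold fX nuX
    split_ifs with h
    · exact ⟨hw0.le, (hνT _ h.1).ge⟩
    · exact ⟨le_rfl, hν0 _⟩
  have hsum := sum_av_fX' (N := N) hT hw0.le (by omega) hTN
  have hmany := many_windows (k := k) (ν := ν) (A := A) (X := X) (N := N) (η := η)
    (δ := δ₁) (F := fX T w N) hX1 hF hl1 hl2 (by
      refine le_trans ?_ hsum
      rw [le_div_iff₀ (by norm_num)]
      linarith) (by linarith) hδ₁0
  set G := (Ioc A (A + X)).filter (fun x => LFk k N (nuX ν N x) η ∧ δ₁ / 2 ≤ av (fX T w N x)) with hG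
  have hlow : ∀ x ∈ G, c ≤ av (fun p : ZMod N × ZMod N => ∏ j ∈ range k, fX T w N x (p.1 + (j : ZMod N) * p.2)) := by
    intro x hx
    rw [hG, mem_filter] at hx
    exact hRSk N hNp hkN (nuX ν N x) (fX T w N x) (hF x) (LFk_mono hη1 hx.2.1) hx.2.2
  have hwin := hWIN k N hk T w hw0.le G
  have hsumG : (G.card : ℝ) * c ≤
      ∑ x ∈ G, av (fun p : ZMod N × ZMod N => ∏ j ∈ range k, fW T w N x (p.1 + (j : ZMod N) * p.2)) := by
    rw [← nsmul_eq_mul, ← sum_const]
    exact sum_le_sum hlow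
  have hGX : (G.card : ℝ) ≤ X := by
    have h1 := card_filter_le (Ioc A (A + X)) (fun x => LFk k N (nuX ν N x) η ∧ δ₁ / 2 ≤ av (fX T w N x))
    rw [← hG, Nat.card_Ioc] at h1
    exact_mod_cast (show G.card ≤ X by omega)
  have hwk : w ^ k ≤ (cM * Real.log X) ^ (2 * r * k) := by
    rw [pow_mul]
    exact pow_le_pow_left₀ hw0.le hwup k
  have hwk0 : 0 < w ^ k := by positivity
  have hwN : w ^ k * 8 ≤ c * δ₁ * N := by
    have h2 : Real.log X ^ (2 * r * k) * Real.log X ≤ y := by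
      rw [hy, ← pow_succ]
      exact pow_le_pow_right₀ (by linarith) (by omega)
    have h3 : 8 * cM ^ (2 * r * k) ≤ c * δ₁ * Real.log X := by
      have h4 : 8 * cM ^ (2 * r * k) / (c * δ₁) ≤ Real.log X := by linarith
      rw [div_le_iff₀ (by positivity)] at h4
      linarith
    calc w ^ k * 8 ≤ (cM * Real.log X) ^ (2 * r * k) * 8 := by linarith
      _ = (8 * cM ^ (2 * r * k)) * Real.log X ^ (2 * r * k) := by rw [mul_pow]; ring
      _ ≤ (c * δ₁ * Real.log X) * Real.log X ^ (2 * r * k) :=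
          mul_le_mul_of_nonneg_right h3 (by positivity)
      _ = c * δ₁ * (Real.log X ^ (2 * r * k) * Real.log X) := by ring
      _ ≤ c * δ₁ * y := mul_le_mul_of_nonneg_left h2 (by positivity)
      _ ≤ c * δ₁ * N := mul_le_mul_of_nonneg_left hyN.le (by positivity)
  -- the number of progressions
  have hmain : c * δ₁ / 16 * N * X ≤ w ^ k * ((APs k N T).card : ℝ) := by
    have h1 : c * δ₁ / 4 * X ≤ w ^ k * (2 * ((APs k N T).card : ℝ) / N + (G.card : ℝ) / N) := by
      have h2 : c * (δ₁ / 4 * X) ≤ (G.card : ℝ) * c := by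
        rw [mul_comm (G.card : ℝ)]
        exact mul_le_mul_of_nonneg_left hmany hc0.le
      calc c * δ₁ / 4 * X = c * (δ₁ / 4 * X) := by ring
        _ ≤ _ := (h2.trans hsumG).trans hwin
    have h2 : w ^ k * (2 * ((APs k N T).card : ℝ) / N + (G.card : ℝ) / N) =
        (w ^ k * (2 * ((APs k N T).card : ℝ) + G.card)) / N := by
      rw [← add_div, mul_div_assoc]
    rw [h2, le_div_iff₀ hN0] at h1
    have h3 : w ^ k * (G.card : ℝ) ≤ w ^ k * X := mul_le_mul_of_nonneg_left hGX hwk0.le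
    have h4 : w ^ k * 8 * X ≤ c * δ₁ * N * X := mul_le_mul_of_nonneg_right hwN hX0.le
    linarith
  have hVY : VV Z s Y ≤ V * q := by
    have h1 : VV Z s Y ≤ VV Z s R := by
      rw [← VV_split Z (hsz.trans hzR) hRY]
      have h2 : VV Z R Y ≤ 1 := by
        unfold VV
        apply Finset.prod_le_one
        · intro p hp
          have h3 := (hZ p (by
            rw [Pr_mem] at hp ⊢
            exact ⟨⟨by omega, hp.1.2⟩, hp.2⟩)).1
          have h4 := Pr_mem.1 hp
          have h5 : (0 : ℝ) < p := by exact_mod_cast h4.2.pos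
          have h6 : ((Z p).card : ℝ) ≤ p := by exact_mod_cast (show (Z p).card ≤ p by omega)
          have h7 : ((Z p).card : ℝ) / p ≤ 1 := by rw [div_le_one h5]; exact h6
          linarith
        · intro p _
          have : (0 : ℝ) ≤ ((Z p).card : ℝ) / p := by positivity
          linarith
      exact mul_le_of_le_one_right hVR0.le h2
    refine h1.trans ?_
    rw [← hsplit]
    exact mul_le_mul_of_nonneg_left hθ.lo hV0.le
  have hVY0 : 0 ≤ VV Z s Y := by
    rw [← VV_split Z (hsz.trans hzR) hRY]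
    exact mul_nonneg hVR0.le (hcD.le.trans hden)
  have hwV : w ^ k * (V * q) ^ k = 1 := by
    rw [← mul_pow, hw, one_div, inv_mul_cancel₀ (by positivity), one_pow]
  have hfin : c * δ₁ / 16 * N * X * (V * q) ^ k ≤ ((APs k N T).card : ℝ) := by
    calc c * δ₁ / 16 * N * X * (V * q) ^ k ≤ w ^ k * ((APs k N T).card : ℝ) * (V * q) ^ k :=
          mul_le_mul_of_nonneg_right hmain (by positivity)
      _ = (w ^ k * (V * q) ^ k) * ((APs k N T).card : ℝ) := by ring
      _ = _ := by rw [hwV, one_mul]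
  have hmono : ((APs k N T).card : ℝ) ≤ ((APs k D T).card : ℝ) := by
    have : APs k N T ⊆ APs k D T := by
      intro q hq
      unfold APs at hq ⊢
      rw [mem_filter, mem_product, mem_Icc] at hq ⊢
      exact ⟨⟨hq.1.1, hq.1.2.1, by omega⟩, hq.2⟩
    exact_mod_cast card_le_card this
  refine le_trans ?_ (hfin.trans hmono)
  have h1 : m₁ * D / 2 ≤ N := by linarith
  have h2 : VV Z s Y ^ k ≤ (V * q) ^ k := pow_le_pow_left₀ hVY0 hVY k
  calc c * δ₁ * m₁ / 32 * X * D * VV Z s Y ^ k = c * δ₁ / 16 * (m₁ * D / 2) * X * VV Z s Y ^ k := by ring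
    _ ≤ c * δ₁ / 16 * N * X * (V * q) ^ k := by
        apply mul_le_mul _ h2 (pow_nonneg hVY0 k) (by positivity)
        apply mul_le_mul_of_nonneg_right _ hX0.le
        exact mul_le_mul_of_nonneg_left h1 (by positivity)

end Pool.Agent.Y843.AC
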