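import Pool.Agent.Y843.AC.Gold

/-!
# The number of progressions in dense subsets of sifted sets: fixed classes

`Z p` are fixed residue classes with `VV Z 0 y` of the exact order `1 / log ^ m y`.
-/

set_option autoImplicit false

namespace Pool.Agent.Y843.AC

open Finset Filter
open Pool.Agent.Y843.HS (Pr VV Pr_mem Pr_prime)
open Pool.Agent.Y843.HG

/-- fixed classes of dimension `m` -/
structure FC (r m : ℕ) (Z : ℕ → Finset ℕ) : Prop where
  ok : ∀ p : ℕ, p.Prime → (Z p).card ≤ r ∧ (Z p).card < p ∧ ∀ c ∈ Z p, c < p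
  ord : ∃ c C : ℝ, 0 < c ∧ 0 < C ∧ ∀ y : ℕ, 2 ≤ y →
    c / Real.log y ^ m ≤ VV Z 0 y ∧ VV Z 0 y ≤ C / Real.log y ^ m

theorem log_one {n : ℕ} (hn : 3 ≤ n) : 1 ≤ Real.log n := by
  have h1 : Real.exp 1 ≤ n := by
    have h2 : (3 : ℝ) ≤ n := by exact_mod_cast hn
    linarith [Real.exp_one_lt_d9]
  rw [← Real.log_exp 1]
  exact Real.log_le_log (Real.exp_pos 1) h1

/-- **windows, uniform roughness** -/
theorem fixed {r m : ℕ} {Z : ℕ → Finset ℕ} (hZ : FC r m Z) (k u : ℕ) (hk : 1 ≤ k) (hu : 1 ≤ u)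
    {θ : ℝ} (hθ : 0 < θ) :
    (∃ C : ℝ, 0 < C ∧ ∃ B n₀ : ℕ, ∀ n : ℕ, n₀ ≤ n → ∀ y X D : ℕ, (n : ℝ) ^ θ ≤ X → X ≤ n →
      Real.log n ^ B ≤ D → ∀ S : Finset ℕ, S ⊆ Ioc y (y + X) →
      (∀ a ∈ S, ∀ p : ℕ, p.Prime → (p : ℝ) ≤ (n : ℝ) ^ (1 / (u : ℝ)) → a % p ∉ Z p) →
      ((APs k D S).card : ℝ) ≤ C * (X * D * (1 / Real.log n ^ m) ^ k)) ∧
    (∀ δ : ℝ, 0 < δ → ∃ c : ℝ, 0 < c ∧ ∃ B n₀ : ℕ, ∀ n : ℕ, n₀ ≤ n → ∀ y X D : ℕ,
      (n : ℝ) ^ θ ≤ X → X ≤ n → Real.log n ^ B ≤ D → D ≤ X → ∀ S : Finset ℕ, S ⊆ Ioc y (y + X) →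
      (∀ a ∈ S, ∀ p : ℕ, p.Prime → (p : ℝ) ≤ (n : ℝ) ^ (1 / (u : ℝ)) → a % p ∉ Z p) →
      (δ * (X * (1 / Real.log n ^ m)) ≤ S.card →
        c * (X * D * (1 / Real.log n ^ m) ^ k) ≤ ((APs k D S).card : ℝ)) ∧
      (δ * (X * D * (1 / Real.log n ^ m) ^ k) ≤ ((APs k D S).card : ℝ) →
        c * (X * (1 / Real.log n ^ m)) ≤ S.card)) := by
  obtain ⟨hok, c₀, C₀, hc₀, hC₀, hV⟩ := hZ
  have hu0 : (0 : ℝ) < u := by exact_mod_cast hu
  obtain ⟨C₁, hC₁d⟩ : ∃ C₁ : ℝ, C₁ = C₀ * (2 * u / θ) ^ m := ⟨_, rfl⟩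
  have hC₁ : 0 < C₁ := by rw [hC₁d]; positivity
  -- common facts
  have key : ∀ X₀ : ℕ, ∃ n₃ : ℕ, ∀ n : ℕ, n₃ ≤ n → ∀ X : ℕ, (n : ℝ) ^ θ ≤ X → X ≤ n →
      X₀ ≤ X ∧ OK r (1 / (u : ℝ)) X Z ∧
      (∀ a : ℕ, (∀ p : ℕ, p.Prime → (p : ℝ) ≤ (n : ℝ) ^ (1 / (u : ℝ)) → a % p ∉ Z p) →
        Av (1 / (u : ℝ)) X Z a) ∧
      VV Z 0 ⌊(X : ℝ) ^ (1 / (u : ℝ))⌋₊ ≤ C₁ * (1 / Real.log n ^ m) ∧
      c₀ * (1 / Real.log n ^ m) ≤ VV Z 0 ⌊(X : ℝ) ^ (1 / (u : ℝ))⌋₊ ∧ 0 < Real.log n ∧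
      ∀ B : ℕ, ∀ D : ℕ, Real.log n ^ B ≤ D → Real.log X ^ B ≤ D := by
    intro X₀
    have h2 := ((tendsto_rpow_atTop hθ).comp (tendsto_natCast_atTop_atTop (R := ℝ))).eventually
      (eventually_ge_atTop (X₀ : ℝ))
    rw [eventually_atTop] at h2
    obtain ⟨n₄, hn₄⟩ := h2
    obtain ⟨n₅, hn₅⟩ := log_floor u hu
    have h6 := ((tendsto_rpow_atTop hθ).comp (tendsto_natCast_atTop_atTop (R := ℝ))).eventually
      (eventually_ge_atTop (n₅ : ℝ))
    rw [eventually_atTop] at h6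
    obtain ⟨n₆, hn₆⟩ := h6
    refine ⟨max (max n₄ n₆) 3, ?_⟩
    intro n hn X hX hXn
    have hnn₄ : n₄ ≤ n := (le_max_left _ _).trans ((le_max_left _ _).trans hn)
    have hnn₆ : n₆ ≤ n := (le_max_right _ _).trans ((le_max_left _ _).trans hn)
    have hn3 : 3 ≤ n := (le_max_right _ _).trans hn
    have hn0 : (0 : ℝ) < n := by exact_mod_cast (show 0 < n by omega)
    have hn1 : (1 : ℝ) ≤ n := by exact_mod_cast (show 1 ≤ n by omega)
    have h3 : (X₀ : ℝ) ≤ (n : ℝ) ^ θ := hn₄ n hnn₄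
    have hX₀ : X₀ ≤ X := by exact_mod_cast h3.trans hX
    have h3' : (n₅ : ℝ) ≤ (n : ℝ) ^ θ := hn₆ n hnn₆
    have hX₅ : n₅ ≤ X := by exact_mod_cast h3'.trans hX
    have hnθ1 : 1 ≤ (n : ℝ) ^ θ := Real.one_le_rpow hn1 hθ.le
    have hX1 : (1 : ℝ) ≤ X := hnθ1.trans hX
    have hX0 : (0 : ℝ) < X := by linarith
    have hXnr : (X : ℝ) ≤ n := by exact_mod_cast hXn
    have hκ : (X : ℝ) ^ (1 / (u : ℝ)) ≤ (n : ℝ) ^ (1 / (u : ℝ)) :=
      Real.rpow_le_rpow hX0.le hXnr (by positivity)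
    obtain ⟨f1, f2⟩ := hn₅ X hX₅
    obtain ⟨v1, v2⟩ := hV _ f1
    have hln : 1 ≤ Real.log n := log_one hn3
    have hlY0 : 0 < Real.log (⌊(X : ℝ) ^ (1 / (u : ℝ))⌋₊ : ℕ) :=
      Real.log_pos (by exact_mod_cast (show 1 < ⌊(X : ℝ) ^ (1 / (u : ℝ))⌋₊ by omega))
    have hYX : ((⌊(X : ℝ) ^ (1 / (u : ℝ))⌋₊ : ℕ) : ℝ) ≤ n := by
      refine (Nat.floor_le (by positivity)).trans (hκ.trans ?_)
      calc (n : ℝ) ^ (1 / (u : ℝ)) ≤ (n : ℝ) ^ (1 : ℝ) := by
            apply Real.rpow_le_rpow_of_exponent_le hn1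
            rw [div_le_one hu0]
            exact_mod_cast hu
        _ = n := Real.rpow_one _
    have hlYn : Real.log (⌊(X : ℝ) ^ (1 / (u : ℝ))⌋₊ : ℕ) ≤ Real.log n :=
      Real.log_le_log (by exact_mod_cast (show 0 < ⌊(X : ℝ) ^ (1 / (u : ℝ))⌋₊ by omega)) hYX
    have hlX : θ * Real.log n ≤ Real.log X := by
      rw [← Real.log_rpow hn0]
      exact Real.log_le_log (by positivity) hX
    have hlY : θ / (2 * u) * Real.log n ≤ Real.log (⌊(X : ℝ) ^ (1 / (u : ℝ))⌋₊ : ℕ) := by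
      refine le_trans ?_ f2
      rw [div_mul_eq_mul_div]
      exact div_le_div_of_nonneg_right hlX (by positivity)
    refine ⟨hX₀, fun p hp _ => hok p hp, ?_, ?_, ?_, by linarith, ?_⟩
    · intro a ha p hp hpX
      exact ha p hp (hpX.trans hκ)
    · refine v2.trans ?_
      rw [hC₁d, mul_one_div, div_le_div_iff₀ (by positivity) (by positivity)]
      have h7 := pow_le_pow_left₀ (by positivity) hlY m
      rw [mul_pow] at h7
      calc C₀ * Real.log n ^ m = C₀ * (2 * u / θ) ^ m * ((θ / (2 * u)) ^ m * Real.log n ^ m) := by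
            rw [← mul_assoc, mul_assoc C₀, ← mul_pow]
            have : 2 * (u : ℝ) / θ * (θ / (2 * u)) = 1 := by field_simp
            rw [this, one_pow, mul_one]
        _ ≤ _ := mul_le_mul_of_nonneg_left h7 (by positivity)
    · refine le_trans ?_ v1
      rw [mul_one_div]
      apply div_le_div_of_nonneg_left hc₀.le (by positivity)
      exact pow_le_pow_left₀ hlY0.le hlYn m
    · intro B D hD
      exact (pow_le_pow_left₀ (Real.log_nonneg hX1) (Real.log_le_log hX0 hXnr) B).trans hD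
  constructor
  · obtain ⟨C, hC, B, X₀, h0⟩ := upa_all r k (1 / (u : ℝ)) hk (by positivity)
    obtain ⟨n₃, hn₃⟩ := key X₀
    refine ⟨C * C₁ ^ k, by positivity, B, n₃, ?_⟩
    intro n hn y X D hX hXn hD S hS hR
    obtain ⟨k1, k3, k4, k5, k6, k7, k8⟩ := hn₃ n hn X hX hXn
    have h1 := h0 X y D k1 (k8 B D hD) Z k3 S hS (fun a ha => k4 a (hR a ha))
    have h2 : 0 ≤ VV Z 0 ⌊(X : ℝ) ^ (1 / (u : ℝ))⌋₊ := le_trans (by positivity) k6
    have h3 := pow_le_pow_left₀ h2 k5 k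
    calc ((APs k D S).card : ℝ) ≤ C * X * D * VV Z 0 ⌊(X : ℝ) ^ (1 / (u : ℝ))⌋₊ ^ k := h1
      _ ≤ C * X * D * (C₁ * (1 / Real.log n ^ m)) ^ k := mul_le_mul_of_nonneg_left h3 (by positivity)
      _ = C * C₁ ^ k * (X * D * (1 / Real.log n ^ m) ^ k) := by rw [mul_pow]; ring
  · intro δ hδ
    obtain ⟨ca, hca, Ba, Xa, ha⟩ := cnt_all r k (1 / (u : ℝ)) (δ / C₁) hk (by positivity) (by positivity)
    obtain ⟨cb, hcb, Bb, Xb, hb⟩ := conv_all r k (1 / (u : ℝ)) (δ / C₁ ^ k) hk (by positivity) (by positivity)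
    obtain ⟨n₃, hn₃⟩ := key (max Xa Xb)
    refine ⟨min (ca * c₀ ^ k) (cb * c₀), lt_min (by positivity) (by positivity), max Ba Bb, max n₃ 3, ?_⟩
    intro n hn y X D hX hXn hD hDX S hS hR
    obtain ⟨k1, k3, k4, k5, k6, k7, k8⟩ := hn₃ n ((le_max_left _ _).trans hn) X hX hXn
    have hlog1 : 1 ≤ Real.log n := log_one ((le_max_right _ _).trans hn)
    have hDa : Real.log X ^ Ba ≤ D := k8 Ba D ((pow_le_pow_right₀ hlog1 (le_max_left _ _)).trans hD)
    have hDb : Real.log X ^ Bb ≤ D := k8 Bb D ((pow_le_pow_right₀ hlog1 (le_max_right _ _)).trans hD)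
    have h2 : 0 ≤ VV Z 0 ⌊(X : ℝ) ^ (1 / (u : ℝ))⌋₊ := le_trans (by positivity) k6
    have hX0 : (0 : ℝ) ≤ X := Nat.cast_nonneg X
    constructor
    · intro h3
      have h4 := ha X y D ((le_max_left _ _).trans k1) hDa hDX Z k3 S hS
        (fun a ha => k4 a (hR a ha)) (by
          refine le_trans ?_ h3
          calc δ / C₁ * X * VV Z 0 ⌊(X : ℝ) ^ (1 / (u : ℝ))⌋₊ ≤ δ / C₁ * X * (C₁ * (1 / Real.log n ^ m)) :=
                mul_le_mul_of_nonneg_left k5 (by positivity)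
            _ = δ * (X * (1 / Real.log n ^ m)) := by field_simp)
      refine le_trans ?_ h4
      have h5 := pow_le_pow_left₀ (show 0 ≤ c₀ * (1 / Real.log n ^ m) by positivity) k6 k
      calc min (ca * c₀ ^ k) (cb * c₀) * (X * D * (1 / Real.log n ^ m) ^ k)
          ≤ ca * c₀ ^ k * (X * D * (1 / Real.log n ^ m) ^ k) :=
            mul_le_mul_of_nonneg_right (min_le_left _ _) (by positivity)
        _ = ca * X * D * (c₀ * (1 / Real.log n ^ m)) ^ k := by rw [mul_pow]; ring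
        _ ≤ _ := mul_le_mul_of_nonneg_left h5 (by positivity)
    · intro h3
      have h6 := pow_le_pow_left₀ h2 k5 k
      have h4 := hb X y D ((le_max_right _ _).trans k1) hDb Z k3 S hS
        (fun a ha => k4 a (hR a ha)) (by
          refine le_trans ?_ h3
          calc δ / C₁ ^ k * X * D * VV Z 0 ⌊(X : ℝ) ^ (1 / (u : ℝ))⌋₊ ^ k
              ≤ δ / C₁ ^ k * X * D * (C₁ * (1 / Real.log n ^ m)) ^ k :=
                mul_le_mul_of_nonneg_left h6 (by positivity)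
            _ = δ * (X * D * (1 / Real.log n ^ m) ^ k) := by rw [mul_pow]; field_simp)
      refine le_trans ?_ h4
      calc min (ca * c₀ ^ k) (cb * c₀) * (X * (1 / Real.log n ^ m)) ≤ cb * c₀ * (X * (1 / Real.log n ^ m)) :=
            mul_le_mul_of_nonneg_right (min_le_right _ _) (by positivity)
        _ = cb * X * (c₀ * (1 / Real.log n ^ m)) := by ring
        _ ≤ _ := mul_le_mul_of_nonneg_left k6 (by positivity)

/-- **windows, roughness in terms of the element** -/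
theorem fixedR {r m : ℕ} {Z : ℕ → Finset ℕ} (hZ : FC r m Z) (k u : ℕ) (hk : 1 ≤ k) (hu : 1 ≤ u)
    {θ : ℝ} (hθ : 0 < θ) :
    (∃ C : ℝ, 0 < C ∧ ∃ B n₀ : ℕ, ∀ n : ℕ, n₀ ≤ n → ∀ y X D : ℕ, (n : ℝ) ^ θ ≤ X → y + X ≤ n →
      Real.log n ^ B ≤ D → ∀ S : Finset ℕ, S ⊆ Ioc y (y + X) →
      (∀ a ∈ S, ∀ p : ℕ, p.Prime → (p : ℝ) ≤ (a : ℝ) ^ (1 / (u : ℝ)) → a % p ∉ Z p) →
      ((APs k D S).card : ℝ) ≤ C * (X * D * (1 / Real.log n ^ m) ^ k)) ∧
    (∀ δ : ℝ, 0 < δ → ∃ c : ℝ, 0 < c ∧ ∃ B n₀ : ℕ, ∀ n : ℕ, n₀ ≤ n → ∀ y X D : ℕ,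
      (n : ℝ) ^ θ ≤ X → y + X ≤ n → Real.log n ^ B ≤ D → D ≤ X → ∀ S : Finset ℕ, S ⊆ Ioc y (y + X) →
      (∀ a ∈ S, ∀ p : ℕ, p.Prime → (p : ℝ) ≤ (a : ℝ) ^ (1 / (u : ℝ)) → a % p ∉ Z p) →
      (δ * (X * (1 / Real.log n ^ m)) ≤ S.card →
        c * (X * D * (1 / Real.log n ^ m) ^ k) ≤ ((APs k D S).card : ℝ)) ∧
      (δ * (X * D * (1 / Real.log n ^ m) ^ k) ≤ ((APs k D S).card : ℝ) →
        c * (X * (1 / Real.log n ^ m)) ≤ S.card)) := by
  classical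
  have hu0 : (0 : ℝ) < u := by exact_mod_cast hu
  set u' := max 1 ⌈2 * (u : ℝ) / θ⌉₊ with hu'
  have hu1 : 1 ≤ u' := le_max_left _ _
  have hu'0 : (0 : ℝ) < u' := by exact_mod_cast hu1
  have hu2 : 2 * (u : ℝ) / θ ≤ u' := (Nat.le_ceil _).trans (Nat.cast_le.2 (le_max_right _ _))
  -- the small part
  have hsmall : ∀ η : ℝ, 0 < η → ∃ n₀ : ℕ, ∀ n : ℕ, n₀ ≤ n → ∀ y X : ℕ, (n : ℝ) ^ θ ≤ X → y + X ≤ n →
      ∀ S : Finset ℕ, S ⊆ Ioc y (y + X) →
      (∀ a ∈ S, ∀ p : ℕ, p.Prime → (p : ℝ) ≤ (a : ℝ) ^ (1 / (u : ℝ)) → a % p ∉ Z p) →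
      ∃ S₁ S₂ : Finset ℕ, S₁ ⊆ S ∧ S ⊆ S₁ ∪ S₂ ∧
        (∀ a ∈ S₁, ∀ p : ℕ, p.Prime → (p : ℝ) ≤ (n : ℝ) ^ (1 / (u' : ℝ)) → a % p ∉ Z p) ∧
        (S₂.card : ℝ) ≤ η * (X * (1 / Real.log n ^ m)) ∧
        ((k * S₂.card : ℕ) : ℝ) ≤ η * (X * (1 / Real.log n ^ m) ^ k) := by
    intro η hη
    have hlit : ∀ᶠ x : ℝ in atTop,
        (k + 1) * (4 * x ^ (θ / 2)) * Real.log x ^ ((m + 1) * (k + 1)) ≤ η * x ^ θ := by
      have h0 : 0 < θ / (4 * ((m + 1) * (k + 1) : ℕ)) := by positivity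
      have h1 := (isLittleO_log_rpow_atTop h0).bound (show (0 : ℝ) < 1 by norm_num)
      have h2 := (tendsto_rpow_atTop (show 0 < θ / 4 by positivity)).eventually
        (eventually_ge_atTop (4 * (k + 1) / η))
      filter_upwards [h1, h2, eventually_ge_atTop 1] with x hx1 hx2 hx3
      have hx0 : 0 < x := by linarith
      have hl0 : 0 ≤ Real.log x := Real.log_nonneg hx3
      rw [one_mul, Real.norm_of_nonneg hl0, Real.norm_of_nonneg (by positivity)] at hx1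
      have e1 : Real.log x ^ ((m + 1) * (k + 1)) ≤ x ^ (θ / 4) := by
        calc Real.log x ^ ((m + 1) * (k + 1)) ≤
              (x ^ (θ / (4 * ((m + 1) * (k + 1) : ℕ)))) ^ ((m + 1) * (k + 1)) :=
              pow_le_pow_left₀ hl0 hx1 _
          _ = x ^ (θ / 4) := by
              rw [← Real.rpow_natCast, ← Real.rpow_mul hx0.le]
              congr 1
              have : (((m + 1) * (k + 1) : ℕ) : ℝ) ≠ 0 := by positivity
              field_simp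
      rw [div_le_iff₀ hη] at hx2
      calc (k + 1) * (4 * x ^ (θ / 2)) * Real.log x ^ ((m + 1) * (k + 1))
          ≤ (k + 1) * (4 * x ^ (θ / 2)) * x ^ (θ / 4) := mul_le_mul_of_nonneg_left e1 (by positivity)
        _ = (4 * (k + 1)) * (x ^ (θ / 2) * x ^ (θ / 4)) := by ring
        _ ≤ (x ^ (θ / 4) * η) * (x ^ (θ / 2) * x ^ (θ / 4)) :=
            mul_le_mul_of_nonneg_right hx2 (by positivity)
        _ = η * (x ^ (θ / 4) * x ^ (θ / 2) * x ^ (θ / 4)) := by ring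
        _ = η * x ^ θ := by
            rw [← Real.rpow_add hx0, ← Real.rpow_add hx0]
            congr 2
            ring
    have hlit' := (tendsto_natCast_atTop_atTop (R := ℝ)).eventually hlit
    rw [eventually_atTop] at hlit'
    obtain ⟨n₂, hn₂⟩ := hlit'
    refine ⟨max n₂ 3, ?_⟩
    intro n hn y X hX hXn S hS hSp
    have hnn₂ : n₂ ≤ n := (le_max_left _ _).trans hn
    have hn3 : 3 ≤ n := (le_max_right _ _).trans hn
    have hn0 : (0 : ℝ) < n := by exact_mod_cast (show 0 < n by omega)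
    have hn1 : (1 : ℝ) ≤ n := by exact_mod_cast (show 1 ≤ n by omega)
    have hlog1 : 1 ≤ Real.log n := log_one hn3
    set w := (n : ℝ) ^ (θ / 2) with hw
    have hw0 : 0 ≤ w := by positivity
    have hw1 : 1 ≤ w := Real.one_le_rpow hn1 (by positivity)
    set S₁ := S.filter (fun p : ℕ => w < (p : ℝ)) with hS₁
    set S₂ := S.filter (fun p : ℕ => ¬ w < (p : ℝ)) with hS₂
    have hcard : (S₂.card : ℝ) ≤ 4 * (n : ℝ) ^ (θ / 2) := by
      have h1 : S₂ ⊆ range (⌊w⌋₊ + 1) := by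
        intro p hp
        rw [hS₂, mem_filter] at hp
        rw [mem_range]
        exact Nat.lt_succ_of_le (Nat.le_floor (not_lt.1 hp.2))
      have h2 := card_le_card h1
      rw [card_range] at h2
      have h3 : (S₂.card : ℝ) ≤ ⌊w⌋₊ + 1 := by exact_mod_cast h2
      have h4 := Nat.floor_le hw0
      linarith
    have hmain := hn₂ n hnn₂
    have hpow : ∀ j : ℕ, j ≤ k + 1 → (k + 1) * (S₂.card : ℝ) ≤ η * (X * (1 / Real.log n ^ m) ^ j) := by
      intro j hj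
      have h2 : (1 / Real.log (n : ℝ) ^ m) ^ j = 1 / Real.log n ^ (m * j) := by
        rw [div_pow, one_pow, ← pow_mul]
      have h3 : 1 / Real.log (n : ℝ) ^ ((m + 1) * (k + 1)) ≤ 1 / Real.log n ^ (m * j) := by
        apply one_div_le_one_div_of_le (by positivity)
        apply pow_le_pow_right₀ hlog1
        exact Nat.mul_le_mul (by omega) hj
      have h4 : 1 / Real.log (n : ℝ) ^ ((m + 1) * (k + 1)) ≤ (1 / Real.log (n : ℝ) ^ m) ^ j := by
        rw [h2]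
        exact h3
      have h5 : (k + 1) * (S₂.card : ℝ) ≤ (k + 1) * (4 * (n : ℝ) ^ (θ / 2)) :=
        mul_le_mul_of_nonneg_left hcard (by positivity)
      have h6 : (k + 1) * (4 * (n : ℝ) ^ (θ / 2)) ≤
          η * (n : ℝ) ^ θ * (1 / Real.log n ^ ((m + 1) * (k + 1))) := by
        rw [mul_one_div, le_div_iff₀ (by positivity)]
        exact hmain
      calc (k + 1) * (S₂.card : ℝ) ≤ η * (n : ℝ) ^ θ * (1 / Real.log n ^ ((m + 1) * (k + 1))) :=
            h5.trans h6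
        _ ≤ η * X * (1 / Real.log n ^ ((m + 1) * (k + 1))) := by
            apply mul_le_mul_of_nonneg_right _ (by positivity)
            exact mul_le_mul_of_nonneg_left hX hη.le
        _ ≤ η * X * (1 / Real.log (n : ℝ) ^ m) ^ j := mul_le_mul_of_nonneg_left h4 (by positivity)
        _ = η * (X * (1 / Real.log (n : ℝ) ^ m) ^ j) := by ring
    refine ⟨S₁, S₂, filter_subset _ _, ?_, ?_, ?_, ?_⟩
    · intro p hp
      rw [mem_union, hS₁, hS₂, mem_filter, mem_filter]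
      by_cases h3 : w < (p : ℝ)
      · exact Or.inl ⟨hp, h3⟩
      · exact Or.inr ⟨hp, h3⟩
    · intro a ha p hp hpn
      rw [hS₁, mem_filter] at ha
      refine hSp a ha.1 p hp (hpn.trans ?_)
      calc (n : ℝ) ^ (1 / (u' : ℝ)) ≤ (n : ℝ) ^ (θ / 2 * (1 / (u : ℝ))) := by
            apply Real.rpow_le_rpow_of_exponent_le hn1
            rw [mul_one_div, div_div, div_le_div_iff₀ hu'0 (by positivity)]
            rw [div_le_iff₀ hθ] at hu2
            linarith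
        _ = w ^ (1 / (u : ℝ)) := by rw [hw, ← Real.rpow_mul hn0.le]
        _ ≤ (a : ℝ) ^ (1 / (u : ℝ)) := Real.rpow_le_rpow hw0 ha.2.le (by positivity)
    · have h1 := hpow 1 (by omega)
      rw [pow_one] at h1
      have h2 : (0 : ℝ) ≤ S₂.card := Nat.cast_nonneg _
      have h3 : (0 : ℝ) ≤ k * S₂.card := by positivity
      linarith
    · have h1 := hpow k (by omega)
      push_cast
      have h2 : (0 : ℝ) ≤ S₂.card := Nat.cast_nonneg _
      linarith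
  obtain ⟨⟨C, hC, B, n₁, h1⟩, hdn⟩ := fixed hZ k u' hk hu1 hθ
  constructor
  · obtain ⟨n₂, h2⟩ := hsmall 1 one_pos
    refine ⟨C + 1, by positivity, B, max n₁ n₂, ?_⟩
    intro n hn y X D hX hXn hD S hS hR
    obtain ⟨S₁, S₂, s1, s2, s3, s4, s5⟩ := h2 n ((le_max_right _ _).trans hn) y X hX hXn S hS hR
    have h3 := h1 n ((le_max_left _ _).trans hn) y X D hX (by omega) hD S₁ (s1.trans hS) s3
    have h4 : ((APs k D S).card : ℝ) ≤ (APs k D S₁).card + ((k * S₂.card : ℕ) : ℝ) * D := by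
      have := APs_split hk (D := D) s2
      rw [← mul_assoc] at this
      exact_mod_cast this
    have h5 : ((k * S₂.card : ℕ) : ℝ) * D ≤ 1 * (X * (1 / Real.log n ^ m) ^ k) * D :=
      mul_le_mul_of_nonneg_right s5 (Nat.cast_nonneg _)
    calc ((APs k D S).card : ℝ) ≤
          C * (X * D * (1 / Real.log n ^ m) ^ k) + 1 * (X * (1 / Real.log n ^ m) ^ k) * D := by linarith
      _ = (C + 1) * (X * D * (1 / Real.log n ^ m) ^ k) := by ring
  · intro δ hδ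
    obtain ⟨c, hc, B', n₁', h1'⟩ := hdn (δ / 2) (by positivity)
    obtain ⟨n₂, h2⟩ := hsmall (δ / 2) (by positivity)
    refine ⟨c, hc, B', max n₁' n₂, ?_⟩
    intro n hn y X D hX hXn hD hDX S hS hR
    obtain ⟨S₁, S₂, s1, s2, s3, s4, s5⟩ := h2 n ((le_max_right _ _).trans hn) y X hX hXn S hS hR
    obtain ⟨h3, h3'⟩ := h1' n ((le_max_left _ _).trans hn) y X D hX (by omega) hD hDX S₁
      (s1.trans hS) s3
    constructor
    · intro h4
      have h5 : (S.card : ℝ) ≤ S₁.card + S₂.card := by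
        exact_mod_cast (card_le_card s2).trans (card_union_le _ _)
      have h6 := h3 (by linarith)
      refine h6.trans ?_
      exact_mod_cast card_le_card (APs_mono s1)
    · intro h4
      have h5 : ((APs k D S).card : ℝ) ≤ (APs k D S₁).card + ((k * S₂.card : ℕ) : ℝ) * D := by
        have := APs_split hk (D := D) s2
        rw [← mul_assoc] at this
        exact_mod_cast this
      have h6 : ((k * S₂.card : ℕ) : ℝ) * D ≤ δ / 2 * (X * (1 / Real.log n ^ m) ^ k) * D :=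
        mul_le_mul_of_nonneg_right s5 (Nat.cast_nonneg _)
      have h7 : δ / 2 * (X * (1 / Real.log (n : ℝ) ^ m) ^ k) * D =
          δ / 2 * (X * D * (1 / Real.log (n : ℝ) ^ m) ^ k) := by ring
      have h8 := h3' (by linarith)
      refine h8.trans ?_
      exact_mod_cast card_le_card s1

end Pool.Agent.Y843.AC
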