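import Pool.Agent.Y843.AC.HLC

/-!
# The number of progressions in dense subsets of sifted sets: classes which depend on parameters
-/

set_option autoImplicit false

namespace Pool.Agent.Y843.AC.Gn

open Finset Filter
open Pool.Agent.Y843.HS (Pr VV Pr_mem Pr_prime)
open Pool.Agent.Y843.HG (VV_anti)
open Pool.Agent.Y843.AC.HL (log_small log_one)

/-- the classes for the primes up to `x` -/
def Cl (r x : ℕ) (Z : ℕ → Finset ℕ) : Prop :=
  ∀ p : ℕ, p.Prime → p ≤ x → (Z p).card ≤ r ∧ (Z p).card < p ∧ ∀ c ∈ Z p, c < p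

/-- `n` avoids the classes for the primes up to `x ^ (1 / u)` -/
def Ro (u x : ℕ) (Z : ℕ → Finset ℕ) (n : ℕ) : Prop :=
  ∀ p : ℕ, p.Prime → (p : ℝ) ≤ (x : ℝ) ^ (1 / (u : ℝ)) → n % p ∉ Z p

open Classical in
/-- all but `K x ^ (θ / 2)` elements of `S` avoid the classes for the primes up to `x ^ (1 / u)` -/
def Most (K : ℝ) (u : ℕ) (θ : ℝ) (x : ℕ) (Z : ℕ → Finset ℕ) (S : Finset ℕ) : Prop :=
  ((S.filter (fun n => ¬ Ro u x Z n)).card : ℝ) ≤ K * (x : ℝ) ^ (θ / 2)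

theorem V_low (r : ℕ) : ∃ c : ℝ, 0 < c ∧ ∃ x₀ : ℕ, ∀ x : ℕ, x₀ ≤ x → ∀ Z : ℕ → Finset ℕ, Cl r x Z →
    c / Real.log x ^ (2 * r) ≤ VV Z 0 x := by
  obtain ⟨C, hC, hE⟩ := Pool.Agent.Y843.HS.EE_log
  have hC0 : 0 < C := by linarith
  obtain ⟨a, ha⟩ : ∃ a : ℕ, a = 2 * r + 3 := ⟨_, rfl⟩
  have hfac : (0 : ℝ) < ∏ p ∈ Pr 0 a, (1 / (p : ℝ)) := prod_pos fun p hp => by
    have : (0 : ℝ) < p := by exact_mod_cast (Pr_prime hp).pos
    positivity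
  refine ⟨(∏ p ∈ Pr 0 a, (1 / (p : ℝ))) * (1 / C ^ (2 * r)), by positivity, a + 3, ?_⟩
  intro x hx Z hZ
  have hlx : 0 < Real.log x := Real.log_pos (by exact_mod_cast (show 1 < x by omega))
  have h1 := Pool.Agent.Y843.HS.VV_split Z (Nat.zero_le a) (show a ≤ x by omega)
  have h2 : ∏ p ∈ Pr 0 a, (1 / (p : ℝ)) ≤ VV Z 0 a := by
    unfold VV
    apply Finset.prod_le_prod
    · intro p _
      positivity
    · intro p hp
      have h3 := hZ p (Pr_prime hp) (by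
        have := (Pr_mem.1 hp).1.2
        omega)
      have h0 : (0 : ℝ) < p := by exact_mod_cast (Pr_prime hp).pos
      have h4 : ((Z p).card : ℝ) + 1 ≤ p := by exact_mod_cast h3.2.1
      rw [le_sub_iff_add_le, ← add_div, div_le_one h0]
      linarith
  have h3 := Pool.Agent.Y843.HS.VV_ge (r := r) (a := a) (b := x) (Z := Z) (by omega) (by
    intro p hp
    have h3 := hZ p (Pr_prime hp) (Pr_mem.1 hp).1.2
    exact ⟨h3.1, h3.2.2⟩)
  have hE0 : 0 < Pool.Agent.Y843.HS.EE a x := Real.exp_pos _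
  have h4 : 1 / (C * Real.log x) ^ (2 * r) ≤ VV Z a x := by
    refine le_trans ?_ h3
    apply one_div_le_one_div_of_le (by positivity)
    exact pow_le_pow_left₀ hE0.le (hE a x (by omega) (by omega)) _
  rw [← h1]
  calc (∏ p ∈ Pr 0 a, (1 / (p : ℝ))) * (1 / C ^ (2 * r)) / Real.log x ^ (2 * r)
      = (∏ p ∈ Pr 0 a, (1 / (p : ℝ))) * (1 / (C * Real.log x) ^ (2 * r)) := by
        rw [mul_pow]
        field_simp
    _ ≤ _ := mul_le_mul h2 h4 (by positivity) (hfac.le.trans h2)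

theorem V_up (r u : ℕ) (hu : 1 ≤ u) : ∃ C : ℝ, 0 < C ∧ ∃ x₀ : ℕ, ∀ x : ℕ, x₀ ≤ x →
    ∀ Z : ℕ → Finset ℕ, Cl r x Z → VV Z 0 ⌊(x : ℝ) ^ (1 / (u : ℝ))⌋₊ ≤ C * VV Z 0 x := by
  obtain ⟨c₂, hc₂, R₀, h2⟩ := Pool.Agent.Y79.HS.den r (2 * u)
  have hu0 : (0 : ℝ) < u := by exact_mod_cast hu
  have e := ((tendsto_rpow_atTop (show (0 : ℝ) < 1 / u by positivity)).comp
    (tendsto_natCast_atTop_atTop (R := ℝ))).eventually (eventually_ge_atTop ((R₀ : ℝ) + 4))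
  rw [eventually_atTop] at e
  obtain ⟨x₂, h3⟩ := e
  refine ⟨1 / c₂, by positivity, max x₂ 3, ?_⟩
  intro x hx Z hZ
  have hx2 : x₂ ≤ x := (le_max_left _ _).trans hx
  have hx3 : 3 ≤ x := (le_max_right _ _).trans hx
  have hxr : (1 : ℝ) ≤ x := by exact_mod_cast (show 1 ≤ x by omega)
  have h4 : (R₀ : ℝ) + 4 ≤ (x : ℝ) ^ (1 / (u : ℝ)) := h3 x hx2
  obtain ⟨w, hw⟩ : ∃ w : ℝ, w = (x : ℝ) ^ (1 / (u : ℝ)) := ⟨_, rfl⟩
  rw [← hw] at h4 ⊢
  have hR0 : (0 : ℝ) ≤ R₀ := Nat.cast_nonneg _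
  have hw4 : 4 ≤ w := by linarith
  have hwu : w ^ u = x := by
    rw [hw, ← Real.rpow_natCast, ← Real.rpow_mul (by positivity), one_div, inv_mul_cancel₀ hu0.ne', Real.rpow_one]
  have hY : w / 2 ≤ (⌊w⌋₊ : ℝ) := by
    have := Nat.lt_floor_add_one w
    linarith
  have hYR : R₀ ≤ ⌊w⌋₊ := Nat.le_floor (by linarith)
  have hYx : ⌊w⌋₊ ≤ x := by
    have h5 : w ≤ x := by
      rw [← hwu]
      exact le_self_pow₀ (by linarith) (by omega)
    have := Nat.floor_le_floor h5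
    rwa [Nat.floor_natCast] at this
  have hpow : x ≤ ⌊w⌋₊ ^ (2 * u) := by
    have h5 : (x : ℝ) ≤ (⌊w⌋₊ : ℝ) ^ (2 * u) := by
      calc (x : ℝ) = w ^ u := hwu.symm
        _ ≤ ((w / 2) ^ 2) ^ u := by
            apply pow_le_pow_left₀ (by linarith)
            nlinarith
        _ = (w / 2) ^ (2 * u) := by rw [pow_mul]
        _ ≤ _ := pow_le_pow_left₀ (by linarith) hY _
    exact_mod_cast h5
  have h5 : c₂ ≤ VV Z ⌊w⌋₊ x := h2 ⌊w⌋₊ x hYR hpow Z (fun p hp => by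
    have := hZ p (Pr_prime hp) (Pr_mem.1 hp).1.2
    exact ⟨this.1, this.2.2⟩)
  have h6 := Pool.Agent.Y843.HS.VV_split Z (Nat.zero_le ⌊w⌋₊) hYx
  have h8 : 0 ≤ VV Z 0 ⌊w⌋₊ := by
    unfold VV
    apply prod_nonneg
    intro p hp
    have h9 := hZ p (Pr_prime hp) ((Pr_mem.1 hp).1.2.trans hYx)
    have h10 : (0 : ℝ) < p := by exact_mod_cast (Pr_prime hp).pos
    rw [sub_nonneg, div_le_one h10]
    exact_mod_cast h9.2.1.le
  rw [div_mul_eq_mul_div, one_mul, le_div_iff₀ hc₂]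
  calc VV Z 0 ⌊w⌋₊ * c₂ ≤ VV Z 0 ⌊w⌋₊ * VV Z ⌊w⌋₊ x := mul_le_mul_of_nonneg_left h5 h8
    _ = VV Z 0 x := h6

/-- **rough sets in windows** -/
theorem core (r k u : ℕ) (hk : 1 ≤ k) (hu : 1 ≤ u) {θ : ℝ} (hθ : 0 < θ) :
    (∃ C : ℝ, 0 < C ∧ ∃ B x₀ : ℕ, ∀ x : ℕ, x₀ ≤ x → ∀ Z : ℕ → Finset ℕ, Cl r x Z → ∀ y X D : ℕ,
      (x : ℝ) ^ θ ≤ X → X ≤ x →
      Real.log x ^ B ≤ D → ∀ S : Finset ℕ, S ⊆ Ioc y (y + X) → (∀ m ∈ S, Ro u x Z m) →
      ((APs k D S).card : ℝ) ≤ C * (X * D * VV Z 0 x ^ k)) ∧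
    (∀ δ : ℝ, 0 < δ → ∃ c : ℝ, 0 < c ∧ ∃ B x₀ : ℕ, ∀ x : ℕ, x₀ ≤ x → ∀ Z : ℕ → Finset ℕ, Cl r x Z →
      ∀ y X D : ℕ,
      (x : ℝ) ^ θ ≤ X → X ≤ x → Real.log x ^ B ≤ D → D ≤ X → ∀ S : Finset ℕ, S ⊆ Ioc y (y + X) →
      (∀ m ∈ S, Ro u x Z m) →
      (δ * (X * VV Z 0 x) ≤ S.card → c * (X * D * VV Z 0 x ^ k) ≤ ((APs k D S).card : ℝ)) ∧
      (δ * (X * D * VV Z 0 x ^ k) ≤ ((APs k D S).card : ℝ) → c * (X * VV Z 0 x) ≤ S.card)) := by
  have hu0 : (0 : ℝ) < u := by exact_mod_cast hu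
  set r' := max 1 ⌈(u : ℝ) / θ⌉₊ with hr'
  have hr'0 : (0 : ℝ) < r' := by exact_mod_cast (show 0 < r' by omega)
  have hr'1 : (u : ℝ) / θ ≤ r' := (Nat.le_ceil _).trans (by exact_mod_cast le_max_right _ _)
  obtain ⟨C₁, hC₁, n₁, hn₁⟩ := V_up r r' (le_max_left _ _)
  obtain ⟨c₂, hc₂, n₂, hn₂⟩ := V_low r
  -- common facts
  have key : ∀ X₀ : ℕ, ∃ n₃ : ℕ, ∀ n : ℕ, n₃ ≤ n → ∀ Z : ℕ → Finset ℕ, Cl r n Z → ∀ X : ℕ,
      (n : ℝ) ^ θ ≤ X → X ≤ n →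
      X₀ ≤ X ∧ (1 : ℝ) ≤ X ∧ OK r (1 / (u : ℝ)) X Z ∧
      (∀ m : ℕ, Ro u n Z m → Av (1 / (u : ℝ)) X Z m) ∧
      VV Z 0 ⌊(X : ℝ) ^ (1 / (u : ℝ))⌋₊ ≤ C₁ * VV Z 0 n ∧
      VV Z 0 n ≤ VV Z 0 ⌊(X : ℝ) ^ (1 / (u : ℝ))⌋₊ ∧ 0 < VV Z 0 n ∧
      ∀ B : ℕ, ∀ D : ℕ, Real.log n ^ B ≤ D → Real.log X ^ B ≤ D := by
    intro X₀
    have h2 := ((tendsto_rpow_atTop hθ).comp (tendsto_natCast_atTop_atTop (R := ℝ))).eventually
      (eventually_ge_atTop (X₀ : ℝ))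
    rw [eventually_atTop] at h2
    obtain ⟨n₄, hn₄⟩ := h2
    refine ⟨max (max n₁ n₂) (max n₄ 3), ?_⟩
    intro n hn Z hZn X hX hXn
    have hnn₁ : n₁ ≤ n := (le_max_left _ _).trans ((le_max_left _ _).trans hn)
    have hnn₂ : n₂ ≤ n := (le_max_right _ _).trans ((le_max_left _ _).trans hn)
    have hnn₄ : n₄ ≤ n := (le_max_left _ _).trans ((le_max_right _ _).trans hn)
    have hn3 : 3 ≤ n := (le_max_right _ _).trans ((le_max_right _ _).trans hn)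
    have hn0 : (0 : ℝ) < n := by exact_mod_cast (show 0 < n by omega)
    have hn1 : (1 : ℝ) ≤ n := by exact_mod_cast (show 1 ≤ n by omega)
    have hlogn : 0 < Real.log n := Real.log_pos (by exact_mod_cast (show 1 < n by omega))
    have h3 : (X₀ : ℝ) ≤ (n : ℝ) ^ θ := hn₄ n hnn₄
    have hX₀ : X₀ ≤ X := by exact_mod_cast h3.trans hX
    have hnθ1 : 1 ≤ (n : ℝ) ^ θ := Real.one_le_rpow hn1 hθ.le
    have hX1 : (1 : ℝ) ≤ X := hnθ1.trans hX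
    have hX0 : (0 : ℝ) < X := by linarith
    have hXnr : (X : ℝ) ≤ n := by exact_mod_cast hXn
    have hκ : (X : ℝ) ^ (1 / (u : ℝ)) ≤ (n : ℝ) ^ (1 / (u : ℝ)) :=
      Real.rpow_le_rpow hX0.le hXnr (by positivity)
    have h8 : (X : ℝ) ^ (1 / (u : ℝ)) ≤ X := by
      calc (X : ℝ) ^ (1 / (u : ℝ)) ≤ (X : ℝ) ^ (1 : ℝ) := by
            apply Real.rpow_le_rpow_of_exponent_le hX1
            rw [div_le_one hu0]
            exact_mod_cast hu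
        _ = X := Real.rpow_one _
    have hfl : ⌊(X : ℝ) ^ (1 / (u : ℝ))⌋₊ ≤ n := by
      have h9 := Nat.floor_le_floor h8
      rw [Nat.floor_natCast] at h9
      omega
    have hlt : ∀ p ∈ Pr 0 n, ∀ c ∈ Z p, c < p := fun p hp => (hZn p (Pr_prime hp) (Pr_mem.1 hp).1.2).2.2
    refine ⟨hX₀, hX1, ?_, ?_, ?_, VV_anti hfl hlt, ?_, ?_⟩
    · intro p hp hpX
      apply hZn p hp
      have : (p : ℝ) ≤ n := hpX.trans (h8.trans hXnr)
      exact_mod_cast this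
    · intro m hm p hp hpX
      exact hm p hp (hpX.trans hκ)
    · have h6 : (n : ℝ) ^ (1 / (r' : ℝ)) ≤ (X : ℝ) ^ (1 / (u : ℝ)) := by
        calc (n : ℝ) ^ (1 / (r' : ℝ)) ≤ (n : ℝ) ^ (θ * (1 / (u : ℝ))) := by
              apply Real.rpow_le_rpow_of_exponent_le hn1
              rw [mul_one_div, div_le_div_iff₀ hr'0 hu0]
              rw [div_le_iff₀ hθ] at hr'1
              linarith
          _ = ((n : ℝ) ^ θ) ^ (1 / (u : ℝ)) := Real.rpow_mul hn0.le _ _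
          _ ≤ (X : ℝ) ^ (1 / (u : ℝ)) := Real.rpow_le_rpow (by positivity) hX (by positivity)
      have h7 : VV Z 0 ⌊(X : ℝ) ^ (1 / (u : ℝ))⌋₊ ≤ VV Z 0 ⌊(n : ℝ) ^ (1 / (r' : ℝ))⌋₊ := by
        apply VV_anti (Nat.floor_le_floor h6)
        intro p hp
        exact hlt p (Pr_mem.2 ⟨⟨(Pr_mem.1 hp).1.1, (Pr_mem.1 hp).1.2.trans hfl⟩, Pr_prime hp⟩)
      exact h7.trans (hn₁ n hnn₁ Z hZn)
    · exact lt_of_lt_of_le (by positivity) (hn₂ n hnn₂ Z hZn)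
    · intro B D hD
      exact (pow_le_pow_left₀ (Real.log_nonneg hX1) (Real.log_le_log hX0 hXnr) B).trans hD
  constructor
  · obtain ⟨C, hC, B, X₀, h0⟩ := upa_all r k (1 / (u : ℝ)) hk (by positivity)
    obtain ⟨n₃, hn₃⟩ := key X₀
    refine ⟨C * C₁ ^ k, by positivity, B, n₃, ?_⟩
    intro n hn Z hZn y X D hX hXn hD S hS hR
    obtain ⟨k1, k2, k3, k4, k5, k6, k7, k8⟩ := hn₃ n hn Z hZn X hX hXn
    have h1 := h0 X y D k1 (k8 B D hD) Z k3 S hS (fun m hm => k4 m (hR m hm))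
    have h2 : 0 ≤ VV Z 0 ⌊(X : ℝ) ^ (1 / (u : ℝ))⌋₊ := k7.le.trans k6
    have h3 := pow_le_pow_left₀ h2 k5 k
    calc ((APs k D S).card : ℝ) ≤ C * X * D * VV Z 0 ⌊(X : ℝ) ^ (1 / (u : ℝ))⌋₊ ^ k := h1
      _ ≤ C * X * D * (C₁ * VV Z 0 n) ^ k := mul_le_mul_of_nonneg_left h3 (by positivity)
      _ = C * C₁ ^ k * (X * D * VV Z 0 n ^ k) := by rw [mul_pow]; ring
  · intro δ hδ
    obtain ⟨ca, hca, Ba, Xa, ha⟩ := cnt_all r k (1 / (u : ℝ)) (δ / C₁) hk (by positivity) (by positivity)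
    obtain ⟨cb, hcb, Bb, Xb, hb⟩ := conv_all r k (1 / (u : ℝ)) (δ / C₁ ^ k) hk (by positivity) (by positivity)
    obtain ⟨n₃, hn₃⟩ := key (max Xa Xb)
    refine ⟨min ca cb, lt_min hca hcb, max Ba Bb, max n₃ 3, ?_⟩
    intro n hn Z hZn y X D hX hXn hD hDX S hS hR
    obtain ⟨k1, k2, k3, k4, k5, k6, k7, k8⟩ := hn₃ n ((le_max_left _ _).trans hn) Z hZn X hX hXn
    have hlog1 : 1 ≤ Real.log n := log_one ((le_max_right _ _).trans hn)
    have hDa : Real.log X ^ Ba ≤ D := k8 Ba D ((pow_le_pow_right₀ hlog1 (le_max_left _ _)).trans hD)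
    have hDb : Real.log X ^ Bb ≤ D := k8 Bb D ((pow_le_pow_right₀ hlog1 (le_max_right _ _)).trans hD)
    have h2 : 0 ≤ VV Z 0 ⌊(X : ℝ) ^ (1 / (u : ℝ))⌋₊ := k7.le.trans k6
    constructor
    · intro h3
      have h4 := ha X y D ((le_max_left _ _).trans k1) hDa hDX Z k3 S hS
        (fun m hm => k4 m (hR m hm)) (by
          refine le_trans ?_ h3
          calc δ / C₁ * X * VV Z 0 ⌊(X : ℝ) ^ (1 / (u : ℝ))⌋₊ ≤ δ / C₁ * X * (C₁ * VV Z 0 n) :=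
                mul_le_mul_of_nonneg_left k5 (by positivity)
            _ = δ * (X * VV Z 0 n) := by field_simp)
      refine le_trans ?_ h4
      have h5 := pow_le_pow_left₀ k7.le k6 k
      calc min ca cb * (X * D * VV Z 0 n ^ k) ≤ ca * (X * D * VV Z 0 n ^ k) :=
            mul_le_mul_of_nonneg_right (min_le_left _ _) (by positivity)
        _ = ca * X * D * VV Z 0 n ^ k := by ring
        _ ≤ _ := mul_le_mul_of_nonneg_left h5 (by positivity)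
    · intro h3
      have h6 := pow_le_pow_left₀ h2 k5 k
      have h4 := hb X y D ((le_max_right _ _).trans k1) hDb Z k3 S hS
        (fun m hm => k4 m (hR m hm)) (by
          refine le_trans ?_ h3
          calc δ / C₁ ^ k * X * D * VV Z 0 ⌊(X : ℝ) ^ (1 / (u : ℝ))⌋₊ ^ k
              ≤ δ / C₁ ^ k * X * D * (C₁ * VV Z 0 n) ^ k :=
                mul_le_mul_of_nonneg_left h6 (by positivity)
            _ = δ * (X * D * VV Z 0 n ^ k) := by rw [mul_pow]; field_simp)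
      refine le_trans ?_ h4
      calc min ca cb * (X * VV Z 0 n) ≤ cb * (X * VV Z 0 n) :=
            mul_le_mul_of_nonneg_right (min_le_right _ _) (by positivity)
        _ = cb * X * VV Z 0 n := by ring
        _ ≤ _ := mul_le_mul_of_nonneg_left k6 (by positivity)

/-- the exceptional elements are negligible -/
theorem small_part (r k : ℕ) (K : ℝ) {θ : ℝ} (hθ : 0 < θ) (η : ℝ) (hη : 0 < η) :
    ∃ x₀ : ℕ, ∀ x : ℕ, x₀ ≤ x → ∀ Z : ℕ → Finset ℕ, Cl r x Z → ∀ X : ℕ, (x : ℝ) ^ θ ≤ X →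
      ∀ m : ℕ, (m : ℝ) ≤ K * (x : ℝ) ^ (θ / 2) →
      (m : ℝ) ≤ η * (X * VV Z 0 x) ∧ ((k * m : ℕ) : ℝ) ≤ η * (X * VV Z 0 x ^ k) := by
  obtain ⟨c₀, hc₀, n₁, hg⟩ := V_low r
  set c₁ := min c₀ 1 with hc₁
  have hc₁0 : 0 < c₁ := lt_min hc₀ one_pos
  have hc₁1 : c₁ ≤ 1 := min_le_right _ _
  obtain ⟨n₂, hn₂⟩ := log_small ((k + 1) * K / (η * c₁ ^ (k + 1))) (2 * r * (k + 1))
    (show 0 < θ / 2 by positivity)
  refine ⟨max (max n₁ n₂) 3, ?_⟩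
  intro n hn Z hZ X hX m hcard
  have hnn₁ : n₁ ≤ n := (le_max_left _ _).trans ((le_max_left _ _).trans hn)
  have hnn₂ : n₂ ≤ n := (le_max_right _ _).trans ((le_max_left _ _).trans hn)
  have hn3 : 3 ≤ n := (le_max_right _ _).trans hn
  have hn0 : (0 : ℝ) < n := by exact_mod_cast (show 0 < n by omega)
  have hlog1 := log_one hn3
  have hgg := hg n hnn₁ Z hZ
  have hmain := hn₂ n hnn₂
  have hm0 : (0 : ℝ) ≤ m := Nat.cast_nonneg _
  have hpow : ∀ j : ℕ, j ≤ k + 1 → (k + 1) * (m : ℝ) ≤ η * (X * VV Z 0 n ^ j) := by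
    intro j hj
    have hq0 : 0 < c₁ / Real.log (n : ℝ) ^ (2 * r) := by positivity
    have hq1 : c₁ / Real.log (n : ℝ) ^ (2 * r) ≤ 1 := by
      rw [div_le_one (by positivity)]
      exact hc₁1.trans (one_le_pow₀ hlog1)
    have h1 : (c₁ / Real.log n ^ (2 * r)) ^ j ≤ VV Z 0 n ^ j := by
      apply pow_le_pow_left₀ hq0.le
      refine le_trans ?_ hgg
      exact div_le_div_of_nonneg_right (min_le_left _ _) (by positivity)
    have h4 : (c₁ / Real.log n ^ (2 * r)) ^ (k + 1) ≤ VV Z 0 n ^ j :=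
      (pow_le_pow_of_le_one hq0.le hq1 hj).trans h1
    have h5 : (k + 1) * (m : ℝ) ≤ (k + 1) * (K * (n : ℝ) ^ (θ / 2)) :=
      mul_le_mul_of_nonneg_left hcard (by positivity)
    have h6 : (k + 1) * (K * (n : ℝ) ^ (θ / 2)) ≤ η * (n : ℝ) ^ θ * (c₁ / Real.log n ^ (2 * r)) ^ (k + 1) := by
      rw [div_pow, ← pow_mul, ← mul_div_assoc, le_div_iff₀ (by positivity)]
      have h7 : (n : ℝ) ^ θ = (n : ℝ) ^ (θ / 2) * (n : ℝ) ^ (θ / 2) := by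
        rw [← Real.rpow_add hn0]
        congr 1
        ring
      rw [div_mul_eq_mul_div, div_le_iff₀ (by positivity)] at hmain
      calc (k + 1) * (K * (n : ℝ) ^ (θ / 2)) * Real.log n ^ (2 * r * (k + 1))
          = (n : ℝ) ^ (θ / 2) * ((k + 1) * K * Real.log n ^ (2 * r * (k + 1))) := by ring
        _ ≤ (n : ℝ) ^ (θ / 2) * ((n : ℝ) ^ (θ / 2) * (η * c₁ ^ (k + 1))) :=
            mul_le_mul_of_nonneg_left hmain (by positivity)
        _ = η * (n : ℝ) ^ θ * c₁ ^ (k + 1) := by rw [h7]; ring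
    calc (k + 1) * (m : ℝ) ≤ η * (n : ℝ) ^ θ * (c₁ / Real.log n ^ (2 * r)) ^ (k + 1) := h5.trans h6
      _ ≤ η * X * (c₁ / Real.log n ^ (2 * r)) ^ (k + 1) := by
          apply mul_le_mul_of_nonneg_right _ (by positivity)
          exact mul_le_mul_of_nonneg_left hX hη.le
      _ ≤ η * X * VV Z 0 n ^ j := mul_le_mul_of_nonneg_left h4 (by positivity)
      _ = η * (X * VV Z 0 n ^ j) := by ring
  constructor
  · have h1 := hpow 1 (by omega)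
    rw [pow_one] at h1
    have h3 : (0 : ℝ) ≤ k * m := by positivity
    linarith
  · have h1 := hpow k (by omega)
    push_cast
    linarith

/-- **dense subsets of sifted sets, upper bound** -/
theorem up (r k u : ℕ) (K : ℝ) (hk : 1 ≤ k) (hu : 1 ≤ u) {θ : ℝ} (hθ : 0 < θ) :
    ∃ C : ℝ, 0 < C ∧ ∃ B x₀ : ℕ, ∀ x : ℕ, x₀ ≤ x → ∀ Z : ℕ → Finset ℕ, Cl r x Z → ∀ y X D : ℕ,
      (x : ℝ) ^ θ ≤ X → X ≤ x →
      Real.log x ^ B ≤ D → ∀ S : Finset ℕ, S ⊆ Ioc y (y + X) → Most K u θ x Z S →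
      ((APs k D S).card : ℝ) ≤ C * (X * D * VV Z 0 x ^ k) := by
  classical
  obtain ⟨⟨C, hC, B, n₁, h1⟩, -⟩ := core r k u hk hu hθ
  obtain ⟨n₂, h2⟩ := small_part r k K hθ 1 one_pos
  refine ⟨C + 1, by positivity, B, max n₁ n₂, ?_⟩
  intro n hn Z hZ y X D hX hXn hD S hS hR
  unfold Most at hR
  obtain ⟨-, s5⟩ := h2 n ((le_max_right _ _).trans hn) Z hZ X hX _ hR
  have h3 := h1 n ((le_max_left _ _).trans hn) Z hZ y X D hX hXn hD (S.filter (fun n' => Ro u n Z n'))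
    ((filter_subset _ _).trans hS) (fun m hm => (mem_filter.1 hm).2)
  have s2 : S ⊆ S.filter (fun n' => Ro u n Z n') ∪ S.filter (fun n' => ¬ Ro u n Z n') := by
    rw [filter_union_filter_not_eq]
  have h4 : ((APs k D S).card : ℝ) ≤ (APs k D (S.filter (fun n' => Ro u n Z n'))).card +
      ((k * (S.filter (fun n' => ¬ Ro u n Z n')).card : ℕ) : ℝ) * D := by
    have := APs_split hk (D := D) s2
    rw [← mul_assoc] at this
    exact_mod_cast this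
  have h5 : ((k * (S.filter (fun n' => ¬ Ro u n Z n')).card : ℕ) : ℝ) * D ≤ 1 * (X * VV Z 0 n ^ k) * D :=
    mul_le_mul_of_nonneg_right s5 (Nat.cast_nonneg _)
  calc ((APs k D S).card : ℝ) ≤ C * (X * D * VV Z 0 n ^ k) + 1 * (X * VV Z 0 n ^ k) * D := by linarith
    _ = (C + 1) * (X * D * VV Z 0 n ^ k) := by ring

/-- **dense subsets of sifted sets, lower bounds** -/
theorem dn (r k u : ℕ) (K : ℝ) (hk : 1 ≤ k) (hu : 1 ≤ u) {θ : ℝ} (hθ : 0 < θ) {δ : ℝ} (hδ : 0 < δ) :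
    ∃ c : ℝ, 0 < c ∧ ∃ B x₀ : ℕ, ∀ x : ℕ, x₀ ≤ x → ∀ Z : ℕ → Finset ℕ, Cl r x Z → ∀ y X D : ℕ,
      (x : ℝ) ^ θ ≤ X → X ≤ x → Real.log x ^ B ≤ D → D ≤ X → ∀ S : Finset ℕ, S ⊆ Ioc y (y + X) →
      Most K u θ x Z S →
      (δ * (X * VV Z 0 x) ≤ S.card → c * (X * D * VV Z 0 x ^ k) ≤ ((APs k D S).card : ℝ)) ∧
      (δ * (X * D * VV Z 0 x ^ k) ≤ ((APs k D S).card : ℝ) → c * (X * VV Z 0 x) ≤ S.card) := by
  classical
  obtain ⟨-, hdn⟩ := core r k u hk hu hθ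
  obtain ⟨c, hc, B, n₁, h1⟩ := hdn (δ / 2) (by positivity)
  obtain ⟨n₂, h2⟩ := small_part r k K hθ (δ / 2) (by positivity)
  refine ⟨c, hc, B, max n₁ n₂, ?_⟩
  intro n hn Z hZ y X D hX hXn hD hDX S hS hR
  unfold Most at hR
  obtain ⟨s4, s5⟩ := h2 n ((le_max_right _ _).trans hn) Z hZ X hX _ hR
  obtain ⟨h3, h3'⟩ := h1 n ((le_max_left _ _).trans hn) Z hZ y X D hX hXn hD hDX
    (S.filter (fun n' => Ro u n Z n')) ((filter_subset _ _).trans hS) (fun m hm => (mem_filter.1 hm).2)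
  have s1 : S.filter (fun n' => Ro u n Z n') ⊆ S := filter_subset _ _
  have s2 : S ⊆ S.filter (fun n' => Ro u n Z n') ∪ S.filter (fun n' => ¬ Ro u n Z n') := by
    rw [filter_union_filter_not_eq]
  constructor
  · intro h4
    have h5 : (S.card : ℝ) ≤ (S.filter (fun n' => Ro u n Z n')).card +
        (S.filter (fun n' => ¬ Ro u n Z n')).card := by
      exact_mod_cast (card_le_card s2).trans (card_union_le _ _)
    have h6 := h3 (by linarith)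
    refine h6.trans ?_
    exact_mod_cast card_le_card (APs_mono s1)
  · intro h4
    have h5 : ((APs k D S).card : ℝ) ≤ (APs k D (S.filter (fun n' => Ro u n Z n'))).card +
        ((k * (S.filter (fun n' => ¬ Ro u n Z n')).card : ℕ) : ℝ) * D := by
      have := APs_split hk (D := D) s2
      rw [← mul_assoc] at this
      exact_mod_cast this
    have h6 : ((k * (S.filter (fun n' => ¬ Ro u n Z n')).card : ℕ) : ℝ) * D ≤
        δ / 2 * (X * VV Z 0 n ^ k) * D :=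
      mul_le_mul_of_nonneg_right s5 (Nat.cast_nonneg _)
    have h7 : δ / 2 * (X * VV Z 0 n ^ k) * D = δ / 2 * (X * D * VV Z 0 n ^ k) := by ring
    have h8 := h3' (by linarith)
    refine h8.trans ?_
    exact_mod_cast card_le_card s1

end Pool.Agent.Y843.AC.Gn
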