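import Pool.Agent.Y843.AC.Top
import Pool.Agent.Y843.HG.VLow
import Pool.Agent.Y843.HG.Gold

/-!
# The number of progressions of representations of even numbers
-/

set_option autoImplicit false

namespace Pool.Agent.Y843.AC

open Finset Filter
open Pool.Agent.Y843.HS (Pr VV Pr_mem Pr_prime)
open Pool.Agent.Y843.HG

/-- the expected density of the representations of `n` -/
noncomputable def dg (n : ℕ) : ℝ := n / (n.totient * Real.log n ^ 2)

theorem dg_ge {n : ℕ} (hn : 3 ≤ n) : 1 / Real.log n ^ 2 ≤ dg n := by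
  have hφ : (0 : ℝ) < n.totient := by exact_mod_cast Nat.totient_pos.2 (by omega)
  have hl : 0 < Real.log n := Real.log_pos (by exact_mod_cast (show 1 < n by omega))
  unfold dg
  rw [div_le_div_iff₀ (by positivity) (by positivity), one_mul]
  apply mul_le_mul_of_nonneg_right _ (by positivity)
  exact_mod_cast Nat.totient_le n

theorem dg_pos {n : ℕ} (hn : 3 ≤ n) : 0 < dg n := by
  have hl : 0 < Real.log n := Real.log_pos (by exact_mod_cast (show 1 < n by omega))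
  exact lt_of_lt_of_le (by positivity) (dg_ge hn)

theorem APs_mono {k D : ℕ} {S T : Finset ℕ} (h : S ⊆ T) : APs k D S ⊆ APs k D T := by
  classical
  intro q hq
  unfold APs at hq ⊢
  rw [mem_filter, mem_product] at hq ⊢
  exact ⟨⟨h hq.1.1, hq.1.2⟩, fun j hj => h (hq.2 j hj)⟩

theorem APs_split {k D : ℕ} (hk : 1 ≤ k) {S S₁ S₂ : Finset ℕ} (h : S ⊆ S₁ ∪ S₂) :
    (APs k D S).card ≤ (APs k D S₁).card + k * (S₂.card * D) := by
  classical
  have hsub : APs k D S ⊆ APs k D S₁ ∪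
      (range k).biUnion (fun j => (APs k D S).filter (fun q => q.1 + j * q.2 ∈ S₂)) := by
    intro q hq
    rw [mem_union, mem_biUnion]
    by_cases h1 : ∀ j < k, q.1 + j * q.2 ∈ S₁
    · left
      unfold APs at hq ⊢
      rw [mem_filter, mem_product] at hq ⊢
      have h2 := h1 0 (by omega)
      rw [zero_mul, add_zero] at h2
      exact ⟨⟨h2, hq.1.2⟩, h1⟩
    · right
      push Not at h1
      obtain ⟨j, hj, hj1⟩ := h1
      refine ⟨j, mem_range.2 hj, ?_⟩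
      rw [mem_filter]
      refine ⟨hq, ?_⟩
      unfold APs at hq
      rw [mem_filter] at hq
      have h3 := h (hq.2 j hj)
      rw [mem_union] at h3
      exact h3.resolve_left hj1
  refine (card_le_card hsub).trans ((card_union_le _ _).trans ?_)
  apply Nat.add_le_add_left
  refine card_biUnion_le.trans ?_
  calc ∑ j ∈ range k, ((APs k D S).filter (fun q => q.1 + j * q.2 ∈ S₂)).card
      ≤ ∑ _j ∈ range k, S₂.card * D := by
        apply Finset.sum_le_sum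
        intro j _
        have h1 : ((APs k D S).filter (fun q => q.1 + j * q.2 ∈ S₂)).card ≤
            (S₂ ×ˢ Icc 1 D).card := by
          apply card_le_card_of_injOn (fun q => (q.1 + j * q.2, q.2))
          · intro q hq
            rw [mem_coe, mem_filter] at hq
            unfold APs at hq
            rw [mem_filter, mem_product] at hq
            rw [mem_coe, mem_product]
            exact ⟨hq.2, hq.1.1.2⟩
          · intro q _ q' _ he
            simp only [Prod.mk.injEq] at he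
            obtain ⟨h2, h3⟩ := he
            rw [h3] at h2
            exact Prod.ext (by omega) h3
        rw [card_product, Nat.card_Icc] at h1
        simpa using h1
    _ = k * (S₂.card * D) := by rw [Finset.sum_const, card_range, smul_eq_mul]

/-- **rough representations in windows** -/
theorem core (k u : ℕ) (hk : 1 ≤ k) (hu : 1 ≤ u) {θ : ℝ} (hθ : 0 < θ) :
    (∃ C : ℝ, 0 < C ∧ ∃ B n₀ : ℕ, ∀ n : ℕ, n₀ ≤ n → Even n → ∀ y X D : ℕ, (n : ℝ) ^ θ ≤ X → X ≤ n →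
      Real.log n ^ B ≤ D → ∀ S : Finset ℕ, S ⊆ Ioc y (y + X) → (∀ m ∈ S, RoughRep u n m) →
      ((APs k D S).card : ℝ) ≤ C * (X * D * dg n ^ k)) ∧
    (∀ δ : ℝ, 0 < δ → ∃ c : ℝ, 0 < c ∧ ∃ B n₀ : ℕ, ∀ n : ℕ, n₀ ≤ n → Even n → ∀ y X D : ℕ,
      (n : ℝ) ^ θ ≤ X → X ≤ n → Real.log n ^ B ≤ D → D ≤ X → ∀ S : Finset ℕ, S ⊆ Ioc y (y + X) →
      (∀ m ∈ S, RoughRep u n m) →
      (δ * (X * dg n) ≤ S.card → c * (X * D * dg n ^ k) ≤ ((APs k D S).card : ℝ)) ∧
      (δ * (X * D * dg n ^ k) ≤ ((APs k D S).card : ℝ) → c * (X * dg n) ≤ S.card)) := by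
  have hu0 : (0 : ℝ) < u := by exact_mod_cast hu
  set r' := max 2 ⌈(u : ℝ) / θ⌉₊ with hr'
  have hr'0 : (0 : ℝ) < r' := by exact_mod_cast (show 0 < r' by omega)
  have hr'1 : (u : ℝ) / θ ≤ r' := (Nat.le_ceil _).trans (by exact_mod_cast le_max_right _ _)
  obtain ⟨C₁, hC₁, n₁, hn₁⟩ := V_up r' (by omega)
  obtain ⟨c₁, hc₁, n₂, hn₂⟩ := V_dn u hu
  -- common facts
  have key : ∀ X₀ : ℕ, ∃ n₃ : ℕ, ∀ n : ℕ, n₃ ≤ n → Even n → ∀ X : ℕ, (n : ℝ) ^ θ ≤ X → X ≤ n →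
      X₀ ≤ X ∧ (1 : ℝ) ≤ X ∧ OK 2 (1 / (u : ℝ)) X (ZG n) ∧
      (∀ m : ℕ, RoughRep u n m → Av (1 / (u : ℝ)) X (ZG n) m) ∧
      VV (ZG n) 0 ⌊(X : ℝ) ^ (1 / (u : ℝ))⌋₊ ≤ C₁ * dg n ∧
      c₁ * dg n ≤ VV (ZG n) 0 ⌊(X : ℝ) ^ (1 / (u : ℝ))⌋₊ ∧ 0 < dg n ∧
      ∀ B : ℕ, ∀ D : ℕ, Real.log n ^ B ≤ D → Real.log X ^ B ≤ D := by
    intro X₀
    have h2 := ((tendsto_rpow_atTop hθ).comp (tendsto_natCast_atTop_atTop (R := ℝ))).eventually
      (eventually_ge_atTop (X₀ : ℝ))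
    rw [eventually_atTop] at h2
    obtain ⟨n₄, hn₄⟩ := h2
    refine ⟨max (max n₁ n₂) (max n₄ 3), ?_⟩
    intro n hn hne X hX hXn
    have hnn₁ : n₁ ≤ n := (le_max_left _ _).trans ((le_max_left _ _).trans hn)
    have hnn₂ : n₂ ≤ n := (le_max_right _ _).trans ((le_max_left _ _).trans hn)
    have hnn₄ : n₄ ≤ n := (le_max_left _ _).trans ((le_max_right _ _).trans hn)
    have hn3 : 3 ≤ n := (le_max_right _ _).trans ((le_max_right _ _).trans hn)
    have hn0 : (0 : ℝ) < n := by exact_mod_cast (show 0 < n by omega)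
    have hn1 : (1 : ℝ) ≤ n := by exact_mod_cast (show 1 ≤ n by omega)
    have h3 : (X₀ : ℝ) ≤ (n : ℝ) ^ θ := hn₄ n hnn₄
    have hX₀ : X₀ ≤ X := by exact_mod_cast h3.trans hX
    have hnθ1 : 1 ≤ (n : ℝ) ^ θ := Real.one_le_rpow hn1 hθ.le
    have hX1 : (1 : ℝ) ≤ X := hnθ1.trans hX
    have hX0 : (0 : ℝ) < X := by linarith
    have hXnr : (X : ℝ) ≤ n := by exact_mod_cast hXn
    have hκ : (X : ℝ) ^ (1 / (u : ℝ)) ≤ (n : ℝ) ^ (1 / (u : ℝ)) :=
      Real.rpow_le_rpow hX0.le hXnr (by positivity)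
    have hZ : ∀ p : ℕ, p.Prime → (ZG n p).card ≤ 2 ∧ (ZG n p).card < p ∧ ∀ c ∈ ZG n p, c < p :=
      fun p hp => ZG_ok hne hp
    refine ⟨hX₀, hX1, fun p hp _ => hZ p hp, ?_, ?_, ?_, dg_pos hn3, ?_⟩
    · intro m hm p hp hpX
      have h5 := hm p hp (hpX.trans hκ)
      unfold ZG
      rw [mem_insert, mem_singleton]
      rintro (h6 | h6)
      · exact h5.1 (Nat.dvd_of_mod_eq_zero h6)
      · exact h5.2 h6.symm
    · have h6 : (n : ℝ) ^ (1 / (r' : ℝ)) ≤ (X : ℝ) ^ (1 / (u : ℝ)) := by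
        calc (n : ℝ) ^ (1 / (r' : ℝ)) ≤ (n : ℝ) ^ (θ * (1 / (u : ℝ))) := by
              apply Real.rpow_le_rpow_of_exponent_le hn1
              rw [mul_one_div, div_le_div_iff₀ hr'0 hu0]
              rw [div_le_iff₀ hθ] at hr'1
              linarith
          _ = ((n : ℝ) ^ θ) ^ (1 / (u : ℝ)) := Real.rpow_mul hn0.le _ _
          _ ≤ (X : ℝ) ^ (1 / (u : ℝ)) := Real.rpow_le_rpow (by positivity) hX (by positivity)
      have h7 : VV (ZG n) 0 ⌊(X : ℝ) ^ (1 / (u : ℝ))⌋₊ ≤ VV (ZG n) 0 ⌊(n : ℝ) ^ (1 / (r' : ℝ))⌋₊ :=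
        VV_anti (Nat.floor_le_floor h6) (fun p hp => (hZ p (Pr_prime hp)).2.2)
      exact h7.trans (hn₁ n hnn₁)
    · have h7 : VV (ZG n) 0 ⌊(n : ℝ) ^ (1 / (u : ℝ))⌋₊ ≤ VV (ZG n) 0 ⌊(X : ℝ) ^ (1 / (u : ℝ))⌋₊ :=
        VV_anti (Nat.floor_le_floor hκ) (fun p hp => (hZ p (Pr_prime hp)).2.2)
      exact (hn₂ n hnn₂ hne).trans h7
    · intro B D hD
      exact (pow_le_pow_left₀ (Real.log_nonneg hX1) (Real.log_le_log hX0 hXnr) B).trans hD
  constructor
  · obtain ⟨C, hC, B, X₀, h0⟩ := upa_all 2 k (1 / (u : ℝ)) hk (by positivity)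
    obtain ⟨n₃, hn₃⟩ := key X₀
    refine ⟨C * C₁ ^ k, by positivity, B, n₃, ?_⟩
    intro n hn hne y X D hX hXn hD S hS hR
    obtain ⟨k1, k2, k3, k4, k5, k6, k7, k8⟩ := hn₃ n hn hne X hX hXn
    have h1 := h0 X y D k1 (k8 B D hD) (ZG n) k3 S hS (fun m hm => k4 m (hR m hm))
    have h2 : 0 ≤ VV (ZG n) 0 ⌊(X : ℝ) ^ (1 / (u : ℝ))⌋₊ := le_trans (by positivity) k6
    have h3 := pow_le_pow_left₀ h2 k5 k
    calc ((APs k D S).card : ℝ) ≤ C * X * D * VV (ZG n) 0 ⌊(X : ℝ) ^ (1 / (u : ℝ))⌋₊ ^ k := h1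
      _ ≤ C * X * D * (C₁ * dg n) ^ k := mul_le_mul_of_nonneg_left h3 (by positivity)
      _ = C * C₁ ^ k * (X * D * dg n ^ k) := by rw [mul_pow]; ring
  · intro δ hδ
    obtain ⟨ca, hca, Ba, Xa, ha⟩ := cnt_all 2 k (1 / (u : ℝ)) (δ / C₁) hk (by positivity) (by positivity)
    obtain ⟨cb, hcb, Bb, Xb, hb⟩ := conv_all 2 k (1 / (u : ℝ)) (δ / C₁ ^ k) hk (by positivity) (by positivity)
    obtain ⟨n₃, hn₃⟩ := key (max Xa Xb)
    refine ⟨min (ca * c₁ ^ k) (cb * c₁), lt_min (by positivity) (by positivity), max Ba Bb, max n₃ 3, ?_⟩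
    intro n hn hne y X D hX hXn hD hDX S hS hR
    obtain ⟨k1, k2, k3, k4, k5, k6, k7, k8⟩ := hn₃ n ((le_max_left _ _).trans hn) hne X hX hXn
    have hn3 : 3 ≤ n := (le_max_right _ _).trans hn
    have hlog1 : 1 ≤ Real.log n := by
      have h1 : Real.exp 1 ≤ n := by
        have h2 : (3 : ℝ) ≤ n := by exact_mod_cast hn3
        linarith [Real.exp_one_lt_d9]
      rw [← Real.log_exp 1]
      exact Real.log_le_log (Real.exp_pos 1) h1
    have hDa : Real.log X ^ Ba ≤ D := k8 Ba D ((pow_le_pow_right₀ hlog1 (le_max_left _ _)).trans hD)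
    have hDb : Real.log X ^ Bb ≤ D := k8 Bb D ((pow_le_pow_right₀ hlog1 (le_max_right _ _)).trans hD)
    have h2 : 0 ≤ VV (ZG n) 0 ⌊(X : ℝ) ^ (1 / (u : ℝ))⌋₊ := le_trans (by positivity) k6
    constructor
    · intro h3
      have h4 := ha X y D ((le_max_left _ _).trans k1) hDa hDX (ZG n) k3 S hS
        (fun m hm => k4 m (hR m hm)) (by
          refine le_trans ?_ h3
          calc δ / C₁ * X * VV (ZG n) 0 ⌊(X : ℝ) ^ (1 / (u : ℝ))⌋₊ ≤ δ / C₁ * X * (C₁ * dg n) :=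
                mul_le_mul_of_nonneg_left k5 (by positivity)
            _ = δ * (X * dg n) := by field_simp)
      refine le_trans ?_ h4
      have h5 := pow_le_pow_left₀ (show 0 ≤ c₁ * dg n by positivity) k6 k
      calc min (ca * c₁ ^ k) (cb * c₁) * (X * D * dg n ^ k) ≤ ca * c₁ ^ k * (X * D * dg n ^ k) :=
            mul_le_mul_of_nonneg_right (min_le_left _ _) (by positivity)
        _ = ca * X * D * (c₁ * dg n) ^ k := by rw [mul_pow]; ring
        _ ≤ _ := mul_le_mul_of_nonneg_left h5 (by positivity)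
    · intro h3
      have h6 := pow_le_pow_left₀ h2 k5 k
      have h4 := hb X y D ((le_max_right _ _).trans k1) hDb (ZG n) k3 S hS
        (fun m hm => k4 m (hR m hm)) (by
          refine le_trans ?_ h3
          calc δ / C₁ ^ k * X * D * VV (ZG n) 0 ⌊(X : ℝ) ^ (1 / (u : ℝ))⌋₊ ^ k
              ≤ δ / C₁ ^ k * X * D * (C₁ * dg n) ^ k :=
                mul_le_mul_of_nonneg_left h6 (by positivity)
            _ = δ * (X * D * dg n ^ k) := by rw [mul_pow]; field_simp)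
      refine le_trans ?_ h4
      calc min (ca * c₁ ^ k) (cb * c₁) * (X * dg n) ≤ cb * c₁ * (X * dg n) :=
            mul_le_mul_of_nonneg_right (min_le_right _ _) (by positivity)
        _ = cb * X * (c₁ * dg n) := by ring
        _ ≤ _ := mul_le_mul_of_nonneg_left k6 (by positivity)

end Pool.Agent.Y843.AC
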