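import Pool.Agent.Y843.AC.Gold

/-!
# The number of progressions of representations of even numbers: small primes included
-/

set_option autoImplicit false

namespace Pool.Agent.Y843.AC

open Finset Filter
open Pool.Agent.Y843.HS (Pr VV Pr_mem Pr_prime)
open Pool.Agent.Y843.HG

/-- `m` and `n - m` are primes, or have no prime factor `≤ n ^ (1 / u)` -/
def Rep (u n m : ℕ) : Prop := (m.Prime ∧ (n - m).Prime) ∨ RoughRep u n m

/-- the exceptional small elements are negligible -/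
theorem small_part (k u : ℕ) (hu : 1 ≤ u) {θ : ℝ} (hθ : 0 < θ) : ∃ u' : ℕ, 1 ≤ u' ∧
    ∀ η : ℝ, 0 < η → ∃ n₀ : ℕ, ∀ n : ℕ, n₀ ≤ n → ∀ y X : ℕ, (n : ℝ) ^ θ ≤ X → y + X ≤ n →
    ∀ S : Finset ℕ, S ⊆ Ioc y (y + X) → (∀ m ∈ S, Rep u n m) →
    ∃ S₁ S₂ : Finset ℕ, S₁ ⊆ S ∧ S ⊆ S₁ ∪ S₂ ∧ (∀ m ∈ S₁, RoughRep u' n m) ∧
      (S₂.card : ℝ) ≤ η * (X * dg n) ∧ ((k * S₂.card : ℕ) : ℝ) ≤ η * (X * dg n ^ k) := by
  classical
  set u' := max (max u 1) ⌈2 / θ⌉₊ with hu'
  have hu1 : 1 ≤ u' := (le_max_right _ _).trans (le_max_left _ _)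
  have huu : u ≤ u' := (le_max_left _ _).trans (le_max_left _ _)
  have hu0 : (0 : ℝ) < u' := by exact_mod_cast hu1
  have hu2 : 2 / θ ≤ u' := (Nat.le_ceil _).trans (by exact_mod_cast le_max_right _ _)
  refine ⟨u', hu1, fun η hη => ?_⟩
  -- `4 (k + 1) n ^ (θ / 2) log ^ (2 (k + 1)) n ≤ η n ^ θ`
  have hlit : ∀ᶠ x : ℝ in atTop, (k + 1) * (4 * x ^ (θ / 2)) * Real.log x ^ (2 * (k + 1)) ≤ η * x ^ θ := by
    have h0 : 0 < θ / (4 * (2 * (k + 1))) := by positivity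
    have h1 := (isLittleO_log_rpow_atTop h0).bound (show (0 : ℝ) < 1 by norm_num)
    have h2 := (tendsto_rpow_atTop (show 0 < θ / 4 by positivity)).eventually
      (eventually_ge_atTop (4 * (k + 1) / η))
    filter_upwards [h1, h2, eventually_ge_atTop 1] with x hx1 hx2 hx3
    have hx0 : 0 < x := by linarith
    have hl0 : 0 ≤ Real.log x := Real.log_nonneg hx3
    rw [one_mul, Real.norm_of_nonneg hl0, Real.norm_of_nonneg (by positivity)] at hx1
    have e1 : Real.log x ^ (2 * (k + 1)) ≤ x ^ (θ / 4) := by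
      calc Real.log x ^ (2 * (k + 1)) ≤ (x ^ (θ / (4 * (2 * (k + 1))))) ^ (2 * (k + 1)) :=
            pow_le_pow_left₀ hl0 (by exact_mod_cast hx1) _
        _ = x ^ (θ / 4) := by
            rw [← Real.rpow_natCast, ← Real.rpow_mul hx0.le]
            congr 1
            push_cast
            field_simp
    rw [div_le_iff₀ hη] at hx2
    calc (k + 1) * (4 * x ^ (θ / 2)) * Real.log x ^ (2 * (k + 1))
        ≤ (k + 1) * (4 * x ^ (θ / 2)) * x ^ (θ / 4) := mul_le_mul_of_nonneg_left e1 (by positivity)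
      _ = (4 * (k + 1)) * (x ^ (θ / 2) * x ^ (θ / 4)) := by ring
      _ ≤ (x ^ (θ / 4) * η) * (x ^ (θ / 2) * x ^ (θ / 4)) :=
          mul_le_mul_of_nonneg_right hx2 (by positivity)
      _ = η * (x ^ (θ / 4) * x ^ (θ / 2) * x ^ (θ / 4)) := by ring
      _ = η * x ^ θ := by
          rw [← Real.rpow_add hx0, ← Real.rpow_add hx0]
          congr 2
          ring
  have hlit' := (tendsto_natCast_atTop_atTop (R := ℝ)).eventually hlit
  rw [eventually_atTop] at hlit'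
  obtain ⟨n₂, hn₂⟩ := hlit'
  refine ⟨max n₂ 3, ?_⟩
  intro n hn y X hX hXn S hS hSp
  have hnn₂ : n₂ ≤ n := (le_max_left _ _).trans hn
  have hn3 : 3 ≤ n := (le_max_right _ _).trans hn
  have hn0 : (0 : ℝ) < n := by exact_mod_cast (show 0 < n by omega)
  have hn1 : (1 : ℝ) ≤ n := by exact_mod_cast (show 1 ≤ n by omega)
  have hlog1 : 1 ≤ Real.log n := by
    have h1 : Real.exp 1 ≤ n := by
      have h2 : (3 : ℝ) ≤ n := by exact_mod_cast hn3
      linarith [Real.exp_one_lt_d9]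
    rw [← Real.log_exp 1]
    exact Real.log_le_log (Real.exp_pos 1) h1
  set w := (n : ℝ) ^ (1 / (u' : ℝ)) with hw
  have hw0 : 0 ≤ w := by positivity
  have hw1 : 1 ≤ w := Real.one_le_rpow hn1 (by positivity)
  have hwθ : w ≤ (n : ℝ) ^ (θ / 2) := by
    apply Real.rpow_le_rpow_of_exponent_le hn1
    rw [div_le_iff₀ hu0]
    rw [div_le_iff₀ hθ] at hu2
    linarith
  have hle : ∀ p ∈ S, p ≤ n := by
    intro p hp
    have := mem_Ioc.1 (hS hp)
    omega
  set S₁ := S.filter (fun p : ℕ => w < (p : ℝ) ∧ w < ((n - p : ℕ) : ℝ)) with hS₁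
  set S₂ := S.filter (fun p : ℕ => ¬ (w < (p : ℝ) ∧ w < ((n - p : ℕ) : ℝ))) with hS₂
  have hcard : (S₂.card : ℝ) ≤ 4 * (n : ℝ) ^ (θ / 2) := by
    have h1 : S₂ ⊆ range (⌊w⌋₊ + 1) ∪ (range (⌊w⌋₊ + 1)).image (fun m => n - m) := by
      intro p hp
      rw [hS₂, mem_filter] at hp
      obtain ⟨hpS, hp1⟩ := hp
      rw [mem_union, mem_range, mem_image]
      by_cases h2 : w < (p : ℝ)
      · right
        have h3 : ((n - p : ℕ) : ℝ) ≤ w := by
          by_contra h4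
          exact hp1 ⟨h2, not_le.1 h4⟩
        refine ⟨n - p, ?_, ?_⟩
        · rw [mem_range]
          exact Nat.lt_succ_of_le (Nat.le_floor h3)
        · have := hle p hpS
          omega
      · left
        exact Nat.lt_succ_of_le (Nat.le_floor (not_lt.1 h2))
    have h2 : S₂.card ≤ 2 * (⌊w⌋₊ + 1) := by
      refine (card_le_card h1).trans ((card_union_le _ _).trans ?_)
      have h3 := card_image_le (s := range (⌊w⌋₊ + 1)) (f := fun m => n - m)
      rw [card_range] at h3 ⊢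
      omega
    have h3 : (S₂.card : ℝ) ≤ 2 * (⌊w⌋₊ + 1) := by exact_mod_cast h2
    have h4 := Nat.floor_le hw0
    linarith
  have hdg := dg_ge hn3
  have hdg0 := dg_pos hn3
  have hmain := hn₂ n hnn₂
  have hpow : ∀ j : ℕ, j ≤ k + 1 → (k + 1) * (S₂.card : ℝ) ≤ η * (X * dg n ^ j) := by
    intro j hj
    have h1 : (1 / Real.log n ^ 2) ^ j ≤ dg n ^ j := pow_le_pow_left₀ (by positivity) hdg j
    have h2 : (1 / Real.log (n : ℝ) ^ 2) ^ j = 1 / Real.log n ^ (2 * j) := by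
      rw [div_pow, one_pow, ← pow_mul]
    have h3 : 1 / Real.log (n : ℝ) ^ (2 * (k + 1)) ≤ 1 / Real.log n ^ (2 * j) := by
      apply one_div_le_one_div_of_le (by positivity)
      exact pow_le_pow_right₀ hlog1 (by omega)
    have h4 : 1 / Real.log (n : ℝ) ^ (2 * (k + 1)) ≤ dg n ^ j := by
      rw [h2] at h1
      linarith
    have h5 : (k + 1) * (S₂.card : ℝ) ≤ (k + 1) * (4 * (n : ℝ) ^ (θ / 2)) :=
      mul_le_mul_of_nonneg_left hcard (by positivity)
    have h6 : (k + 1) * (4 * (n : ℝ) ^ (θ / 2)) ≤ η * (n : ℝ) ^ θ * (1 / Real.log n ^ (2 * (k + 1))) := by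
      rw [mul_one_div, le_div_iff₀ (by positivity)]
      exact hmain
    calc (k + 1) * (S₂.card : ℝ) ≤ η * (n : ℝ) ^ θ * (1 / Real.log n ^ (2 * (k + 1))) := h5.trans h6
      _ ≤ η * X * (1 / Real.log n ^ (2 * (k + 1))) := by
          apply mul_le_mul_of_nonneg_right _ (by positivity)
          exact mul_le_mul_of_nonneg_left hX hη.le
      _ ≤ η * X * dg n ^ j := mul_le_mul_of_nonneg_left h4 (by positivity)
      _ = η * (X * dg n ^ j) := by ring
  refine ⟨S₁, S₂, filter_subset _ _, ?_, ?_, ?_, ?_⟩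
  · intro p hp
    rw [mem_union, hS₁, hS₂, mem_filter, mem_filter]
    by_cases h3 : w < (p : ℝ) ∧ w < ((n - p : ℕ) : ℝ)
    · exact Or.inl ⟨hp, h3⟩
    · exact Or.inr ⟨hp, h3⟩
  · intro p hp q hq hqw
    rw [hS₁, mem_filter] at hp
    obtain ⟨hpS, hp1, hp2⟩ := hp
    rcases hSp p hpS with ⟨hpp, hnp⟩ | hR
    · constructor
      · intro hqp
        have := (Nat.prime_dvd_prime_iff_eq hq hpp).1 hqp
        rw [this] at hqw
        linarith
      · intro hmod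
        have h2 : q ∣ n - p := (Nat.modEq_iff_dvd' (hle p hpS)).1 hmod.symm
        have := (Nat.prime_dvd_prime_iff_eq hq hnp).1 h2
        rw [this] at hqw
        linarith
    · apply hR q hq
      refine hqw.trans (Real.rpow_le_rpow_of_exponent_le hn1 ?_)
      apply one_div_le_one_div_of_le (by exact_mod_cast hu)
      exact_mod_cast huu
  · have h1 := hpow 1 (by omega)
    rw [pow_one] at h1
    have h2 : (0 : ℝ) ≤ S₂.card := Nat.cast_nonneg _
    have h3 : (0 : ℝ) ≤ k * S₂.card := by positivity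
    linarith
  · have h1 := hpow k (by omega)
    push_cast
    have h2 : (0 : ℝ) ≤ S₂.card := Nat.cast_nonneg _
    linarith

/-- **representations in windows, upper bound** -/
theorem rep_up (k u : ℕ) (hk : 1 ≤ k) (hu : 1 ≤ u) {θ : ℝ} (hθ : 0 < θ) :
    ∃ C : ℝ, 0 < C ∧ ∃ B n₀ : ℕ, ∀ n : ℕ, n₀ ≤ n → Even n → ∀ y X D : ℕ, (n : ℝ) ^ θ ≤ X → y + X ≤ n →
      Real.log n ^ B ≤ D → ∀ S : Finset ℕ, S ⊆ Ioc y (y + X) → (∀ m ∈ S, Rep u n m) →
      ((APs k D S).card : ℝ) ≤ C * (X * D * dg n ^ k) := by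
  obtain ⟨u', hu', hsp⟩ := small_part k u hu hθ
  obtain ⟨⟨C, hC, B, n₁, h1⟩, -⟩ := core k u' hk hu' hθ
  obtain ⟨n₂, h2⟩ := hsp 1 one_pos
  refine ⟨C + 1, by positivity, B, max n₁ n₂, ?_⟩
  intro n hn hne y X D hX hXn hD S hS hR
  obtain ⟨S₁, S₂, s1, s2, s3, s4, s5⟩ := h2 n ((le_max_right _ _).trans hn) y X hX hXn S hS hR
  have h3 := h1 n ((le_max_left _ _).trans hn) hne y X D hX (by omega) hD S₁ (s1.trans hS) s3
  have h4 : ((APs k D S).card : ℝ) ≤ (APs k D S₁).card + ((k * S₂.card : ℕ) : ℝ) * D := by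
    have := APs_split hk (D := D) s2
    rw [← mul_assoc] at this
    exact_mod_cast this
  have h5 : ((k * S₂.card : ℕ) : ℝ) * D ≤ 1 * (X * dg n ^ k) * D :=
    mul_le_mul_of_nonneg_right s5 (Nat.cast_nonneg _)
  calc ((APs k D S).card : ℝ) ≤ C * (X * D * dg n ^ k) + 1 * (X * dg n ^ k) * D := by linarith
    _ = (C + 1) * (X * D * dg n ^ k) := by ring

/-- **representations in windows, lower bounds** -/
theorem rep_dn (k u : ℕ) (hk : 1 ≤ k) (hu : 1 ≤ u) {θ : ℝ} (hθ : 0 < θ) {δ : ℝ} (hδ : 0 < δ) :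
    ∃ c : ℝ, 0 < c ∧ ∃ B n₀ : ℕ, ∀ n : ℕ, n₀ ≤ n → Even n → ∀ y X D : ℕ,
      (n : ℝ) ^ θ ≤ X → y + X ≤ n → Real.log n ^ B ≤ D → D ≤ X → ∀ S : Finset ℕ, S ⊆ Ioc y (y + X) →
      (∀ m ∈ S, Rep u n m) →
      (δ * (X * dg n) ≤ S.card → c * (X * D * dg n ^ k) ≤ ((APs k D S).card : ℝ)) ∧
      (δ * (X * D * dg n ^ k) ≤ ((APs k D S).card : ℝ) → c * (X * dg n) ≤ S.card) := by
  obtain ⟨u', hu', hsp⟩ := small_part k u hu hθ
  obtain ⟨-, hdn⟩ := core k u' hk hu' hθ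
  obtain ⟨c, hc, B, n₁, h1⟩ := hdn (δ / 2) (by positivity)
  obtain ⟨n₂, h2⟩ := hsp (δ / 2) (by positivity)
  refine ⟨c, hc, B, max n₁ n₂, ?_⟩
  intro n hn hne y X D hX hXn hD hDX S hS hR
  obtain ⟨S₁, S₂, s1, s2, s3, s4, s5⟩ := h2 n ((le_max_right _ _).trans hn) y X hX hXn S hS hR
  obtain ⟨h3, h3'⟩ := h1 n ((le_max_left _ _).trans hn) hne y X D hX (by omega) hD hDX S₁
    (s1.trans hS) s3
  constructor
  · intro h4
    have h5 : (S.card : ℝ) ≤ S₁.card + S₂.card := by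
      exact_mod_cast (card_le_card s2).trans (card_union_le _ _)
    have h6 := h3 (by linarith)
    refine h6.trans ?_
    exact_mod_cast card_le_card (APs_mono s1)
  · intro h4
    have h5 : ((APs k D S).card : ℝ) ≤ (APs k D S₁).card + ((k * S₂.card : ℕ) : ℝ) * D := by
      have := APs_split hk (D := D) s2
      rw [← mul_assoc] at this
      exact_mod_cast this
    have h6 : ((k * S₂.card : ℕ) : ℝ) * D ≤ δ / 2 * (X * dg n ^ k) * D :=
      mul_le_mul_of_nonneg_right s5 (Nat.cast_nonneg _)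
    have h7 : δ / 2 * (X * dg n ^ k) * D = δ / 2 * (X * D * dg n ^ k) := by ring
    have h8 := h3' (by linarith)
    refine h8.trans ?_
    exact_mod_cast card_le_card s1

end Pool.Agent.Y843.AC
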