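import Pool.Agent.Y843.AC.GoldPr
import Pool.Agent.Y840.CT.Low
import Pool.Agent.H387R2.U2

/-!
# Finite sets of integers: the singular series and the sieve product, uniformly
-/

set_option autoImplicit false

namespace Pool.Agent.Y843.AC.HL

open Finset Filter
open Pool.Agent.Y843.HS (Pr VV Pr_mem Pr_prime)
open Pool.Agent.Y843.HG (V1 V1_bounds)

/-- the number of the residue classes modulo `q` occupied by `T` -/
def nu (T : Finset ℤ) (q : ℕ) : ℕ := (T.image (fun t : ℤ => t % q)).card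

/-- `T` misses a residue class modulo every prime -/
def Adm (T : Finset ℤ) : Prop := ∀ q : ℕ, q.Prime → nu T q < q

/-- the local factor of the singular series -/
noncomputable def loc (T : Finset ℤ) (q : ℕ) : ℝ := (1 - (nu T q : ℝ) / q) / (1 - 1 / (q : ℝ)) ^ T.card

/-- the singular series -/
noncomputable def Sing (T : Finset ℤ) : ℝ := ∏' q : Nat.Primes, loc T q

/-- the expected density of the tuples of primes near `x` -/
noncomputable def gg (T : Finset ℤ) (x : ℕ) : ℝ := Sing T / Real.log x ^ T.card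

/-- the classes of the `n` with `n + t ≡ 0` for some `t` in `T` -/
def ZT (T : Finset ℤ) (q : ℕ) : Finset ℕ := T.image (fun t : ℤ => ((-t) % q).toNat)

theorem card_image_le_of {α β γ : Type*} [DecidableEq β] [DecidableEq γ] (T : Finset α) (f : α → β)
    (g : α → γ) (h : ∀ s ∈ T, ∀ t ∈ T, f s = f t → g s = g t) : (T.image g).card ≤ (T.image f).card := by
  classical
  apply Finset.card_le_card_of_forall_subsingleton (fun c b => ∃ x ∈ T, g x = c ∧ f x = b)
  · intro c hc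
    obtain ⟨x, hx, rfl⟩ := mem_image.1 hc
    exact ⟨f x, mem_image_of_mem f hx, x, hx, rfl, rfl⟩
  · intro b hb c hc c' hc'
    obtain ⟨-, x, hx, h1, h2⟩ := hc
    obtain ⟨-, x', hx', h1', h2'⟩ := hc'
    rw [← h1, ← h1']
    exact h x hx x' hx' (by rw [h2, h2'])

theorem card_image_eq_of {α β γ : Type*} [DecidableEq β] [DecidableEq γ] (T : Finset α) (f : α → β)
    (g : α → γ) (h : ∀ s ∈ T, ∀ t ∈ T, f s = f t ↔ g s = g t) : (T.image g).card = (T.image f).card :=
  le_antisymm (card_image_le_of T f g fun s hs t ht => (h s hs t ht).1)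
    (card_image_le_of T g f fun s hs t ht => (h s hs t ht).2)

theorem card_ZT (T : Finset ℤ) {q : ℕ} (hq : 0 < q) : (ZT T q).card = nu T q := by
  unfold ZT nu
  apply card_image_eq_of
  intro s _ t _
  have hq0 : (q : ℤ) ≠ 0 := by exact_mod_cast hq.ne'
  have h1 := Int.emod_nonneg (-s) hq0
  have h2 := Int.emod_nonneg (-t) hq0
  constructor
  · intro h
    have h3 : (-s) % (q : ℤ) = (-t) % (q : ℤ) := (Int.ModEq.neg (h : s ≡ t [ZMOD q]))
    rw [h3]
  · intro h
    have h3 : (-s) % (q : ℤ) = (-t) % (q : ℤ) := by omega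
    have h4 : (-s) ≡ (-t) [ZMOD q] := h3
    have h5 := h4.neg
    rw [neg_neg, neg_neg] at h5
    exact h5

theorem mem_ZT {T : Finset ℤ} {q n : ℕ} (hq : 0 < q) : n % q ∈ ZT T q ↔ ∃ t ∈ T, (q : ℤ) ∣ n + t := by
  have hq0 : (q : ℤ) ≠ 0 := by exact_mod_cast hq.ne'
  unfold ZT
  rw [mem_image]
  constructor
  · rintro ⟨t, ht, h⟩
    refine ⟨t, ht, ?_⟩
    have h1 := Int.emod_nonneg (-t) hq0
    have h2 : (-t) % (q : ℤ) = (n : ℤ) % q := by
      rw [← Int.toNat_of_nonneg h1, h]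
      push_cast
      rfl
    have h3 : (-t) ≡ n [ZMOD q] := h2
    have h4 := Int.modEq_iff_dvd.1 h3
    rwa [sub_neg_eq_add] at h4
  · rintro ⟨t, ht, h⟩
    refine ⟨t, ht, ?_⟩
    have h3 : (-t) ≡ n [ZMOD q] := by
      rw [Int.modEq_iff_dvd, sub_neg_eq_add]
      exact h
    have h4 : (-t) % (q : ℤ) = (n : ℤ) % q := h3
    rw [h4]
    have : (n : ℤ) % q = ((n % q : ℕ) : ℤ) := by push_cast; rfl
    rw [this, Int.toNat_natCast]

theorem ZT_lt {T : Finset ℤ} {q : ℕ} (hq : 0 < q) : ∀ c ∈ ZT T q, c < q := by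
  have hq0 : (0 : ℤ) < q := by exact_mod_cast hq
  intro c hc
  unfold ZT at hc
  obtain ⟨t, _, rfl⟩ := mem_image.1 hc
  have h1 := Int.emod_nonneg (-t) hq0.ne'
  have h2 := Int.emod_lt_of_pos (-t) hq0
  omega

theorem nu_le (T : Finset ℤ) (q : ℕ) : nu T q ≤ T.card := card_image_le

/-- a shift to natural numbers -/
theorem ex_nat (T : Finset ℤ) : ∃ T' : Finset ℕ, T'.card = T.card ∧
    ∀ q : ℕ, 0 < q → Pool.Agent.H387R2.Uni.nuT T' q = nu T q := by
  classical
  obtain ⟨m, hm⟩ : ∃ m : ℕ, ∀ t ∈ T, 0 ≤ t + m := by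
    refine ⟨∑ t ∈ T, t.natAbs, fun t ht => ?_⟩
    have h1 : t.natAbs ≤ ∑ t ∈ T, t.natAbs := Finset.single_le_sum (f := fun t : ℤ => t.natAbs)
      (fun _ _ => Nat.zero_le _) ht
    omega
  refine ⟨T.image (fun t : ℤ => (t + m).toNat), ?_, ?_⟩
  · rw [card_image_of_injOn]
    intro s hs t ht h
    have h1 := hm s hs
    have h2 := hm t ht
    simp only at h
    omega
  · intro q hq
    have hq0 : (0 : ℤ) < q := by exact_mod_cast hq
    unfold Pool.Agent.H387R2.Uni.nuT nu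
    rw [image_image]
    apply card_image_eq_of
    intro s hs t ht
    have e : ∀ t ∈ T, (((t + m).toNat % q : ℕ) : ℤ) = (t + m) % q := by
      intro t ht
      rw [Int.natCast_mod, Int.toNat_of_nonneg (hm t ht)]
    simp only [Function.comp]
    have h1 : ((s + m).toNat % q = (t + m).toNat % q) ↔ (s + m) % (q : ℤ) = (t + m) % (q : ℤ) := by
      rw [← e s hs, ← e t ht]
      exact_mod_cast Iff.rfl
    rw [h1]
    constructor
    · intro h
      exact Int.ModEq.add_right m (h : s ≡ t [ZMOD q])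
    · intro h
      exact Int.ModEq.add_right_cancel' m (h : s + m ≡ t + m [ZMOD q])

theorem Sing_hasProd (T : Finset ℤ) : HasProd (fun q : Nat.Primes => loc T q) (Sing T) := by
  obtain ⟨T', h1, h2⟩ := ex_nat T
  have h3 := Pool.Agent.H387R2.Uni.CT_hasProd T'
  have h4 : (fun p : Nat.Primes => Pool.Agent.H387R2.Uni.locT T' p) = fun p : Nat.Primes => loc T p := by
    funext p
    unfold Pool.Agent.H387R2.Uni.locT loc
    rw [h1, h2 p p.2.pos]
  rw [h4] at h3
  have h5 : Pool.Agent.H387R2.Uni.CT T' = Sing T := by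
    unfold Pool.Agent.H387R2.Uni.CT Sing
    rw [h4]
  rw [← h5]
  exact h3

theorem one_sub_pos {q : ℕ} (hq : q.Prime) : (0 : ℝ) < 1 - 1 / (q : ℝ) := by
  have h : (1 : ℝ) < q := by exact_mod_cast hq.one_lt
  rw [sub_pos, div_lt_one (by linarith)]
  exact h

theorem nu_div_le {T : Finset ℤ} (hT : Adm T) {q : ℕ} (hq : q.Prime) :
    1 / (q : ℝ) ≤ 1 - (nu T q : ℝ) / q := by
  have h0 : (0 : ℝ) < q := by exact_mod_cast hq.pos
  have h1 : (nu T q : ℝ) + 1 ≤ q := by exact_mod_cast hT q hq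
  rw [le_sub_iff_add_le, ← add_div, div_le_one h0]
  linarith

theorem loc_pos {T : Finset ℤ} (hT : Adm T) {q : ℕ} (hq : q.Prime) : 0 < loc T q := by
  have h0 : (0 : ℝ) < q := by exact_mod_cast hq.pos
  have h1 := one_sub_pos hq
  have h2 := nu_div_le hT hq
  have h3 : (0 : ℝ) < 1 / q := by positivity
  unfold loc
  exact div_pos (by linarith) (by positivity)

theorem loc_ge_inv {T : Finset ℤ} (hT : Adm T) {q : ℕ} (hq : q.Prime) : 1 / (q : ℝ) ≤ loc T q := by
  have h0 : (0 : ℝ) < q := by exact_mod_cast hq.pos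
  have h1 := one_sub_pos hq
  have h2 := nu_div_le hT hq
  unfold loc
  rw [le_div_iff₀ (by positivity)]
  have h3 : (1 - 1 / (q : ℝ)) ^ T.card ≤ 1 := pow_le_one₀ h1.le (by
    have : (0 : ℝ) < 1 / q := by positivity
    linarith)
  calc 1 / (q : ℝ) * (1 - 1 / (q : ℝ)) ^ T.card ≤ 1 / (q : ℝ) * 1 :=
        mul_le_mul_of_nonneg_left h3 (by positivity)
    _ ≤ _ := by linarith

theorem loc_ge {T : Finset ℤ} {q : ℕ} (hq : q.Prime) (h : T.card ≤ q) :
    1 - (T.card : ℝ) ^ 2 * ((q : ℝ) ^ 2)⁻¹ ≤ loc T q := by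
  have h0 : (0 : ℝ) < q := by exact_mod_cast hq.pos
  have h1 := one_sub_pos hq
  unfold loc
  rw [le_div_iff₀ (by positivity)]
  refine (Pool.Agent.Y840.CT.one_sub_ge (by exact_mod_cast hq.one_lt) (by exact_mod_cast h)).trans ?_
  have h2 : (nu T q : ℝ) ≤ T.card := by exact_mod_cast nu_le T q
  have h3 : (nu T q : ℝ) / q ≤ (T.card : ℝ) / q := div_le_div_of_nonneg_right h2 h0.le
  linarith

theorem loc_good {T : Finset ℤ} {q : ℕ} (hq : q.Prime) (h : nu T q = T.card) : loc T q ≤ 1 := by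
  have h0 : (1 : ℝ) < q := by exact_mod_cast hq.one_lt
  have h1 := one_sub_pos hq
  unfold loc
  rw [div_le_one (by positivity), h]
  have h2 : (1 : ℝ) + (T.card : ℝ) * (-(1 / (q : ℝ))) ≤ (1 + -(1 / (q : ℝ))) ^ T.card := by
    apply one_add_mul_le_pow
    have : 1 / (q : ℝ) < 1 := by rw [div_lt_one (by linarith)]; exact h0
    linarith
  calc 1 - (T.card : ℝ) / q = 1 + (T.card : ℝ) * (-(1 / (q : ℝ))) := by ring
    _ ≤ (1 + -(1 / (q : ℝ))) ^ T.card := h2
    _ = _ := by ring_nf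

theorem loc_bad {T : Finset ℤ} {q : ℕ} (hq : q.Prime) : loc T q ≤ 2 ^ T.card := by
  have h0 : (2 : ℝ) ≤ q := by exact_mod_cast hq.two_le
  have h1 := one_sub_pos hq
  have h2 : (1 : ℝ) / 2 ≤ 1 - 1 / (q : ℝ) := by
    have : 1 / (q : ℝ) ≤ 1 / 2 := one_div_le_one_div_of_le (by norm_num) h0
    linarith
  unfold loc
  rw [div_le_iff₀ (by positivity)]
  have h3 : (1 : ℝ) ≤ 2 ^ T.card * (1 - 1 / (q : ℝ)) ^ T.card := by
    rw [← mul_pow]
    apply one_le_pow₀
    linarith
  have h4 : (0 : ℝ) ≤ (nu T q : ℝ) / q := by positivity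
  linarith

/-- the tail of the singular series, from below -/
theorem tail_ge {T : Finset ℤ} {x : ℕ} (hx : 2 * T.card ^ 2 ≤ x) (hx0 : 1 ≤ x) (P : Finset ℕ)
    (hP : ∀ p ∈ P, p.Prime ∧ x < p) : (1 : ℝ) / 2 ≤ ∏ p ∈ P, loc T p := by
  classical
  have hxr : (0 : ℝ) < x := by exact_mod_cast hx0
  have hr : ∀ p ∈ P, T.card ≤ p := by
    intro p hp
    have := (hP p hp).2
    nlinarith
  have h1 : ∀ p ∈ P, 0 ≤ (T.card : ℝ) ^ 2 * ((p : ℝ) ^ 2)⁻¹ ∧ (T.card : ℝ) ^ 2 * ((p : ℝ) ^ 2)⁻¹ ≤ 1 := by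
    intro p hp
    have hp0 : (0 : ℝ) < p := by exact_mod_cast (hP p hp).1.pos
    refine ⟨by positivity, ?_⟩
    rw [← div_eq_mul_inv, div_le_one (by positivity)]
    exact pow_le_pow_left₀ (by positivity) (by exact_mod_cast hr p hp) 2
  calc (1 : ℝ) / 2 ≤ 1 - ∑ p ∈ P, (T.card : ℝ) ^ 2 * ((p : ℝ) ^ 2)⁻¹ := by
        rw [← mul_sum]
        have h2 : ∑ p ∈ P, ((p : ℝ) ^ 2)⁻¹ ≤ (x : ℝ)⁻¹ := by
          set z := max x (P.sup id) with hz
          calc ∑ p ∈ P, ((p : ℝ) ^ 2)⁻¹ ≤ ∑ p ∈ Ioc x z, ((p : ℝ) ^ 2)⁻¹ := by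
                apply Finset.sum_le_sum_of_subset_of_nonneg
                · intro p hp
                  rw [mem_Ioc]
                  refine ⟨(hP p hp).2, ?_⟩
                  exact (Finset.le_sup (f := id) hp).trans (le_max_right _ _)
                · intro p _ _
                  positivity
            _ ≤ (x : ℝ)⁻¹ - (z : ℝ)⁻¹ := sum_Ioc_inv_sq_le_sub (by omega) (le_max_left _ _)
            _ ≤ _ := by
                have : (0 : ℝ) ≤ (z : ℝ)⁻¹ := by positivity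
                linarith
        have h3 : (T.card : ℝ) ^ 2 * (x : ℝ)⁻¹ ≤ 1 / 2 := by
          rw [← div_eq_mul_inv, div_le_div_iff₀ hxr (by norm_num)]
          have : (2 : ℝ) * (T.card : ℝ) ^ 2 ≤ x := by exact_mod_cast hx
          linarith
        have h4 : (T.card : ℝ) ^ 2 * ∑ p ∈ P, ((p : ℝ) ^ 2)⁻¹ ≤ (T.card : ℝ) ^ 2 * (x : ℝ)⁻¹ :=
          mul_le_mul_of_nonneg_left h2 (by positivity)
        linarith
    _ ≤ ∏ p ∈ P, (1 - (T.card : ℝ) ^ 2 * ((p : ℝ) ^ 2)⁻¹) :=
        Pool.Agent.Y840.CT.prod_one_sub_ge P _ h1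
    _ ≤ ∏ p ∈ P, loc T p := by
        apply Finset.prod_le_prod
        · intro p hp
          linarith [(h1 p hp).2]
        · intro p hp
          exact loc_ge (hP p hp).1 (hr p hp)

/-- the tail of the singular series, from above -/
theorem tail_le {T : Finset ℤ} (hT : Adm T) {x : ℕ} (hx : 2 ≤ x) (hTx : ∀ t ∈ T, |t| ≤ x) (P : Finset ℕ)
    (hP : ∀ p ∈ P, p.Prime ∧ x < p) : ∏ p ∈ P, loc T p ≤ (2 : ℝ) ^ (T.card * T.card ^ 2) := by
  classical
  rw [← prod_filter_mul_prod_filter_not P (fun p => nu T p = T.card)]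
  have h1 : ∏ p ∈ P.filter (fun p => nu T p = T.card), loc T p ≤ 1 := by
    apply prod_le_one
    · intro p hp
      exact (loc_pos hT (hP p (mem_filter.1 hp).1).1).le
    · intro p hp
      exact loc_good (hP p (mem_filter.1 hp).1).1 (mem_filter.1 hp).2
  have h2 : (P.filter (fun p => ¬ nu T p = T.card)).card ≤ T.card ^ 2 := by
    have h3 : (P.filter (fun p => ¬ nu T p = T.card)).card ≤ (T ×ˢ T).card := by
      apply Finset.card_le_card_of_forall_subsingleton
        (fun (p : ℕ) (q : ℤ × ℤ) => q.1 ≠ q.2 ∧ (p : ℤ) ∣ q.1 - q.2)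
      · intro p hp
        rw [mem_filter] at hp
        by_contra hcon
        push Not at hcon
        apply hp.2
        unfold nu
        rw [card_image_of_injOn]
        intro s hs t ht hst
        by_contra hne
        have h4 := hcon (s, t) (mem_product.2 ⟨hs, ht⟩) hne
        apply h4
        exact (Int.modEq_iff_dvd.1 (hst : s ≡ t [ZMOD p]).symm)
      · rintro ⟨s, t⟩ hq p ⟨hp, hne, hd⟩ p' ⟨hp', _, hd'⟩
        rw [mem_product] at hq
        rw [mem_filter] at hp hp'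
        simp only at hd hd' hne
        by_contra hpp
        have e1 := hP p hp.1
        have e2 := hP p' hp'.1
        have h5 : IsCoprime (p : ℤ) (p' : ℤ) := by
          rw [Nat.isCoprime_iff_coprime]
          exact (Nat.coprime_primes e1.1 e2.1).2 hpp
        have h6 : ((p : ℤ) * p') ∣ s - t := h5.mul_dvd hd hd'
        have h7 : (p : ℤ) * p' ≤ |s - t| := Int.le_of_dvd (abs_pos.2 (sub_ne_zero.2 hne)) ((dvd_abs _ _).2 h6)
        have h8 : |s - t| ≤ 2 * x := by
          have h9 := hTx s hq.1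
          have h10 := hTx t hq.2
          have h11 : |s - t| ≤ |s| + |t| := abs_sub _ _
          linarith
        have h12 : (x : ℤ) + 1 ≤ p := by exact_mod_cast e1.2
        have h13 : (x : ℤ) + 1 ≤ p' := by exact_mod_cast e2.2
        have h14 : (2 : ℤ) ≤ x := by exact_mod_cast hx
        nlinarith
    rw [card_product] at h3
    rw [pow_two]
    exact h3
  have h3 : ∏ p ∈ P.filter (fun p => ¬ nu T p = T.card), loc T p ≤ (2 : ℝ) ^ (T.card * T.card ^ 2) := by
    calc ∏ p ∈ P.filter (fun p => ¬ nu T p = T.card), loc T p ≤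
          ∏ _p ∈ P.filter (fun p => ¬ nu T p = T.card), (2 : ℝ) ^ T.card := by
          apply Finset.prod_le_prod
          · intro p hp
            exact (loc_pos hT (hP p (mem_filter.1 hp).1).1).le
          · intro p hp
            exact loc_bad (hP p (mem_filter.1 hp).1).1
      _ = (2 : ℝ) ^ (T.card * (P.filter (fun p => ¬ nu T p = T.card)).card) := by
          rw [prod_const, ← pow_mul]
      _ ≤ _ := by
          apply pow_le_pow_right₀ (by norm_num)
          exact Nat.mul_le_mul_left _ h2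
  have h4 : 0 ≤ ∏ p ∈ P.filter (fun p => ¬ nu T p = T.card), loc T p :=
    prod_nonneg fun p hp => (loc_pos hT (hP p (mem_filter.1 hp).1).1).le
  calc _ ≤ 1 * ∏ p ∈ P.filter (fun p => ¬ nu T p = T.card), loc T p := mul_le_mul_of_nonneg_right h1 h4
    _ ≤ _ := by rw [one_mul]; exact h3

/-- the truncated product and the singular series -/
theorem Sing_cmp {T : Finset ℤ} (hT : Adm T) {x : ℕ} :
    (2 * T.card ^ 2 ≤ x → 1 ≤ x → 1 / 2 * ∏ p ∈ Pr 0 x, loc T p ≤ Sing T) ∧
    (2 ≤ x → (∀ t ∈ T, |t| ≤ x) → Sing T ≤ (2 : ℝ) ^ (T.card * T.card ^ 2) * ∏ p ∈ Pr 0 x, loc T p) := by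
  classical
  have hprod := Sing_hasProd T
  obtain ⟨s₀, hmem⟩ : ∃ s₀ : Finset Nat.Primes, ∀ p : Nat.Primes, p ∈ s₀ ↔ (p : ℕ) ≤ x := by
    refine ⟨(Finset.subtype Nat.Prime (Pr 0 x) : Finset {p : ℕ // p.Prime}), fun p => ?_⟩
    refine (Finset.mem_subtype (p := Nat.Prime) (s := Pr 0 x) (a := p)).trans ?_
    constructor
    · intro h
      exact (Pr_mem.1 h).1.2
    · intro h
      exact Pr_mem.2 ⟨⟨p.2.pos, h⟩, p.2⟩
  have himg : ∀ s : Finset Nat.Primes, ∏ p ∈ s, loc T p = ∏ p ∈ s.image (fun p : Nat.Primes => (p : ℕ)), loc T p := by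
    intro s
    rw [prod_image]
    intro p _ q _ h
    exact Subtype.ext h
  have hs0 : ∏ p ∈ s₀, loc T p = ∏ p ∈ Pr 0 x, loc T p := by
    rw [himg]
    apply prod_congr _ (fun _ _ => rfl)
    ext p
    rw [mem_image]
    constructor
    · rintro ⟨q, hq, rfl⟩
      exact Pr_mem.2 ⟨⟨q.2.pos, (hmem q).1 hq⟩, q.2⟩
    · intro hp
      have h1 := Pr_mem.1 hp
      exact ⟨⟨p, h1.2⟩, (hmem _).2 h1.1.2, rfl⟩
  have hpos : 0 < ∏ p ∈ Pr 0 x, loc T p := prod_pos fun p hp => loc_pos hT (Pr_prime hp)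
  have hsplit : ∀ s : Finset Nat.Primes, s₀ ≤ s → ∃ P : Finset ℕ, (∀ p ∈ P, p.Prime ∧ x < p) ∧
      ∏ p ∈ s, loc T p = (∏ p ∈ Pr 0 x, loc T p) * ∏ p ∈ P, loc T p := by
    intro s hs
    refine ⟨(s \ s₀).image (fun p : Nat.Primes => (p : ℕ)), ?_, ?_⟩
    · intro p hp
      obtain ⟨q, hq, rfl⟩ := mem_image.1 hp
      rw [Finset.mem_sdiff, hmem] at hq
      exact ⟨q.2, by omega⟩
    · rw [← himg, ← hs0, mul_comm]
      exact (prod_sdiff hs).symm
  constructor
  · intro hx hx1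
    refine ge_of_tendsto hprod ?_
    filter_upwards [eventually_ge_atTop s₀] with s hs
    obtain ⟨P, hP, he⟩ := hsplit s hs
    rw [he, mul_comm]
    exact mul_le_mul_of_nonneg_left (tail_ge hx hx1 P hP) hpos.le
  · intro hx hTx
    refine le_of_tendsto hprod ?_
    filter_upwards [eventually_ge_atTop s₀] with s hs
    obtain ⟨P, hP, he⟩ := hsplit s hs
    rw [he, mul_comm]
    exact mul_le_mul_of_nonneg_right (tail_le hT hx hTx P hP) hpos.le

/-- the singular series of an admissible set is at least a constant which depends on the size only -/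
theorem Sing_low (r : ℕ) : ∃ c : ℝ, 0 < c ∧ ∀ T : Finset ℤ, T.card = r → Adm T → c ≤ Sing T := by
  classical
  obtain ⟨z, hz⟩ : ∃ z : ℕ, z = 2 * r ^ 2 + 1 := ⟨_, rfl⟩
  have hfac : (0 : ℝ) < ∏ p ∈ Pr 0 z, (1 / (p : ℝ)) := prod_pos fun p hp => by
    have : (0 : ℝ) < p := by exact_mod_cast (Pr_prime hp).pos
    positivity
  refine ⟨1 / 2 * ∏ p ∈ Pr 0 z, (1 / (p : ℝ)), by positivity, ?_⟩
  intro T hr hT
  have h1 := (Sing_cmp hT (x := z)).1 (by rw [hr]; omega) (by omega)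
  refine le_trans ?_ h1
  apply mul_le_mul_of_nonneg_left _ (by norm_num)
  apply Finset.prod_le_prod
  · intro p _
    positivity
  · intro p hp
    exact loc_ge_inv hT (Pr_prime hp)

/-- the sieve product and the expected density -/
theorem VV_cmp (r : ℕ) : ∃ c C : ℝ, 0 < c ∧ 0 < C ∧ ∃ x₀ : ℕ, ∀ x : ℕ, x₀ ≤ x → ∀ T : Finset ℤ,
    T.card = r → Adm T → (∀ t ∈ T, |t| ≤ x) →
      c * gg T x ≤ VV (ZT T) 0 x ∧ VV (ZT T) 0 x ≤ C * gg T x := by
  classical
  obtain ⟨c₁, C₁, hc₁, hC₁, hV⟩ := V1_bounds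
  refine ⟨c₁ ^ r * (1 / 2 ^ (r * r ^ 2)), 2 * C₁ ^ r, by positivity, by positivity, 2 * r ^ 2 + 2, ?_⟩
  intro x hx T hr hT hTx
  obtain ⟨v1, v2⟩ := hV x (by omega)
  obtain ⟨s1, s2⟩ := Sing_cmp hT (x := x)
  have s1' := s1 (by rw [hr]; omega) (by omega)
  have s2' := s2 (by omega) hTx
  rw [hr] at s2'
  have hlx : 0 < Real.log x := Real.log_pos (by exact_mod_cast (show 1 < x by omega))
  have hV1 : 0 < V1 x := lt_of_lt_of_le (by positivity) v1
  have heq : VV (ZT T) 0 x = (∏ p ∈ Pr 0 x, loc T p) * V1 x ^ r := by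
    unfold VV V1
    rw [← prod_pow, ← prod_mul_distrib]
    apply prod_congr rfl
    intro p hp
    have hpp := Pr_prime hp
    have h1 := one_sub_pos hpp
    rw [card_ZT T hpp.pos]
    unfold loc
    rw [hr]
    field_simp
  have hpos : 0 < ∏ p ∈ Pr 0 x, loc T p := prod_pos fun p hp => loc_pos hT (Pr_prime hp)
  unfold gg
  rw [hr, heq]
  constructor
  · calc c₁ ^ r * (1 / 2 ^ (r * r ^ 2)) * (Sing T / Real.log x ^ r)
        = (Sing T / 2 ^ (r * r ^ 2)) * (c₁ / Real.log x) ^ r := by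
          rw [div_pow]
          ring
      _ ≤ (∏ p ∈ Pr 0 x, loc T p) * (V1 x) ^ r := by
          apply mul_le_mul
          · rw [div_le_iff₀ (by positivity), mul_comm]
            exact s2'
          · exact pow_le_pow_left₀ (by positivity) v1 r
          · positivity
          · exact hpos.le
  · calc (∏ p ∈ Pr 0 x, loc T p) * (V1 x) ^ r ≤ (2 * Sing T) * (C₁ / Real.log x) ^ r := by
          apply mul_le_mul
          · linarith
          · exact pow_le_pow_left₀ hV1.le v2 r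
          · positivity
          · linarith
      _ = 2 * C₁ ^ r * (Sing T / Real.log x ^ r) := by
          rw [div_pow]
          ring

end Pool.Agent.Y843.AC.HL
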