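import Pool.Agent.Y843.AC.HLA
import Pool.Agent.Y79.HS.Den

/-!
# Progressions in the sets of integers `n` with all `n + t`, `t ∈ T`, free of small primes
-/

set_option autoImplicit false

namespace Pool.Agent.Y843.AC.HL

open Finset Filter
open Pool.Agent.Y843.HS (Pr VV Pr_mem Pr_prime)
open Pool.Agent.Y843.HG (V1 V1_bounds VV_anti)

/-- the hypotheses on the set `T` -/
structure Tup (r x : ℕ) (T : Finset ℤ) : Prop where
  card : T.card = r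
  adm : Adm T
  size : ∀ t ∈ T, |t| ≤ x

/-- no `n + t`, `t ∈ T`, has a prime factor `≤ x ^ (1 / u)` -/
def Rough (u x : ℕ) (T : Finset ℤ) (n : ℕ) : Prop :=
  ∀ q : ℕ, q.Prime → (q : ℝ) ≤ (x : ℝ) ^ (1 / (u : ℝ)) → ∀ t ∈ T, ¬ (q : ℤ) ∣ n + t

theorem ZT_ok {r x : ℕ} {T : Finset ℤ} (hT : Tup r x T) {p : ℕ} (hp : p.Prime) :
    (ZT T p).card ≤ r ∧ (ZT T p).card < p ∧ ∀ c ∈ ZT T p, c < p := by
  rw [card_ZT T hp.pos]
  exact ⟨(nu_le T p).trans hT.card.le, hT.adm p hp, ZT_lt hp.pos⟩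

theorem gg_ge (r : ℕ) : ∃ c : ℝ, 0 < c ∧ ∀ x : ℕ, 3 ≤ x → ∀ T : Finset ℤ, Tup r x T →
    c / Real.log x ^ r ≤ gg T x := by
  obtain ⟨c, hc, h⟩ := Sing_low r
  refine ⟨c, hc, fun x hx T hT => ?_⟩
  have hlx : 0 < Real.log x := Real.log_pos (by exact_mod_cast (show 1 < x by omega))
  unfold gg
  rw [hT.card]
  exact div_le_div_of_nonneg_right (h T hT.card hT.adm) (by positivity)

theorem gg_pos {r x : ℕ} (hx : 3 ≤ x) {T : Finset ℤ} (hT : Tup r x T) : 0 < gg T x := by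
  obtain ⟨c, hc, h⟩ := gg_ge r
  have hlx : 0 < Real.log x := Real.log_pos (by exact_mod_cast (show 1 < x by omega))
  exact lt_of_lt_of_le (by positivity) (h x hx T hT)

theorem V_up (r u : ℕ) (hu : 1 ≤ u) : ∃ C : ℝ, 0 < C ∧ ∃ x₀ : ℕ, ∀ x : ℕ, x₀ ≤ x → ∀ T : Finset ℤ,
    Tup r x T → VV (ZT T) 0 ⌊(x : ℝ) ^ (1 / (u : ℝ))⌋₊ ≤ C * gg T x := by
  obtain ⟨c, C, hc, hC, x₁, h1⟩ := VV_cmp r
  obtain ⟨c₂, hc₂, R₀, h2⟩ := Pool.Agent.Y79.HS.den r (2 * u)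
  have hu0 : (0 : ℝ) < u := by exact_mod_cast hu
  have e := ((tendsto_rpow_atTop (show (0 : ℝ) < 1 / u by positivity)).comp
    (tendsto_natCast_atTop_atTop (R := ℝ))).eventually (eventually_ge_atTop ((R₀ : ℝ) + 4))
  rw [eventually_atTop] at e
  obtain ⟨x₂, h3⟩ := e
  refine ⟨C / c₂, by positivity, max x₁ (max x₂ 3), ?_⟩
  intro x hx T hT
  have hx1 : x₁ ≤ x := (le_max_left _ _).trans hx
  have hx2 : x₂ ≤ x := (le_max_left _ _).trans ((le_max_right _ _).trans hx)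
  have hx3 : 3 ≤ x := (le_max_right _ _).trans ((le_max_right _ _).trans hx)
  have hxr : (1 : ℝ) ≤ x := by exact_mod_cast (show 1 ≤ x by omega)
  have h4 : (R₀ : ℝ) + 4 ≤ (x : ℝ) ^ (1 / (u : ℝ)) := h3 x hx2
  obtain ⟨w, hw⟩ : ∃ w : ℝ, w = (x : ℝ) ^ (1 / (u : ℝ)) := ⟨_, rfl⟩
  rw [← hw] at h4 ⊢
  have hR0 : (0 : ℝ) ≤ R₀ := Nat.cast_nonneg _
  have hw4 : 4 ≤ w := by linarith
  have hwu : w ^ u = x := by
    rw [hw, ← Real.rpow_natCast, ← Real.rpow_mul (by positivity), one_div, inv_mul_cancel₀ hu0.ne', Real.rpow_one]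
  have hY : w / 2 ≤ (⌊w⌋₊ : ℝ) := by
    have := Nat.lt_floor_add_one w
    linarith
  have hYR : R₀ ≤ ⌊w⌋₊ := Nat.le_floor (by linarith)
  have hYx : ⌊w⌋₊ ≤ x := by
    have h5 : w ≤ x := by
      rw [← hwu]
      exact le_self_pow₀ (by linarith) (by omega)
    have := Nat.floor_le_floor h5
    rwa [Nat.floor_natCast] at this
  have hpow : x ≤ ⌊w⌋₊ ^ (2 * u) := by
    have h5 : (x : ℝ) ≤ (⌊w⌋₊ : ℝ) ^ (2 * u) := by
      calc (x : ℝ) = w ^ u := hwu.symm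
        _ ≤ ((w / 2) ^ 2) ^ u := by
            apply pow_le_pow_left₀ (by linarith)
            nlinarith
        _ = (w / 2) ^ (2 * u) := by rw [pow_mul]
        _ ≤ _ := pow_le_pow_left₀ (by linarith) hY _
    exact_mod_cast h5
  have h5 : c₂ ≤ VV (ZT T) ⌊w⌋₊ x := h2 ⌊w⌋₊ x hYR hpow (ZT T) (fun p hp => by
    have := ZT_ok hT (Pr_prime hp)
    exact ⟨this.1, this.2.2⟩)
  have h6 := Pool.Agent.Y843.HS.VV_split (ZT T) (Nat.zero_le ⌊w⌋₊) hYx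
  have h7 := (h1 x hx1 T hT.card hT.adm hT.size).2
  have h8 : 0 ≤ VV (ZT T) 0 ⌊w⌋₊ := by
    unfold VV
    apply prod_nonneg
    intro p hp
    have h9 := ZT_ok hT (Pr_prime hp)
    have h10 : (0 : ℝ) < p := by exact_mod_cast (Pr_prime hp).pos
    rw [sub_nonneg, div_le_one h10]
    exact_mod_cast h9.2.1.le
  rw [div_mul_eq_mul_div, le_div_iff₀ hc₂]
  calc VV (ZT T) 0 ⌊w⌋₊ * c₂ ≤ VV (ZT T) 0 ⌊w⌋₊ * VV (ZT T) ⌊w⌋₊ x := mul_le_mul_of_nonneg_left h5 h8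
    _ = VV (ZT T) 0 x := h6
    _ ≤ _ := h7

theorem V_dn (r : ℕ) : ∃ c : ℝ, 0 < c ∧ ∃ x₀ : ℕ, ∀ x : ℕ, x₀ ≤ x → ∀ T : Finset ℤ, Tup r x T →
    ∀ Y : ℕ, Y ≤ x → c * gg T x ≤ VV (ZT T) 0 Y := by
  obtain ⟨c, C, hc, hC, x₁, h1⟩ := VV_cmp r
  refine ⟨c, hc, x₁, fun x hx T hT Y hY => ?_⟩
  refine (h1 x hx T hT.card hT.adm hT.size).1.trans ?_
  exact VV_anti hY (fun p hp => (ZT_ok hT (Pr_prime hp)).2.2)

/-- **rough tuples in windows** -/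
theorem core (r k u : ℕ) (hk : 1 ≤ k) (hu : 1 ≤ u) {θ : ℝ} (hθ : 0 < θ) :
    (∃ C : ℝ, 0 < C ∧ ∃ B x₀ : ℕ, ∀ x : ℕ, x₀ ≤ x → ∀ T : Finset ℤ, Tup r x T → ∀ y X D : ℕ,
      (x : ℝ) ^ θ ≤ X → X ≤ x →
      Real.log x ^ B ≤ D → ∀ S : Finset ℕ, S ⊆ Ioc y (y + X) → (∀ m ∈ S, Rough u x T m) →
      ((APs k D S).card : ℝ) ≤ C * (X * D * gg T x ^ k)) ∧
    (∀ δ : ℝ, 0 < δ → ∃ c : ℝ, 0 < c ∧ ∃ B x₀ : ℕ, ∀ x : ℕ, x₀ ≤ x → ∀ T : Finset ℤ, Tup r x T →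
      ∀ y X D : ℕ,
      (x : ℝ) ^ θ ≤ X → X ≤ x → Real.log x ^ B ≤ D → D ≤ X → ∀ S : Finset ℕ, S ⊆ Ioc y (y + X) →
      (∀ m ∈ S, Rough u x T m) →
      (δ * (X * gg T x) ≤ S.card → c * (X * D * gg T x ^ k) ≤ ((APs k D S).card : ℝ)) ∧
      (δ * (X * D * gg T x ^ k) ≤ ((APs k D S).card : ℝ) → c * (X * gg T x) ≤ S.card)) := by
  have hu0 : (0 : ℝ) < u := by exact_mod_cast hu
  set r' := max 1 ⌈(u : ℝ) / θ⌉₊ with hr'
  have hr'0 : (0 : ℝ) < r' := by exact_mod_cast (show 0 < r' by omega)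
  have hr'1 : (u : ℝ) / θ ≤ r' := (Nat.le_ceil _).trans (by exact_mod_cast le_max_right _ _)
  obtain ⟨C₁, hC₁, n₁, hn₁⟩ := V_up r r' (le_max_left _ _)
  obtain ⟨c₁, hc₁, n₂, hn₂⟩ := V_dn r
  -- common facts
  have key : ∀ X₀ : ℕ, ∃ n₃ : ℕ, ∀ n : ℕ, n₃ ≤ n → ∀ T : Finset ℤ, Tup r n T → ∀ X : ℕ,
      (n : ℝ) ^ θ ≤ X → X ≤ n →
      X₀ ≤ X ∧ (1 : ℝ) ≤ X ∧ OK r (1 / (u : ℝ)) X (ZT T) ∧
      (∀ m : ℕ, Rough u n T m → Av (1 / (u : ℝ)) X (ZT T) m) ∧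
      VV (ZT T) 0 ⌊(X : ℝ) ^ (1 / (u : ℝ))⌋₊ ≤ C₁ * gg T n ∧
      c₁ * gg T n ≤ VV (ZT T) 0 ⌊(X : ℝ) ^ (1 / (u : ℝ))⌋₊ ∧ 0 < gg T n ∧
      ∀ B : ℕ, ∀ D : ℕ, Real.log n ^ B ≤ D → Real.log X ^ B ≤ D := by
    intro X₀
    have h2 := ((tendsto_rpow_atTop hθ).comp (tendsto_natCast_atTop_atTop (R := ℝ))).eventually
      (eventually_ge_atTop (X₀ : ℝ))
    rw [eventually_atTop] at h2
    obtain ⟨n₄, hn₄⟩ := h2
    refine ⟨max (max n₁ n₂) (max n₄ 3), ?_⟩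
    intro n hn T hT X hX hXn
    have hnn₁ : n₁ ≤ n := (le_max_left _ _).trans ((le_max_left _ _).trans hn)
    have hnn₂ : n₂ ≤ n := (le_max_right _ _).trans ((le_max_left _ _).trans hn)
    have hnn₄ : n₄ ≤ n := (le_max_left _ _).trans ((le_max_right _ _).trans hn)
    have hn3 : 3 ≤ n := (le_max_right _ _).trans ((le_max_right _ _).trans hn)
    have hn0 : (0 : ℝ) < n := by exact_mod_cast (show 0 < n by omega)
    have hn1 : (1 : ℝ) ≤ n := by exact_mod_cast (show 1 ≤ n by omega)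
    have h3 : (X₀ : ℝ) ≤ (n : ℝ) ^ θ := hn₄ n hnn₄
    have hX₀ : X₀ ≤ X := by exact_mod_cast h3.trans hX
    have hnθ1 : 1 ≤ (n : ℝ) ^ θ := Real.one_le_rpow hn1 hθ.le
    have hX1 : (1 : ℝ) ≤ X := hnθ1.trans hX
    have hX0 : (0 : ℝ) < X := by linarith
    have hXnr : (X : ℝ) ≤ n := by exact_mod_cast hXn
    have hκ : (X : ℝ) ^ (1 / (u : ℝ)) ≤ (n : ℝ) ^ (1 / (u : ℝ)) :=
      Real.rpow_le_rpow hX0.le hXnr (by positivity)
    have hZ : ∀ p : ℕ, p.Prime → (ZT T p).card ≤ r ∧ (ZT T p).card < p ∧ ∀ c ∈ ZT T p, c < p :=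
      fun p hp => ZT_ok hT hp
    refine ⟨hX₀, hX1, fun p hp _ => hZ p hp, ?_, ?_, ?_, gg_pos hn3 hT, ?_⟩
    · intro m hm p hp hpX hcon
      rw [mem_ZT hp.pos] at hcon
      obtain ⟨t, ht, hd⟩ := hcon
      exact hm p hp (hpX.trans hκ) t ht hd
    · have h6 : (n : ℝ) ^ (1 / (r' : ℝ)) ≤ (X : ℝ) ^ (1 / (u : ℝ)) := by
        calc (n : ℝ) ^ (1 / (r' : ℝ)) ≤ (n : ℝ) ^ (θ * (1 / (u : ℝ))) := by
              apply Real.rpow_le_rpow_of_exponent_le hn1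
              rw [mul_one_div, div_le_div_iff₀ hr'0 hu0]
              rw [div_le_iff₀ hθ] at hr'1
              linarith
          _ = ((n : ℝ) ^ θ) ^ (1 / (u : ℝ)) := Real.rpow_mul hn0.le _ _
          _ ≤ (X : ℝ) ^ (1 / (u : ℝ)) := Real.rpow_le_rpow (by positivity) hX (by positivity)
      have h7 : VV (ZT T) 0 ⌊(X : ℝ) ^ (1 / (u : ℝ))⌋₊ ≤ VV (ZT T) 0 ⌊(n : ℝ) ^ (1 / (r' : ℝ))⌋₊ :=
        VV_anti (Nat.floor_le_floor h6) (fun p hp => (hZ p (Pr_prime hp)).2.2)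
      exact h7.trans (hn₁ n hnn₁ T hT)
    · apply hn₂ n hnn₂ T hT
      have h8 : (X : ℝ) ^ (1 / (u : ℝ)) ≤ X := by
        calc (X : ℝ) ^ (1 / (u : ℝ)) ≤ (X : ℝ) ^ (1 : ℝ) := by
              apply Real.rpow_le_rpow_of_exponent_le hX1
              rw [div_le_one hu0]
              exact_mod_cast hu
          _ = X := Real.rpow_one _
      have h9 := Nat.floor_le_floor h8
      rw [Nat.floor_natCast] at h9
      omega
    · intro B D hD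
      exact (pow_le_pow_left₀ (Real.log_nonneg hX1) (Real.log_le_log hX0 hXnr) B).trans hD
  constructor
  · obtain ⟨C, hC, B, X₀, h0⟩ := upa_all r k (1 / (u : ℝ)) hk (by positivity)
    obtain ⟨n₃, hn₃⟩ := key X₀
    refine ⟨C * C₁ ^ k, by positivity, B, n₃, ?_⟩
    intro n hn T hT y X D hX hXn hD S hS hR
    obtain ⟨k1, k2, k3, k4, k5, k6, k7, k8⟩ := hn₃ n hn T hT X hX hXn
    have h1 := h0 X y D k1 (k8 B D hD) (ZT T) k3 S hS (fun m hm => k4 m (hR m hm))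
    have h2 : 0 ≤ VV (ZT T) 0 ⌊(X : ℝ) ^ (1 / (u : ℝ))⌋₊ := le_trans (by positivity) k6
    have h3 := pow_le_pow_left₀ h2 k5 k
    calc ((APs k D S).card : ℝ) ≤ C * X * D * VV (ZT T) 0 ⌊(X : ℝ) ^ (1 / (u : ℝ))⌋₊ ^ k := h1
      _ ≤ C * X * D * (C₁ * gg T n) ^ k := mul_le_mul_of_nonneg_left h3 (by positivity)
      _ = C * C₁ ^ k * (X * D * gg T n ^ k) := by rw [mul_pow]; ring
  · intro δ hδ
    obtain ⟨ca, hca, Ba, Xa, ha⟩ := cnt_all r k (1 / (u : ℝ)) (δ / C₁) hk (by positivity) (by positivity)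
    obtain ⟨cb, hcb, Bb, Xb, hb⟩ := conv_all r k (1 / (u : ℝ)) (δ / C₁ ^ k) hk (by positivity) (by positivity)
    obtain ⟨n₃, hn₃⟩ := key (max Xa Xb)
    refine ⟨min (ca * c₁ ^ k) (cb * c₁), lt_min (by positivity) (by positivity), max Ba Bb, max n₃ 3, ?_⟩
    intro n hn T hT y X D hX hXn hD hDX S hS hR
    obtain ⟨k1, k2, k3, k4, k5, k6, k7, k8⟩ := hn₃ n ((le_max_left _ _).trans hn) T hT X hX hXn
    have hn3 : 3 ≤ n := (le_max_right _ _).trans hn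
    have hlog1 : 1 ≤ Real.log n := by
      have h1 : Real.exp 1 ≤ n := by
        have h2 : (3 : ℝ) ≤ n := by exact_mod_cast hn3
        linarith [Real.exp_one_lt_d9]
      rw [← Real.log_exp 1]
      exact Real.log_le_log (Real.exp_pos 1) h1
    have hDa : Real.log X ^ Ba ≤ D := k8 Ba D ((pow_le_pow_right₀ hlog1 (le_max_left _ _)).trans hD)
    have hDb : Real.log X ^ Bb ≤ D := k8 Bb D ((pow_le_pow_right₀ hlog1 (le_max_right _ _)).trans hD)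
    have h2 : 0 ≤ VV (ZT T) 0 ⌊(X : ℝ) ^ (1 / (u : ℝ))⌋₊ := le_trans (by positivity) k6
    constructor
    · intro h3
      have h4 := ha X y D ((le_max_left _ _).trans k1) hDa hDX (ZT T) k3 S hS
        (fun m hm => k4 m (hR m hm)) (by
          refine le_trans ?_ h3
          calc δ / C₁ * X * VV (ZT T) 0 ⌊(X : ℝ) ^ (1 / (u : ℝ))⌋₊ ≤ δ / C₁ * X * (C₁ * gg T n) :=
                mul_le_mul_of_nonneg_left k5 (by positivity)
            _ = δ * (X * gg T n) := by field_simp)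
      refine le_trans ?_ h4
      have h5 := pow_le_pow_left₀ (show 0 ≤ c₁ * gg T n by positivity) k6 k
      calc min (ca * c₁ ^ k) (cb * c₁) * (X * D * gg T n ^ k) ≤ ca * c₁ ^ k * (X * D * gg T n ^ k) :=
            mul_le_mul_of_nonneg_right (min_le_left _ _) (by positivity)
        _ = ca * X * D * (c₁ * gg T n) ^ k := by rw [mul_pow]; ring
        _ ≤ _ := mul_le_mul_of_nonneg_left h5 (by positivity)
    · intro h3
      have h6 := pow_le_pow_left₀ h2 k5 k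
      have h4 := hb X y D ((le_max_right _ _).trans k1) hDb (ZT T) k3 S hS
        (fun m hm => k4 m (hR m hm)) (by
          refine le_trans ?_ h3
          calc δ / C₁ ^ k * X * D * VV (ZT T) 0 ⌊(X : ℝ) ^ (1 / (u : ℝ))⌋₊ ^ k
              ≤ δ / C₁ ^ k * X * D * (C₁ * gg T n) ^ k :=
                mul_le_mul_of_nonneg_left h6 (by positivity)
            _ = δ * (X * D * gg T n ^ k) := by rw [mul_pow]; field_simp)
      refine le_trans ?_ h4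
      calc min (ca * c₁ ^ k) (cb * c₁) * (X * gg T n) ≤ cb * c₁ * (X * gg T n) :=
            mul_le_mul_of_nonneg_right (min_le_right _ _) (by positivity)
        _ = cb * X * (c₁ * gg T n) := by ring
        _ ≤ _ := mul_le_mul_of_nonneg_left k6 (by positivity)

end Pool.Agent.Y843.AC.HL
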