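import Pool.Agent.Y843.AC.HLB

/-!
# Tuples of primes in windows: progressions
-/

set_option autoImplicit false

namespace Pool.Agent.Y843.AC.HL

open Finset Filter
open Pool.Agent.Y843.HS (Pr VV Pr_mem Pr_prime)

/-- all `|m + t|` are primes, or no `m + t` has a prime factor `≤ x ^ (1 / u)` -/
def Tp (u x : ℕ) (T : Finset ℤ) (m : ℕ) : Prop := (∀ t ∈ T, ((m : ℤ) + t).natAbs.Prime) ∨ Rough u x T m

theorem log_small (A : ℝ) (L : ℕ) {η : ℝ} (hη : 0 < η) : ∃ x₀ : ℕ, ∀ x : ℕ, x₀ ≤ x →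
    A * Real.log x ^ L ≤ (x : ℝ) ^ η := by
  have h1 := (isLittleO_log_rpow_rpow_atTop (L : ℝ) hη).bound (show (0 : ℝ) < 1 / (|A| + 1) by positivity)
  have h2 := (tendsto_natCast_atTop_atTop (R := ℝ)).eventually (h1.and (eventually_ge_atTop (1 : ℝ)))
  rw [eventually_atTop] at h2
  obtain ⟨x₀, h⟩ := h2
  refine ⟨x₀, fun x hx => ?_⟩
  obtain ⟨h3, h4⟩ := h x hx
  have hl : 0 ≤ Real.log x := Real.log_nonneg h4
  rw [Real.rpow_natCast, Real.norm_of_nonneg (by positivity), Real.norm_of_nonneg (by positivity)] at h3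
  have hA : 0 < |A| + 1 := by positivity
  calc A * Real.log x ^ L ≤ (|A| + 1) * Real.log x ^ L := by
        apply mul_le_mul_of_nonneg_right _ (by positivity)
        linarith [le_abs_self A]
    _ ≤ (|A| + 1) * (1 / (|A| + 1) * (x : ℝ) ^ η) := mul_le_mul_of_nonneg_left h3 hA.le
    _ = _ := by field_simp

theorem log_one {n : ℕ} (hn : 3 ≤ n) : 1 ≤ Real.log n := by
  have h1 : Real.exp 1 ≤ n := by
    have h2 : (3 : ℝ) ≤ n := by exact_mod_cast hn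
    linarith [Real.exp_one_lt_d9]
  rw [← Real.log_exp 1]
  exact Real.log_le_log (Real.exp_pos 1) h1

/-- the exceptional small elements are negligible -/
theorem small_part (r k u : ℕ) (hu : 1 ≤ u) {θ : ℝ} (hθ : 0 < θ) : ∃ u' : ℕ, 1 ≤ u' ∧
    ∀ η : ℝ, 0 < η → ∃ x₀ : ℕ, ∀ x : ℕ, x₀ ≤ x → ∀ T : Finset ℤ, Tup r x T → ∀ y X : ℕ,
    (x : ℝ) ^ θ ≤ X →
    ∀ S : Finset ℕ, S ⊆ Ioc y (y + X) → (∀ m ∈ S, Tp u x T m) →
    ∃ S₁ S₂ : Finset ℕ, S₁ ⊆ S ∧ S ⊆ S₁ ∪ S₂ ∧ (∀ m ∈ S₁, Rough u' x T m) ∧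
      (S₂.card : ℝ) ≤ η * (X * gg T x) ∧ ((k * S₂.card : ℕ) : ℝ) ≤ η * (X * gg T x ^ k) := by
  classical
  set u' := max (max u 1) ⌈2 / θ⌉₊ with hu'
  have hu1 : 1 ≤ u' := (le_max_right _ _).trans (le_max_left _ _)
  have huu : u ≤ u' := (le_max_left _ _).trans (le_max_left _ _)
  have hu0 : (0 : ℝ) < u' := by exact_mod_cast hu1
  have hu2 : 2 / θ ≤ u' := (Nat.le_ceil _).trans (by exact_mod_cast le_max_right _ _)
  refine ⟨u', hu1, fun η hη => ?_⟩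
  obtain ⟨c₀, hc₀, hg⟩ := gg_ge r
  set c₁ := min c₀ 1 with hc₁
  have hc₁0 : 0 < c₁ := lt_min hc₀ one_pos
  have hc₁1 : c₁ ≤ 1 := min_le_right _ _
  obtain ⟨n₂, hn₂⟩ := log_small ((k + 1) * (3 * r) / (η * c₁ ^ (k + 1))) (r * (k + 1))
    (show 0 < θ / 2 by positivity)
  refine ⟨max n₂ 3, ?_⟩
  intro n hn T hT y X hX S hS hSp
  have hnn₂ : n₂ ≤ n := (le_max_left _ _).trans hn
  have hn3 : 3 ≤ n := (le_max_right _ _).trans hn
  have hn0 : (0 : ℝ) < n := by exact_mod_cast (show 0 < n by omega)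
  have hn1 : (1 : ℝ) ≤ n := by exact_mod_cast (show 1 ≤ n by omega)
  have hlog1 := log_one hn3
  set w := (n : ℝ) ^ (1 / (u' : ℝ)) with hw
  have hw0 : 0 ≤ w := by positivity
  have hw1 : 1 ≤ w := Real.one_le_rpow hn1 (by positivity)
  have hwθ : w ≤ (n : ℝ) ^ (θ / 2) := by
    apply Real.rpow_le_rpow_of_exponent_le hn1
    rw [div_le_iff₀ hu0]
    rw [div_le_iff₀ hθ] at hu2
    linarith
  set S₁ := S.filter (fun m : ℕ => ∀ t ∈ T, w < ((((m : ℤ) + t).natAbs : ℕ) : ℝ)) with hS₁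
  set S₂ := S.filter (fun m : ℕ => ¬ ∀ t ∈ T, w < ((((m : ℤ) + t).natAbs : ℕ) : ℝ)) with hS₂
  have hcard : (S₂.card : ℝ) ≤ 3 * r * (n : ℝ) ^ (θ / 2) := by
    have h1 : S₂ ⊆ T.biUnion (fun t => (Icc (-(⌊w⌋₊ : ℤ)) ⌊w⌋₊).image (fun v : ℤ => (v - t).toNat)) := by
      intro m hm
      rw [hS₂, mem_filter] at hm
      obtain ⟨_, hm2⟩ := hm
      push Not at hm2
      obtain ⟨t, ht, hmt⟩ := hm2
      rw [mem_biUnion]
      refine ⟨t, ht, mem_image.2 ⟨(m : ℤ) + t, ?_, ?_⟩⟩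
      · have h2 : ((m : ℤ) + t).natAbs ≤ ⌊w⌋₊ := Nat.le_floor hmt
        rw [mem_Icc]
        omega
      · omega
    have h2 : S₂.card ≤ r * (2 * ⌊w⌋₊ + 1) := by
      refine (card_le_card h1).trans (card_biUnion_le.trans ?_)
      calc ∑ t ∈ T, ((Icc (-(⌊w⌋₊ : ℤ)) ⌊w⌋₊).image (fun v : ℤ => (v - t).toNat)).card
          ≤ ∑ _t ∈ T, (2 * ⌊w⌋₊ + 1) := by
            apply Finset.sum_le_sum
            intro t _
            refine card_image_le.trans ?_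
            rw [Int.card_Icc]
            omega
        _ = r * (2 * ⌊w⌋₊ + 1) := by rw [Finset.sum_const, hT.card, smul_eq_mul]
    have h3 : (S₂.card : ℝ) ≤ r * (2 * ⌊w⌋₊ + 1) := by exact_mod_cast h2
    have h4 := Nat.floor_le hw0
    have h5 : (r : ℝ) * (2 * ⌊w⌋₊ + 1) ≤ r * (3 * (n : ℝ) ^ (θ / 2)) :=
      mul_le_mul_of_nonneg_left (by linarith) (Nat.cast_nonneg _)
    linarith
  have hgg := hg n hn3 T hT
  have hgg0 := gg_pos hn3 hT
  have hmain := hn₂ n hnn₂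
  have hpow : ∀ j : ℕ, j ≤ k + 1 → (k + 1) * (S₂.card : ℝ) ≤ η * (X * gg T n ^ j) := by
    intro j hj
    have hq0 : 0 < c₁ / Real.log (n : ℝ) ^ r := by positivity
    have hq1 : c₁ / Real.log (n : ℝ) ^ r ≤ 1 := by
      rw [div_le_one (by positivity)]
      exact hc₁1.trans (one_le_pow₀ hlog1)
    have h1 : (c₁ / Real.log n ^ r) ^ j ≤ gg T n ^ j := by
      apply pow_le_pow_left₀ hq0.le
      refine le_trans ?_ hgg
      exact div_le_div_of_nonneg_right (min_le_left _ _) (by positivity)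
    have h4 : (c₁ / Real.log n ^ r) ^ (k + 1) ≤ gg T n ^ j :=
      (pow_le_pow_of_le_one hq0.le hq1 hj).trans h1
    have h5 : (k + 1) * (S₂.card : ℝ) ≤ (k + 1) * (3 * r * (n : ℝ) ^ (θ / 2)) :=
      mul_le_mul_of_nonneg_left hcard (by positivity)
    have h6 : (k + 1) * (3 * r * (n : ℝ) ^ (θ / 2)) ≤ η * (n : ℝ) ^ θ * (c₁ / Real.log n ^ r) ^ (k + 1) := by
      rw [div_pow, ← pow_mul, ← mul_div_assoc, le_div_iff₀ (by positivity)]
      have h7 : (n : ℝ) ^ θ = (n : ℝ) ^ (θ / 2) * (n : ℝ) ^ (θ / 2) := by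
        rw [← Real.rpow_add hn0]
        congr 1
        ring
      rw [div_mul_eq_mul_div, div_le_iff₀ (by positivity)] at hmain
      calc (k + 1) * (3 * r * (n : ℝ) ^ (θ / 2)) * Real.log n ^ (r * (k + 1))
          = (n : ℝ) ^ (θ / 2) * ((k + 1) * (3 * r) * Real.log n ^ (r * (k + 1))) := by ring
        _ ≤ (n : ℝ) ^ (θ / 2) * ((n : ℝ) ^ (θ / 2) * (η * c₁ ^ (k + 1))) :=
            mul_le_mul_of_nonneg_left hmain (by positivity)
        _ = η * (n : ℝ) ^ θ * c₁ ^ (k + 1) := by rw [h7]; ring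
    calc (k + 1) * (S₂.card : ℝ) ≤ η * (n : ℝ) ^ θ * (c₁ / Real.log n ^ r) ^ (k + 1) := h5.trans h6
      _ ≤ η * X * (c₁ / Real.log n ^ r) ^ (k + 1) := by
          apply mul_le_mul_of_nonneg_right _ (by positivity)
          exact mul_le_mul_of_nonneg_left hX hη.le
      _ ≤ η * X * gg T n ^ j := mul_le_mul_of_nonneg_left h4 (by positivity)
      _ = η * (X * gg T n ^ j) := by ring
  refine ⟨S₁, S₂, filter_subset _ _, ?_, ?_, ?_, ?_⟩
  · intro p hp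
    rw [mem_union, hS₁, hS₂, mem_filter, mem_filter]
    by_cases h3 : ∀ t ∈ T, w < ((((p : ℤ) + t).natAbs : ℕ) : ℝ)
    · exact Or.inl ⟨hp, h3⟩
    · exact Or.inr ⟨hp, h3⟩
  · intro m hm q hq hqw t ht hd
    rw [hS₁, mem_filter] at hm
    obtain ⟨hmS, hm1⟩ := hm
    rcases hSp m hmS with hpr | hR
    · have h1 : q ∣ ((m : ℤ) + t).natAbs := Int.natCast_dvd.1 hd
      have h2 := (Nat.prime_dvd_prime_iff_eq hq (hpr t ht)).1 h1
      have h3 := hm1 t ht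
      rw [← h2] at h3
      linarith
    · refine hR q hq ?_ t ht hd
      refine hqw.trans (Real.rpow_le_rpow_of_exponent_le hn1 ?_)
      apply one_div_le_one_div_of_le (by exact_mod_cast hu)
      exact_mod_cast huu
  · have h1 := hpow 1 (by omega)
    rw [pow_one] at h1
    have h2 : (0 : ℝ) ≤ S₂.card := Nat.cast_nonneg _
    have h3 : (0 : ℝ) ≤ k * S₂.card := by positivity
    linarith
  · have h1 := hpow k (by omega)
    push_cast
    have h2 : (0 : ℝ) ≤ S₂.card := Nat.cast_nonneg _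
    linarith

/-- **tuples in windows, upper bound** -/
theorem rep_up (r k u : ℕ) (hk : 1 ≤ k) (hu : 1 ≤ u) {θ : ℝ} (hθ : 0 < θ) :
    ∃ C : ℝ, 0 < C ∧ ∃ B x₀ : ℕ, ∀ x : ℕ, x₀ ≤ x → ∀ T : Finset ℤ, Tup r x T → ∀ y X D : ℕ,
      (x : ℝ) ^ θ ≤ X → X ≤ x →
      Real.log x ^ B ≤ D → ∀ S : Finset ℕ, S ⊆ Ioc y (y + X) → (∀ m ∈ S, Tp u x T m) →
      ((APs k D S).card : ℝ) ≤ C * (X * D * gg T x ^ k) := by
  obtain ⟨u', hu', hsp⟩ := small_part r k u hu hθ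
  obtain ⟨⟨C, hC, B, n₁, h1⟩, -⟩ := core r k u' hk hu' hθ
  obtain ⟨n₂, h2⟩ := hsp 1 one_pos
  refine ⟨C + 1, by positivity, B, max n₁ n₂, ?_⟩
  intro n hn T hT y X D hX hXn hD S hS hR
  obtain ⟨S₁, S₂, s1, s2, s3, s4, s5⟩ := h2 n ((le_max_right _ _).trans hn) T hT y X hX S hS hR
  have h3 := h1 n ((le_max_left _ _).trans hn) T hT y X D hX hXn hD S₁ (s1.trans hS) s3
  have h4 : ((APs k D S).card : ℝ) ≤ (APs k D S₁).card + ((k * S₂.card : ℕ) : ℝ) * D := by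
    have := APs_split hk (D := D) s2
    rw [← mul_assoc] at this
    exact_mod_cast this
  have h5 : ((k * S₂.card : ℕ) : ℝ) * D ≤ 1 * (X * gg T n ^ k) * D :=
    mul_le_mul_of_nonneg_right s5 (Nat.cast_nonneg _)
  calc ((APs k D S).card : ℝ) ≤ C * (X * D * gg T n ^ k) + 1 * (X * gg T n ^ k) * D := by linarith
    _ = (C + 1) * (X * D * gg T n ^ k) := by ring

/-- **tuples in windows, lower bounds** -/
theorem rep_dn (r k u : ℕ) (hk : 1 ≤ k) (hu : 1 ≤ u) {θ : ℝ} (hθ : 0 < θ) {δ : ℝ} (hδ : 0 < δ) :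
    ∃ c : ℝ, 0 < c ∧ ∃ B x₀ : ℕ, ∀ x : ℕ, x₀ ≤ x → ∀ T : Finset ℤ, Tup r x T → ∀ y X D : ℕ,
      (x : ℝ) ^ θ ≤ X → X ≤ x → Real.log x ^ B ≤ D → D ≤ X → ∀ S : Finset ℕ, S ⊆ Ioc y (y + X) →
      (∀ m ∈ S, Tp u x T m) →
      (δ * (X * gg T x) ≤ S.card → c * (X * D * gg T x ^ k) ≤ ((APs k D S).card : ℝ)) ∧
      (δ * (X * D * gg T x ^ k) ≤ ((APs k D S).card : ℝ) → c * (X * gg T x) ≤ S.card) := by
  obtain ⟨u', hu', hsp⟩ := small_part r k u hu hθ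
  obtain ⟨-, hdn⟩ := core r k u' hk hu' hθ
  obtain ⟨c, hc, B, n₁, h1⟩ := hdn (δ / 2) (by positivity)
  obtain ⟨n₂, h2⟩ := hsp (δ / 2) (by positivity)
  refine ⟨c, hc, B, max n₁ n₂, ?_⟩
  intro n hn T hT y X D hX hXn hD hDX S hS hR
  obtain ⟨S₁, S₂, s1, s2, s3, s4, s5⟩ := h2 n ((le_max_right _ _).trans hn) T hT y X hX S hS hR
  obtain ⟨h3, h3'⟩ := h1 n ((le_max_left _ _).trans hn) T hT y X D hX hXn hD hDX S₁
    (s1.trans hS) s3
  constructor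
  · intro h4
    have h5 : (S.card : ℝ) ≤ S₁.card + S₂.card := by
      exact_mod_cast (card_le_card s2).trans (card_union_le _ _)
    have h6 := h3 (by linarith)
    refine h6.trans ?_
    exact_mod_cast card_le_card (APs_mono s1)
  · intro h4
    have h5 : ((APs k D S).card : ℝ) ≤ (APs k D S₁).card + ((k * S₂.card : ℕ) : ℝ) * D := by
      have := APs_split hk (D := D) s2
      rw [← mul_assoc] at this
      exact_mod_cast this
    have h6 : ((k * S₂.card : ℕ) : ℝ) * D ≤ δ / 2 * (X * gg T n ^ k) * D :=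
      mul_le_mul_of_nonneg_right s5 (Nat.cast_nonneg _)
    have h7 : δ / 2 * (X * gg T n ^ k) * D = δ / 2 * (X * D * gg T n ^ k) := by ring
    have h8 := h3' (by linarith)
    refine h8.trans ?_
    exact_mod_cast card_le_card s1

end Pool.Agent.Y843.AC.HL
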