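import Pool.Agent.Y843.AC.HLC

/-!
# Chen's theorem for tuples
-/

set_option autoImplicit false

namespace Pool.Agent.Y843.AC.HL

open Finset Filter
open Pool.Agent.Y843.HS (Pr VV Pr_mem Pr_prime)

/-- `k ≠ 0` is up to the sign a product of at most `j` primes, all of them larger than `w` -/
def Alm (j : ℕ) (w : ℝ) (k : ℤ) : Prop :=
  k ≠ 0 ∧ k.natAbs.primeFactorsList.length ≤ j ∧ ∀ q : ℕ, q.Prime → (q : ℤ) ∣ k → w < q

open Classical in
/-- the primes `p` of `(y₁, y₂]` such that `p + h₀` has at most two prime factors, all larger than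
`x ^ (1/9)`, and all `p + t`, `t ∈ T`, have at most `j` prime factors, all larger than `x ^ (1/j)` -/
noncomputable def Ch (j x : ℕ) (T : Finset ℤ) (h₀ : ℤ) (y₁ y₂ : ℕ) : Finset ℕ :=
  (Ioc y₁ y₂).filter (fun p : ℕ => p.Prime ∧ Alm 2 ((x : ℝ) ^ (1 / 9 : ℝ)) (p + h₀) ∧
    ∀ t ∈ T, Alm j ((x : ℝ) ^ (1 / (j : ℝ))) (p + t))

theorem Alm_neg {j : ℕ} {w : ℝ} {k : ℤ} (h : Alm j w (-k)) : Alm j w k := by
  obtain ⟨h1, h2, h3⟩ := h
  refine ⟨fun h => h1 (by rw [h, neg_zero]), ?_, ?_⟩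
  · rwa [Int.natAbs_neg] at h2
  · intro q hq hd
    exact h3 q hq ((dvd_neg).2 hd)

theorem rho_eq (T : Finset ℤ) (h0 : (0 : ℤ) ∈ T) (q : ℕ) :
    Pool.Agent.Y840.CT.rho ((T.erase 0).image (fun t => -t)) q = nu T q := by
  unfold Pool.Agent.Y840.CT.rho nu
  have h1 : insert (0 : ℤ) ((T.erase 0).image (fun t => -t)) = T.image (fun t => -t) := by
    ext v
    rw [mem_insert, mem_image, mem_image]
    constructor
    · rintro (rfl | ⟨t, ht, rfl⟩)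
      · exact ⟨0, h0, neg_zero⟩
      · exact ⟨t, (mem_erase.1 ht).2, rfl⟩
    · rintro ⟨t, ht, rfl⟩
      by_cases h : t = 0
      · left
        rw [h, neg_zero]
      · right
        exact ⟨t, mem_erase.2 ⟨h, ht⟩, rfl⟩
  rw [h1, image_image]
  apply card_image_eq_of
  intro s _ t _
  simp only [Function.comp]
  constructor
  · intro h
    exact Int.ModEq.neg (h : s ≡ t [ZMOD q])
  · intro h
    have h5 := Int.ModEq.neg (h : -s ≡ -t [ZMOD q])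
    rw [neg_neg, neg_neg] at h5
    exact h5

/-- **Chen's theorem for tuples in windows** -/
theorem chen_low (r : ℕ) : ∃ j : ℕ, 1 ≤ j ∧ ∃ c : ℝ, 0 < c ∧ ∀ θ : ℝ, 0 < θ → ∃ x₀ : ℕ, ∀ x : ℕ,
    x₀ ≤ x → ∀ T : Finset ℤ, Tup r x T → (0 : ℤ) ∈ T → ∀ h₀ ∈ T, h₀ ≠ 0 → ∀ y₁ y₂ : ℕ, y₂ ≤ x →
    θ * x ≤ (y₂ : ℝ) - y₁ → c * (((y₂ : ℝ) - y₁) * gg T x) ≤ ((Ch j x T h₀ y₁ y₂).card : ℝ) := by
  classical
  obtain ⟨j, hj, c₁, hc₁, hL⟩ := Pool.Agent.Y840.CT.Lev_ex r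
  obtain ⟨c₂, C₂, hc₂, _, x₁, hV⟩ := VV_cmp r
  refine ⟨j, hj, c₁ * c₂, by positivity, fun θ hθ => ?_⟩
  obtain ⟨x₂, h2⟩ := hL θ hθ
  refine ⟨max x₁ (max x₂ 1), ?_⟩
  intro x hx T hT h0T h₀ hh hh0 y₁ y₂ hy2 hy
  have hx1 : x₁ ≤ x := (le_max_left _ _).trans hx
  have hx2 : x₂ ≤ x := (le_max_left _ _).trans ((le_max_right _ _).trans hx)
  have hx3 : 1 ≤ x := (le_max_right _ _).trans ((le_max_right _ _).trans hx)
  obtain ⟨H, hH⟩ : ∃ H : Finset ℤ, H = (T.erase 0).image (fun t => -t) := ⟨_, rfl⟩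
  have hrho : ∀ q : ℕ, Pool.Agent.Y840.CT.rho H q = nu T q := by
    intro q
    rw [hH]
    exact rho_eq T h0T q
  have hS : Pool.Agent.Y840.CT.Sys r x H := by
    refine ⟨?_, ?_, ?_⟩
    · rw [hH]
      refine card_image_le.trans ((card_le_card (erase_subset _ _)).trans hT.card.le)
    · intro h hh
      rw [hH, mem_image] at hh
      obtain ⟨t, ht, rfl⟩ := hh
      rw [mem_erase] at ht
      refine ⟨neg_ne_zero.2 ht.1, ?_⟩
      rw [abs_neg]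
      exact hT.size t ht.2
    · intro q hq
      rw [hrho]
      exact hT.adm q hq
  have h3 := h2 x hx2 H hS (-h₀) (by
    rw [hH]
    exact mem_image_of_mem _ (mem_erase.2 ⟨hh0, hh⟩)) y₁ y₂ hy2 hy
  have h4 := Pool.Agent.Y840.CT.Vp_le j hj H hS.loc hx3
  have h5 : Pool.Agent.Y840.CT.Vp H x = VV (ZT T) 0 x := by
    unfold Pool.Agent.Y840.CT.Vp VV
    apply prod_congr
    · ext q
      rw [Pr_mem, mem_filter, mem_Icc]
      constructor
      · rintro ⟨⟨a, b⟩, c⟩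
        exact ⟨⟨c.pos, b⟩, c⟩
      · rintro ⟨⟨a, b⟩, c⟩
        exact ⟨⟨c.pos, b⟩, c⟩
    · intro q hq
      rw [card_ZT T (Pr_prime hq).pos, hrho]
  have h6 := (hV x hx1 T hT.card hT.adm hT.size).1
  have h7 : 0 ≤ (y₂ : ℝ) - y₁ := le_trans (by positivity) hy
  have h8 : ((Pool.Agent.Y840.CT.Good j x y₁ y₂ H (-h₀)).card : ℝ) ≤ ((Ch j x T h₀ y₁ y₂).card : ℝ) := by
    rw [Nat.cast_le]
    apply card_le_card
    intro p hp
    unfold Pool.Agent.Y840.CT.Good at hp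
    rw [mem_filter] at hp
    obtain ⟨p1, p2, p3, p4, p5⟩ := hp
    unfold Ch
    rw [mem_filter]
    refine ⟨p1, p2, ?_, ?_⟩
    · apply Alm_neg
      have e : -((p : ℤ) + h₀) = -h₀ - p := by ring
      rw [e]
      exact p4
    · intro t ht
      by_cases h : t = 0
      · rw [h, add_zero]
        refine ⟨by exact_mod_cast p2.ne_zero, ?_, ?_⟩
        · rw [Int.natAbs_natCast, Nat.primeFactorsList_prime p2]
          exact hj
        · intro q hq hd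
          have h9 : q ∣ p := by exact_mod_cast hd
          rw [(Nat.prime_dvd_prime_iff_eq hq p2).1 h9]
          exact p3
      · apply Alm_neg
        have e : -((p : ℤ) + t) = -t - p := by ring
        rw [e]
        apply p5
        rw [hH]
        exact mem_image_of_mem _ (mem_erase.2 ⟨h, ht⟩)
  calc c₁ * c₂ * (((y₂ : ℝ) - y₁) * gg T x) = c₁ * ((y₂ : ℝ) - y₁) * (c₂ * gg T x) := by ring
    _ ≤ c₁ * ((y₂ : ℝ) - y₁) * VV (Pool.Agent.Y843.HG.Z0 (Pool.Agent.Y840.CT.OmH H)) 0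
        ⌊(x : ℝ) ^ (1 / (j : ℝ))⌋₊ := by
        apply mul_le_mul_of_nonneg_left _ (by positivity)
        rw [h5] at h4
        exact h6.trans h4
    _ ≤ _ := h3.trans h8

theorem Ch_rough {j x : ℕ} (T : Finset ℤ) (h₀ : ℤ) (y₁ y₂ : ℕ) :
    ∀ n ∈ Ch j x T h₀ y₁ y₂, Rough j x T n := by
  classical
  intro n hn q hq hqx t ht hd
  unfold Ch at hn
  rw [mem_filter] at hn
  have := (hn.2.2.2 t ht).2.2 q hq hd
  linarith

theorem Ch_sub {j x : ℕ} (T : Finset ℤ) (h₀ : ℤ) (y₁ y₂ : ℕ) : Ch j x T h₀ y₁ y₂ ⊆ Ioc y₁ y₂ := by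
  classical
  unfold Ch
  exact filter_subset _ _

end Pool.Agent.Y843.AC.HL
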