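import Pool.Agent.Y843.HS.Stm

/-!
# Project AC (helper843): the number of progressions in dense subsets of sifted sets

For the sets `S` of integers of `(A, A + X]` which avoid the classes `Z p` for all primes `p ≤ X ^ κ`
(`|Z p| ≤ r`, `|Z p| < p`) the number of the progressions of `k` terms in `S` with a difference at most `D` is
at most of the order `X D V ^ k`, `V = ∏ (1 - |Z p| / p)`, for all `D ≥ log ^ B X`, and it is of this order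
if and only if `S` has at least `c X V` elements.
-/

set_option autoImplicit false

open Finset

namespace Pool.Agent.Y843.AC

open Pool.Agent.H602R3.DHJ (av)
open Pool.Agent.Y727.PSP (rp)
open Pool.Agent.Y843.HS

open Classical in
/-- the progressions `a, a + d, …, a + (k - 1) d` in `S` with `1 ≤ d ≤ D`, as pairs `(a, d)` -/
noncomputable def APs (k D : ℕ) (S : Finset ℕ) : Finset (ℕ × ℕ) :=
  (S ×ˢ Icc 1 D).filter (fun q => ∀ j < k, q.1 + j * q.2 ∈ S)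

/-- the classes for the primes up to `X ^ κ` -/
def OK (r : ℕ) (κ : ℝ) (X : ℕ) (Z : ℕ → Finset ℕ) : Prop :=
  ∀ p : ℕ, p.Prime → (p : ℝ) ≤ (X : ℝ) ^ κ → (Z p).card ≤ r ∧ (Z p).card < p ∧ ∀ c ∈ Z p, c < p

/-- `n` avoids the classes -/
def Av (κ : ℝ) (X : ℕ) (Z : ℕ → Finset ℕ) (n : ℕ) : Prop :=
  ∀ p : ℕ, p.Prime → (p : ℝ) ≤ (X : ℝ) ^ κ → n % p ∉ Z p

/-- (UPG) upper bound for the number of the patterns with two parameters.

Proof. Inputs: `S_FLC` (through `HS.FLc_of`, `HS.BB`, with `D = 1`, `a = 0`), `S_LOC`, `S_GAV`, `S_DEN` (theorems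
`Pool.Agent.Y151.HS.flc`, `Pool.Agent.Y79.HS.loc`, `gav`, `den`), `HS.Coll_sub_le`, `HS.VV_ge`, `HS.VV_split`, `HS.EE_log`,
`HS.Sv_Om`, `HS.mem_Om_iff`, and the choice of the level as in `HS.partA` (`exists_cross`, `tower_ge`).
`K` from LOC for `(r, m)`, its `s₀` for `ε = 1`; `CF` the constant of FLc; `K' = m ^ 2 * K * (1 + K) ^ m ^ 2`;
`s₂, B₀, X₁` from GAV for `(r, K', ε = 1)`; `b = CF (m r + 1)`; `s = max` of all `s₀`, `b`, `2 r + 3`. Let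
`C2 ≥ CF b + 1` and `C2 ≥ 1/κ`; `J` maximal with `(2 ^ 2 ^ J) ^ C2 ≤ X`, `R = 2 ^ 2 ^ J`; so `R ≤ Y := ⌊X ^ κ⌋`,
`X < R ^ (2 C2)`, `Y ≤ R ^ L`, `L = 2 C2 ⌈κ⌉`.
For given `d, d'` and `u i = α i d + β i d'`: the `x` of `(A, A + X]` with all `x + u i` outside of the classes
modulo the primes of `(s, R]` are `BB (Om Z u) s R 1 0 A X`; FLc and LOC give at most
`2 X VV Z s R ^ m * Coll K Z s R u + R ^ (CF b) ≤ 3 X VV Z s R ^ m * Coll K Z s R u` of them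
(`R ^ (CF b) ≤ X / R` and `VV Z s R ^ m ≥ (c log R) ^ (-2 r m) ≥ 1/R` for large `R`).
Sum over `d, d' ≤ D`: `∑ Coll ≤ D ^ 2 + ∑_{i ≠ j} ∑_{d, d'} (Gd K' Z s R (u i - u j) - 1)`; for `i ≠ j` the form
`(α i - α j) d + (β i - β j) d'` takes every value at most `D` times, and its values are in `(-N, N)`,
`N = 2 M₀ D + 1`, `M₀` the sum of all the coefficients; so the inner sum is `≤ D * ∑_{|h| < N} (Gd - 1) ≤ D * N` by GAV.
(`h = 0` is included in GAV.) Finally `VV Z s R ^ m ≤ C' VV Z 0 Y ^ m`, as `VV Z 0 Y = VV Z 0 s * VV Z s R * VV Z R Y`,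
`VV Z 0 s ≥ ∏_{p ≤ s} 1/p` and `VV Z R Y ≥ c` by DEN. -/
def S_UPG : Prop := ∀ (r m : ℕ) (κ : ℝ), 0 < κ → ∀ α β : Fin m → ℕ,
  (∀ i j, i ≠ j → (α i, β i) ≠ (α j, β j)) → ∃ C : ℝ, 0 < C ∧ ∃ B X₀ : ℕ, ∀ X A D : ℕ, X₀ ≤ X →
    Real.log X ^ B ≤ D → ∀ Z : ℕ → Finset ℕ, OK r κ X Z → ∀ T : Finset (ℕ × ℕ × ℕ),
    (∀ t ∈ T, t.1 ∈ Ioc A (A + X) ∧ t.2.1 ∈ Icc 1 D ∧ t.2.2 ∈ Icc 1 D ∧
      ∀ i, Av κ X Z (t.1 + α i * t.2.1 + β i * t.2.2)) →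
    (T.card : ℝ) ≤ C * X * (D : ℝ) ^ 2 * VV Z 0 ⌊(X : ℝ) ^ κ⌋₊ ^ m

open Classical in
/-- the function in the window at `x` (this is `Pool.Agent.Y843.HS.fX`) -/
noncomputable def fW (T : Finset ℕ) (w : ℝ) (N x : ℕ) (a : ZMod N) : ℝ :=
  if x + rp a ∈ T ∧ 2 * rp a < N then w else 0

/-- (WIN) the progressions in the windows come from progressions in `T`, with multiplicity `2 N`.

Proof. `av f = (∑ f) / card`, here `card (ZMod N × ZMod N) = N ^ 2`. The product is `w ^ k` or `0`. The terms with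
`p.2 = 0`: at most `|I| N` triples `(x, a, 0)`, which gives `w ^ k |I| / N`. For `d ≠ 0` and a nonzero product let
`c j = rp (a + j d)`; by the proof of `Pool.Agent.Y843.HS.ap_of_rp` (in HS/Win.lean) `c j = c 0 + j Δ` in the integers for
`j < k`, `Δ = c 1 - c 0 ≠ 0`, `|Δ| < N`; attach to `(x, a, d)` the progression `(x + c 0, Δ)` if `Δ > 0` and
`(x + c (k-1), -Δ)` if `Δ < 0`; it is in `APs k N T`. The map `(x, a, d) ↦ (progression, sign of Δ, c 0 or c (k - 1))` is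
injective (the first term minus the third component is `x`, the third component and `Δ` give `a` and `d`, as
`a = (c 0 : ZMod N)`, `d = (c 1 : ZMod N) - c 0`), and the third component is one of the `N` values of `rp` (in `[1, N]`). So
there are at most `2 N * card (APs k N T)` triples. -/
def S_WIN : Prop := ∀ (k N : ℕ) [NeZero N], 2 ≤ k → ∀ (T : Finset ℕ) (w : ℝ), 0 ≤ w → ∀ I : Finset ℕ,
  ∑ x ∈ I, av (fun p : ZMod N × ZMod N => ∏ j ∈ range k, fW T w N x (p.1 + (j : ZMod N) * p.2)) ≤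
    w ^ k * (2 * ((APs k N T).card : ℝ) / N + (I.card : ℝ) / N)

/-- (CONV) sets with many progressions have many elements.

Proof from UPG with `m = 2 k - 1`, the forms `(α, β) = (j, 0)` (`j < k`) and `(0, j)` (`1 ≤ j < k`). With
`w a = #{d : (a, d) ∈ APs k D S}`: `∑_{a ∈ S} w a = card (APs k D S)` and `∑_{a ∈ S} (w a) ^ 2` is the number of the
triples `(a, d, d')` with `(a, d), (a, d') ∈ APs k D S`, so at most `C X D ^ 2 V ^ (2 k - 1)` by UPG. Cauchy's inequality: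
`(δ X D V ^ k) ^ 2 ≤ |S| C X D ^ 2 V ^ (2 k - 1)`, that is `δ ^ 2 / C * X V ≤ |S|` (`V > 0`, `D > 0`). -/
def S_CONV : Prop := ∀ (r k : ℕ) (κ δ : ℝ), 1 ≤ k → 0 < κ → 0 < δ → ∃ c : ℝ, 0 < c ∧ ∃ B X₀ : ℕ,
  ∀ X A D : ℕ, X₀ ≤ X → Real.log X ^ B ≤ D → ∀ Z : ℕ → Finset ℕ, OK r κ X Z →
    ∀ S : Finset ℕ, S ⊆ Ioc A (A + X) → (∀ n ∈ S, Av κ X Z n) →
    δ * X * D * VV Z 0 ⌊(X : ℝ) ^ κ⌋₊ ^ k ≤ ((APs k D S).card : ℝ) →
    c * X * VV Z 0 ⌊(X : ℝ) ^ κ⌋₊ ≤ (S.card : ℝ)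

/-- (UPA) upper bound for the number of progressions.

Proof from UPG with `m = k`, `(α, β) = (j, 0)` for `j < k`: apply it to the triples `(a, d, d')`, `(a, d) ∈ APs k D S`,
`1 ≤ d' ≤ D` and divide by `D ≥ 1`. -/
def S_UPA : Prop := ∀ (r k : ℕ) (κ : ℝ), 1 ≤ k → 0 < κ → ∃ C : ℝ, 0 < C ∧ ∃ B X₀ : ℕ,
  ∀ X A D : ℕ, X₀ ≤ X → Real.log X ^ B ≤ D → ∀ Z : ℕ → Finset ℕ, OK r κ X Z →
    ∀ S : Finset ℕ, S ⊆ Ioc A (A + X) → (∀ n ∈ S, Av κ X Z n) →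
    ((APs k D S).card : ℝ) ≤ C * X * D * VV Z 0 ⌊(X : ℝ) ^ κ⌋₊ ^ k

/-- (CNT) lower bound for the number of progressions -/
def S_CNT : Prop := ∀ (r k : ℕ) (κ δ : ℝ), 1 ≤ k → 0 < κ → 0 < δ → ∃ c : ℝ, 0 < c ∧ ∃ B X₀ : ℕ,
  ∀ X A D : ℕ, X₀ ≤ X → Real.log X ^ B ≤ D → D ≤ X → ∀ Z : ℕ → Finset ℕ, OK r κ X Z →
    ∀ S : Finset ℕ, S ⊆ Ioc A (A + X) → (∀ n ∈ S, Av κ X Z n) →
    δ * X * VV Z 0 ⌊(X : ℝ) ^ κ⌋₊ ≤ (S.card : ℝ) →
    c * X * D * VV Z 0 ⌊(X : ℝ) ^ κ⌋₊ ^ k ≤ ((APs k D S).card : ℝ)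

end Pool.Agent.Y843.AC
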