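import Pool.Agent.Y843.HS.Top
import Pool.Agent.Y843.AC.CntB
import Pool.Agent.Y71.AC.Upg
import Pool.Agent.Y872.AC.Win
import Pool.Agent.Y363.AC.Conv

/-!
# Project AC: all parts together

Parts: helper71 (UPG), helper872 (WIN), helper363 (CONV, UPA), helper843 (CNT).
-/

set_option autoImplicit false

namespace Pool.Agent.Y843.AC

open Pool.Agent.Y843.HS

theorem upg_all : S_UPG :=
  Pool.Agent.Y71.AC.upg Pool.Agent.Y151.HS.flc Pool.Agent.Y79.HS.loc Pool.Agent.Y79.HS.gav
    Pool.Agent.Y79.HS.den

/-- upper bound for the number of progressions in sifted sets -/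
theorem upa_all : S_UPA := Pool.Agent.Y363.AC.upa upg_all

/-- subsets of sifted sets with many progressions have many elements -/
theorem conv_all : S_CONV := Pool.Agent.Y363.AC.conv upg_all

/-- dense subsets of sifted sets have many progressions -/
theorem cnt_all : S_CNT :=
  cnt Pool.Agent.Y257.HS.s_TH cor_all Pool.Agent.Y79.HS.gav Pool.Agent.Y79.HS.den rs_all
    Pool.Agent.Y872.AC.win

end Pool.Agent.Y843.AC
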